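import Mathlib

/-!
# Local definitions: `GL_2` of a discretely valued field

`L` is a field with a valuation with values in `ℤᵐ⁰` (`v x = exp (-n)` for an element of
order `n`).
-/

set_option autoImplicit false
noncomputable section
open WithZero Matrix

namespace Run7.h866.AF

section Local

variable (L : Type) [Field L] [Valued L ℤᵐ⁰]

/-- The entries of `g` are integral. -/
def Integral2 {L : Type} [Field L] [Valued L ℤᵐ⁰] (g : Matrix (Fin 2) (Fin 2) L) : Prop :=
  ∀ i j, Valued.v (g i j) ≤ 1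

theorem Integral2.mul {L : Type} [Field L] [Valued L ℤᵐ⁰] {g h : Matrix (Fin 2) (Fin 2) L}
    (hg : Integral2 g) (hh : Integral2 h) : Integral2 (g * h) := by
  intro i j
  rw [Matrix.mul_apply, Fin.sum_univ_two]
  refine (Valuation.map_add _ _ _).trans (max_le ?_ ?_)
  · rw [map_mul]; exact mul_le_one' (hg i 0) (hh 0 j)
  · rw [map_mul]; exact mul_le_one' (hg i 1) (hh 1 j)

theorem integral2_one {L : Type} [Field L] [Valued L ℤᵐ⁰] :
    Integral2 (1 : Matrix (Fin 2) (Fin 2) L) := by
  intro i j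
  rw [Matrix.one_apply]
  split_ifs <;> simp

/-- **The principal congruence subgroup of level `n` of `GL_2(L)`**: the matrices `g` with
integral entries whose inverse has integral entries and which are congruent to `1` modulo the
`n`-th power of the maximal ideal. For `n = 0` this is the maximal compact subgroup
`GL_2(O)`, and for varying `n` these are a basis of the open neighbourhoods of `1`. -/
def Cong (n : ℕ) : Subgroup (GL (Fin 2) L) where
  carrier := {g | Integral2 (g : Matrix (Fin 2) (Fin 2) L) ∧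
    Integral2 ((g⁻¹ : GL (Fin 2) L) : Matrix (Fin 2) (Fin 2) L) ∧
    ∀ i j, Valued.v ((g : Matrix (Fin 2) (Fin 2) L) i j - (1 : Matrix (Fin 2) (Fin 2) L) i j)
      ≤ exp (-(n : ℤ))}
  one_mem' := by
    refine ⟨by simpa using integral2_one, by simpa using integral2_one, ?_⟩
    intro i j
    simp
  mul_mem' := by
    rintro a b ⟨ha, ha', ha''⟩ ⟨hb, hb', hb''⟩
    refine ⟨by simpa using ha.mul hb, by simpa using hb'.mul ha', ?_⟩
    intro i j
    have h : ((a * b : GL (Fin 2) L) : Matrix (Fin 2) (Fin 2) L) - 1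
        = ((a : Matrix (Fin 2) (Fin 2) L) - 1) * (b : Matrix (Fin 2) (Fin 2) L)
          + ((b : Matrix (Fin 2) (Fin 2) L) - 1) := by
      simp [sub_mul]
    rw [← Matrix.sub_apply, h, Matrix.add_apply, Matrix.mul_apply, Fin.sum_univ_two]
    have key : ∀ k, Valued.v (((a : Matrix (Fin 2) (Fin 2) L) - 1) i k
        * (b : Matrix (Fin 2) (Fin 2) L) k j) ≤ exp (-(n : ℤ)) := by
      intro k
      rw [map_mul]
      exact (mul_le_mul' (by simpa using ha'' i k) (hb k j)).trans (by simp)
    refine (Valuation.map_add _ _ _).trans (max_le ?_ (by simpa using hb'' i j))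
    exact (Valuation.map_add _ _ _).trans (max_le (key 0) (key 1))
  inv_mem' := by
    rintro a ⟨ha, ha', ha''⟩
    refine ⟨ha', by simpa using ha, ?_⟩
    intro i j
    have h : ((a⁻¹ : GL (Fin 2) L) : Matrix (Fin 2) (Fin 2) L) - 1
        = - (((a : Matrix (Fin 2) (Fin 2) L) - 1)
          * ((a⁻¹ : GL (Fin 2) L) : Matrix (Fin 2) (Fin 2) L)) := by
      have h1 : (a : Matrix (Fin 2) (Fin 2) L)
          * ((a⁻¹ : GL (Fin 2) L) : Matrix (Fin 2) (Fin 2) L) = 1 := by
        rw [← Units.val_mul, mul_inv_cancel, Units.val_one]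
      rw [sub_mul, h1]
      simp
    rw [← Matrix.sub_apply, h, Matrix.neg_apply, Valuation.map_neg, Matrix.mul_apply,
      Fin.sum_univ_two]
    have key : ∀ k, Valued.v (((a : Matrix (Fin 2) (Fin 2) L) - 1) i k
        * ((a⁻¹ : GL (Fin 2) L) : Matrix (Fin 2) (Fin 2) L) k j) ≤ exp (-(n : ℤ)) := by
      intro k
      rw [map_mul]
      exact (mul_le_mul' (by simpa using ha'' i k) (ha' k j)).trans (by simp)
    exact (Valuation.map_add _ _ _).trans (max_le (key 0) (key 1))

variable {L}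

theorem mem_cong_iff {n : ℕ} {g : GL (Fin 2) L} : g ∈ Cong L n ↔
    Integral2 (g : Matrix (Fin 2) (Fin 2) L) ∧
    Integral2 ((g⁻¹ : GL (Fin 2) L) : Matrix (Fin 2) (Fin 2) L) ∧
    ∀ i j, Valued.v ((g : Matrix (Fin 2) (Fin 2) L) i j - (1 : Matrix (Fin 2) (Fin 2) L) i j)
      ≤ exp (-(n : ℤ)) := Iff.rfl

theorem cong_anti {m n : ℕ} (h : m ≤ n) : Cong L n ≤ Cong L m := by
  rintro g ⟨h1, h2, h3⟩
  refine ⟨h1, h2, fun i j => (h3 i j).trans ?_⟩
  rw [exp_le_exp]
  omega

theorem mem_cong_zero_iff {g : GL (Fin 2) L} : g ∈ Cong L 0 ↔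
    Integral2 (g : Matrix (Fin 2) (Fin 2) L) ∧
    Integral2 ((g⁻¹ : GL (Fin 2) L) : Matrix (Fin 2) (Fin 2) L) := by
  refine ⟨fun h => ⟨h.1, h.2.1⟩, fun h => ⟨h.1, h.2, fun i j => ?_⟩⟩
  refine (Valuation.map_sub _ _ _).trans (max_le ?_ ?_)
  · simpa using h.1 i j
  · simpa using integral2_one i j

end Local

end Run7.h866.AF
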