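import Mathlib
import Pool.Agent.Run7.h866.AF.Loc

/-!
# Places of `F(t)` and representations of `GL_2` of a local field
-/

set_option autoImplicit false
noncomputable section
open IsDedekindDomain Polynomial WithZero Matrix

namespace Run7.h866.AF

variable (F : Type) [Field F]

/-! ### places -/

/-- The places of `F(t)`: the nonzero primes of `F[t]`, and `none`, the place at infinity. -/
abbrev Pl := Option (HeightOneSpectrum F[X])

open Classical in
/-- The normalised (multiplicative) valuation of `F(t)` at a place. -/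
def vK : (w : Pl F) → Valuation (RatFunc F) ℤᵐ⁰
  | none => RatFunc.inftyValuation F
  | some v => v.valuation (RatFunc F)

/-- The cardinality of the residue field at `w`. -/
def qn : Pl F → ℕ
  | none => Nat.card F
  | some v => Nat.card (F[X] ⧸ v.asIdeal)

/-- Only finitely many places have `|x|_w > 1`. -/
theorem eventually_integral (x : RatFunc F) :
    ∀ᶠ w : Pl F in Filter.cofinite, vK F w x ≤ 1 := by
  have h := HeightOneSpectrum.Support.finite F[X] (K := RatFunc F) x
  rw [Filter.eventually_cofinite]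
  refine ((h.image some).insert none).subset ?_
  rintro (_ | v) hv
  · exact Set.mem_insert _ _
  · refine Set.mem_insert_of_mem _ ⟨v, ?_, rfl⟩
    simpa [HeightOneSpectrum.Support, vK] using hv

/-! ### matrices and representations -/

/-- An upper triangular matrix over a field, as an element of `GL_2`. -/
def triL {L : Type} [Field L] (a : Lˣ) (b : L) (d : Lˣ) : GL (Fin 2) L where
  val := !![(a : L), b; 0, (d : L)]
  inv := !![((a⁻¹ : Lˣ) : L), -((a⁻¹ : Lˣ) : L) * b * ((d⁻¹ : Lˣ) : L); 0, ((d⁻¹ : Lˣ) : L)]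
  val_inv := by
    have h : (a : L) * -((a⁻¹ : Lˣ) : L) * b * ((d⁻¹ : Lˣ) : L) + b * ((d⁻¹ : Lˣ) : L) = 0 := by
      rw [mul_neg, Units.mul_inv]; ring
    ext i j
    fin_cases i <;> fin_cases j <;> simp [Matrix.mul_apply, Fin.sum_univ_two]
    rw [← h, Units.val_inv_eq_inv_val, Units.val_inv_eq_inv_val]; ring
  inv_val := by
    ext i j
    fin_cases i <;> fin_cases j <;> simp [Matrix.mul_apply, Fin.sum_univ_two]

/-- Irreducible representations. -/
def Irred {G V : Type} [Group G] [AddCommGroup V] [Module ℂ V]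
    (ρ : Representation ℂ G V) : Prop :=
  Nontrivial V ∧ ∀ N : Submodule ℂ V, (∀ g, ∀ x ∈ N, ρ g x ∈ N) → N = ⊥ ∨ N = ⊤

/-- An irreducible smooth representation of `GL_2(L)`. (For a local field `L` these have
countable dimension, so spaces in `Type` are enough.) -/
structure IrrRep (L : Type) [Field L] [Valued L ℤᵐ⁰] where
  /-- the space -/
  V : Type
  [acg : AddCommGroup V]
  [mod : Module ℂ V]
  /-- the action -/
  ρ : Representation ℂ (GL (Fin 2) L) V
  irred : Irred ρ
  smooth : ∀ x : V, ∃ n, ∀ k ∈ Cong L n, ρ k x = x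

attribute [instance] IrrRep.acg IrrRep.mod

/-- Isomorphism of representations. -/
def IrrRep.Iso {L : Type} [Field L] [Valued L ℤᵐ⁰] (A B : IrrRep L) : Prop :=
  ∃ e : A.V ≃ₗ[ℂ] B.V, ∀ g x, e (A.ρ g x) = B.ρ g (e x)

/-- The representation is unramified: there is a nonzero vector fixed by `GL_2(O)`. -/
def IrrRep.Unram {L : Type} [Field L] [Valued L ℤᵐ⁰] (A : IrrRep L) : Prop :=
  ∃ x : A.V, x ≠ 0 ∧ ∀ k ∈ Cong L 0, A.ρ k x = x

end Run7.h866.AF
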