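import Mathlib
import Pool.Agent.Run7.h866.AF.Base

/-!
# Automorphic representations of `GL_2` over the rational function field `K = F(t)`

`F` is a finite field, `K = RatFunc F = F(t)`. A place of `K` is either a nonzero prime of
`F[t]` or the place `∞` (`none`).
-/

set_option autoImplicit false
noncomputable section
open IsDedekindDomain Polynomial WithZero RestrictedProduct Matrix

namespace Run7.h866.AF

variable (F : Type) [Field F]

/-! ### places, completions, adeles -/

/-- The completion `K_w`. -/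
abbrev Kc (w : Pl F) : Type := (vK F w).Completion

/-- The embedding of `K = F(t)` into the completion `K_w`. -/
def emb (w : Pl F) : RatFunc F →+* Kc F w :=
  (UniformSpace.Completion.coeRingHom).comp (WithVal.equiv (vK F w)).symm.toRingHom

theorem v_emb (w : Pl F) (x : RatFunc F) : Valued.v (emb F w x) = vK F w x :=
  Valued.valuedCompletion_apply (WithVal.toVal (vK F w) x)

/-- The group `GL_2(𝔸)`: the restricted product of the groups `GL_2(K_w)` with respect to the
subgroups `GL_2(O_w)`. -/
abbrev GA : Type := Πʳ w : Pl F, [GL (Fin 2) (Kc F w), (Cong (Kc F w) 0 : Subgroup _)]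

/-- The ring of adeles. -/
abbrev AK : Type := Πʳ w : Pl F, [Kc F w, (Valued.v : Valuation (Kc F w) ℤᵐ⁰).integer]

/-- The units `O_w^×`. -/
def unitsO (w : Pl F) : Subgroup (Kc F w)ˣ where
  carrier := {u | Valued.v (u : Kc F w) = 1}
  one_mem' := by simp
  mul_mem' := by
    intro a b ha hb
    simp only [Set.mem_ofPred_eq] at ha hb ⊢
    rw [Units.val_mul, map_mul, ha, hb, mul_one]
  inv_mem' := by
    intro a ha
    simp only [Set.mem_ofPred_eq] at ha ⊢
    rw [Units.val_inv_eq_inv_val, map_inv₀, ha, inv_one]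

/-- The group of ideles. -/
abbrev IK : Type := Πʳ w : Pl F, [(Kc F w)ˣ, unitsO F w]

/-- The diagonal embedding `GL_2(K) → GL_2(𝔸)`. -/
def glob : GL (Fin 2) (RatFunc F) →* GA F where
  toFun γ := ⟨fun w => Matrix.GeneralLinearGroup.map (emb F w) γ, by
    have h1 : ∀ i j, ∀ᶠ w : Pl F in Filter.cofinite,
        vK F w ((γ : Matrix (Fin 2) (Fin 2) (RatFunc F)) i j) ≤ 1 :=
      fun i j => eventually_integral F _
    have h2 : ∀ i j, ∀ᶠ w : Pl F in Filter.cofinite,
        vK F w (((γ⁻¹ : GL (Fin 2) (RatFunc F)) :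
          Matrix (Fin 2) (Fin 2) (RatFunc F)) i j) ≤ 1 :=
      fun i j => eventually_integral F _
    simp only [← Filter.eventually_all] at h1 h2
    filter_upwards [h1, h2] with w hw1 hw2
    refine mem_cong_zero_iff.2 ⟨fun i j => ?_, fun i j => ?_⟩
    · rw [Matrix.GeneralLinearGroup.map_apply, v_emb]
      exact hw1 i j
    · rw [← map_inv, Matrix.GeneralLinearGroup.map_apply, v_emb]
      exact hw2 i j⟩
  map_one' := by ext w : 1; simp
  map_mul' a b := by ext w : 1; simp

open Classical in
/-- The inclusion `GL_2(K_w) → GL_2(𝔸)` at the place `w`. -/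
def loc (w : Pl F) : GL (Fin 2) (Kc F w) →* GA F where
  toFun g := RestrictedProduct.mulSingle _ w g
  map_one' := by simp
  map_mul' a b := by simp [RestrictedProduct.mulSingle_mul]

/-- The diagonal embedding `K → 𝔸`. -/
def globA : RatFunc F →+* AK F where
  toFun x := ⟨fun w => emb F w x, by
    filter_upwards [eventually_integral F x] with w hw
    simpa [Valuation.mem_integer_iff, v_emb] using hw⟩
  map_one' := by ext w : 1; simp
  map_mul' a b := by ext w : 1; simp
  map_zero' := by ext w : 1; simp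
  map_add' a b := by ext w : 1; simp

/-- The diagonal embedding `K^× → 𝔸^×`. -/
def globI : (RatFunc F)ˣ →* IK F where
  toFun x := ⟨fun w => Units.map (emb F w).toMonoidHom x, by
    filter_upwards [eventually_integral F (x : RatFunc F),
      eventually_integral F ((x⁻¹ : (RatFunc F)ˣ) : RatFunc F)] with w hw1 hw2
    change Valued.v (emb F w x) = 1
    rw [v_emb]
    refine le_antisymm hw1 ?_
    rw [Units.val_inv_eq_inv_val, map_inv₀] at hw2
    have hx : 0 < vK F w x := by
      rw [zero_lt_iff]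
      exact (Valuation.ne_zero_iff _).2 x.ne_zero
    exact (inv_le_one₀ hx).1 hw2⟩
  map_one' := by ext w : 1; simp
  map_mul' a b := by ext w : 1; simp

/-- The open subgroup of `GL_2(𝔸)` of level `m`, `m` an effective divisor. -/
def U (m : Pl F →₀ ℕ) : Subgroup (GA F) where
  carrier := {g | ∀ w, g w ∈ Cong (Kc F w) (m w)}
  one_mem' w := by simp
  mul_mem' := by
    intro a b ha hb w
    simpa using Subgroup.mul_mem _ (ha w) (hb w)
  inv_mem' := by
    intro a ha w
    simpa using Subgroup.inv_mem _ (ha w)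

/-- The open subgroup of `𝔸` of level `m`. -/
def W (m : Pl F →₀ ℕ) : AddSubgroup (AK F) where
  carrier := {x | ∀ w, Valued.v (x w) ≤ exp (-(m w : ℤ))}
  zero_mem' w := by simp
  add_mem' := by
    intro a b ha hb w
    refine (Valuation.map_add _ _ _).trans (max_le (ha w) (hb w))
  neg_mem' := by
    intro a ha w
    have : (-a) w = - a w := rfl
    rw [this, Valuation.map_neg]
    exact ha w

/-- The adelic upper triangular matrix with diagonal entries `a`, `d` and upper right entry
`b`. -/
def tri (a : IK F) (b : AK F) (d : IK F) : GA F :=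
  ⟨fun w => triL (a w) (b w) (d w), by
    filter_upwards [a.2, b.2, d.2] with w ha hb hd
    have ha' : Valued.v (a w : Kc F w) = 1 := ha
    have hb' : Valued.v (b w : Kc F w) ≤ 1 := hb
    have hd' : Valued.v (d w : Kc F w) = 1 := hd
    refine mem_cong_zero_iff.2 ⟨fun i j => ?_, fun i j => ?_⟩
    · fin_cases i <;> fin_cases j <;> simp [triL, ha', hb', hd']
    · have h : (((triL (a w) (b w) (d w))⁻¹ : GL (Fin 2) (Kc F w)) :
          Matrix (Fin 2) (Fin 2) (Kc F w)) = !![(((a w)⁻¹ : (Kc F w)ˣ) : Kc F w),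
          -(((a w)⁻¹ : (Kc F w)ˣ) : Kc F w) * b w * (((d w)⁻¹ : (Kc F w)ˣ) : Kc F w); 0,
          (((d w)⁻¹ : (Kc F w)ˣ) : Kc F w)] := rfl
      rw [h]
      fin_cases i <;> fin_cases j <;> simp [ha', hb', hd']⟩

/-! ### representations -/

/-! ### automorphic forms -/

/-- The action of `GL_2(𝔸)` on functions by right translation. -/
def rt : Representation ℂ (GA F) (GA F → ℂ) where
  toFun g :=
    { toFun := fun f x => f (x * g)
      map_add' := fun _ _ => rfl
      map_smul' := fun _ _ => rfl }
  map_one' := by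
    refine LinearMap.ext fun f => funext fun x => ?_
    simp
  map_mul' a b := by
    refine LinearMap.ext fun f => funext fun x => ?_
    simp [mul_assoc]

/-- The space of functions spanned by the right translates of `f` under `GL_2(K_w)`. -/
def spanAt (w : Pl F) (f : GA F → ℂ) : Submodule ℂ (GA F → ℂ) :=
  Submodule.span ℂ (Set.range fun g : GL (Fin 2) (Kc F w) => rt F (loc F w g) f)

/-- The functions which are right invariant under the principal congruence subgroup of level
`n` of `GL_2(K_w)`. -/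
def fixedAt (w : Pl F) (n : ℕ) : Submodule ℂ (GA F → ℂ) where
  carrier := {f | ∀ k ∈ Cong (Kc F w) n, rt F (loc F w k) f = f}
  zero_mem' := by intro k _; simp
  add_mem' := by
    intro a b ha hb k hk
    rw [map_add, ha k hk, hb k hk]
  smul_mem' := by
    intro c a ha k hk
    rw [map_smul, ha k hk]

/-- **Automorphic forms on `GL_2(𝔸)`** (Borel-Jacquet, 5.8): functions on
`GL_2(K) \ GL_2(𝔸)` which are right invariant under an open subgroup and which generate, for
some place `w`, an admissible representation of `GL_2(K_w)`. -/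
structure IsAutForm (f : GA F → ℂ) : Prop where
  left : ∀ γ g, f (glob F γ * g) = f g
  smooth : ∃ m, ∀ u ∈ U F m, ∀ g, f (g * u) = f g
  adm : ∃ w, ∀ n, FiniteDimensional ℂ (spanAt F w f ⊓ fixedAt F w n : Submodule ℂ _)

/-- The sum `∑_{x ∈ 𝔸 / (K + W_m)} f (n(x) g)`, where `n(x)` is the unipotent matrix with upper
right entry `x`. For large `m` the function `x ↦ f (n(x) g)` is invariant under the finite
index subgroup `K + W_m` and the sum is a positive multiple of the integral
`∫_{𝔸 / K} f (n(x) g) dx`. (For a finite field `F` the quotient is finite for every `m`, see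
`Run7.h634.AF.finite_quot_AK`.) -/
def constTerm (f : GA F → ℂ) (g : GA F) (m : Pl F →₀ ℕ) : ℂ :=
  ∑ᶠ y : AK F ⧸ ((globA F).toAddMonoidHom.range ⊔ W F m), f (tri F 1 y.out 1 * g)

/-- A function is cuspidal if its constant terms vanish. -/
def IsCuspFun (f : GA F → ℂ) : Prop :=
  ∀ g, ∃ m₀, ∀ m, m₀ ≤ m → constTerm F f g m = 0

/-- The representation is a quotient of a space of automorphic forms with the property `P`,
i.e. a subquotient of the space of automorphic forms. -/
def IsSubquot {V : Type} [AddCommGroup V] [Module ℂ V] (P : (GA F → ℂ) → Prop)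
    (ρ : Representation ℂ (GA F) V) : Prop :=
  ∃ S : Submodule ℂ (GA F → ℂ), (∀ g, ∀ f ∈ S, rt F g f ∈ S) ∧
    (∀ f ∈ S, IsAutForm F f ∧ P f) ∧
    ∃ φ : S →ₗ[ℂ] V, Function.Surjective φ ∧
      ∀ (g : GA F) (f f' : S), (f' : GA F → ℂ) = rt F g f → φ f' = ρ g (φ f)

/-- **Automorphic representations**: the irreducible subquotients of the space of automorphic
forms. -/
def IsAutomorphic {V : Type} [AddCommGroup V] [Module ℂ V]
    (ρ : Representation ℂ (GA F) V) : Prop :=
  Irred ρ ∧ IsSubquot F (fun _ => True) ρ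

/-- **Cuspidal automorphic representations**: the irreducible subquotients of the space of cusp
forms. -/
def IsCuspidal {V : Type} [AddCommGroup V] [Module ℂ V]
    (ρ : Representation ℂ (GA F) V) : Prop :=
  Irred ρ ∧ IsSubquot F (IsCuspFun F) ρ

/-- The irreducible representation `A` of `GL_2(K_w)` is the component at `w` of the
irreducible representation `ρ` of `GL_2(𝔸)`: there is a nonzero `GL_2(K_w)`-equivariant map
from `A` to `ρ`. (By Flath's theorem `ρ` is a restricted tensor product `⊗ ρ_w` and its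
restriction to `GL_2(K_w)` is a direct sum of copies of `ρ_w`.) -/
def HasComp {V : Type} [AddCommGroup V] [Module ℂ V] (ρ : Representation ℂ (GA F) V)
    (w : Pl F) (A : IrrRep (Kc F w)) : Prop :=
  ∃ T : A.V →ₗ[ℂ] V, T ≠ 0 ∧ ∀ g x, T (A.ρ g x) = ρ (loc F w g) (T x)

/-! ### isobaric representations -/

/-- The norm of an idele, `∏_w |a_w|_w` with the normalised absolute values
`|a_w|_w = q_w ^ (- ord_w a_w)`. -/
def idNorm (a : IK F) : ℝ :=
  ∏ᶠ w : Pl F, (qn F w : ℝ) ^ (WithZero.log (Valued.v ((a w : (Kc F w)ˣ) : Kc F w)))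

/-- Quasi-characters of `𝔸^× / K^×`. -/
def IsHecke (χ : IK F →* ℂˣ) : Prop :=
  (∀ x, χ (globI F x) = 1) ∧
    ∃ m : Pl F →₀ ℕ, ∀ u : IK F,
      (∀ w, Valued.v ((u w : (Kc F w)ˣ) : Kc F w) = 1 ∧
        Valued.v (((u w : (Kc F w)ˣ) : Kc F w) - 1) ≤ exp (-(m w : ℤ))) → χ u = 1

/-- The space of the normalised induced representation `Ind (χ₁ ⊗ χ₂)` of `GL_2(𝔸)`: the
functions invariant under an open subgroup with
`f ((a b; 0 d) g) = χ₁(a) χ₂(d) |a/d|^{1/2} f(g)`. -/
def IsInd (χ₁ χ₂ : IK F →* ℂˣ) (f : GA F → ℂ) : Prop :=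
  (∃ m, ∀ u ∈ U F m, ∀ g, f (g * u) = f g) ∧
    ∀ (a : IK F) (b : AK F) (d : IK F) (g : GA F), f (tri F a b d * g)
      = (χ₁ a : ℂ) * (χ₂ d : ℂ) * (((idNorm F (a / d)) ^ (1 / 2 : ℝ) : ℝ) : ℂ) * f g

/-- **The isobaric sum `χ₁ ⊞ χ₂`** of two quasi-characters, ordered such that
`|χ₁ / χ₂| = ‖·‖ ^ s` with `s ≥ 0`: the Langlands quotient of `Ind (χ₁ ⊗ χ₂)`, i.e. the
irreducible subrepresentation of `Ind (χ₂ ⊗ χ₁)`. -/
def IsIsobaricSum {V : Type} [AddCommGroup V] [Module ℂ V] (χ₁ χ₂ : IK F →* ℂˣ)
    (ρ : Representation ℂ (GA F) V) : Prop :=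
  (∃ s : ℝ, 0 ≤ s ∧ ∀ a, ‖((χ₁ a : ℂ) / (χ₂ a : ℂ))‖ = idNorm F a ^ s) ∧
    ∃ T : V →ₗ[ℂ] (GA F → ℂ), T ≠ 0 ∧ (∀ g x, T (ρ g x) = rt F g (T x)) ∧
      ∀ x, IsInd F χ₂ χ₁ (T x)

/-- **Isobaric automorphic representations of `GL_2(𝔸)`**: the cuspidal ones, and the isobaric
sums of two quasi-characters of `𝔸^× / K^×`. -/
def IsIsobaric {V : Type} [AddCommGroup V] [Module ℂ V]
    (ρ : Representation ℂ (GA F) V) : Prop :=
  IsAutomorphic F ρ ∧ (IsCuspidal F ρ ∨
    ∃ χ₁ χ₂ : IK F →* ℂˣ, IsHecke F χ₁ ∧ IsHecke F χ₂ ∧ IsIsobaricSum F χ₁ χ₂ ρ)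

/-- **Global liftings** for `G = GL_2` and `ρ = id : GL_2(ℂ) → GL_2(ℂ)` (so that the unramified
lifting is the identity map): `σ` is an isobaric automorphic representation, and its component
at every place where the component of `π` is unramified is this component. -/
def IsLift {V V' : Type} [AddCommGroup V] [Module ℂ V] [AddCommGroup V'] [Module ℂ V']
    (π : Representation ℂ (GA F) V) (σ : Representation ℂ (GA F) V') : Prop :=
  IsIsobaric F σ ∧ ∀ (w : Pl F) (A : IrrRep (Kc F w)), A.Unram → HasComp F π w A →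
    HasComp F σ w A

/-- **The question for `G = GL_2`, `ρ = id`, the local field `K_w` and the global field
`K = F(t)`:** a map on the irreducible representations of `GL_2(K_w)` which gives the component
at `w` of all global liftings of all automorphic representations. -/
def IsLocalLifting (w : Pl F) (l : IrrRep (Kc F w) → IrrRep (Kc F w)) : Prop :=
  (∀ A B, A.Iso B → (l A).Iso (l B)) ∧
    ∀ (V V' : Type) [AddCommGroup V] [Module ℂ V] [AddCommGroup V'] [Module ℂ V']
      (π : Representation ℂ (GA F) V) (σ : Representation ℂ (GA F) V'),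
      IsAutomorphic F π → IsLift F π σ →
        ∀ A : IrrRep (Kc F w), HasComp F π w A → HasComp F σ w (l A)

end Run7.h866.AF
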