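import Mathlib
import Pool.Agent.Run7.h866.AF.Defs

/-!
# Local notions: uniformisers, the Iwahori subgroup, Steinberg vectors
-/

set_option autoImplicit false
noncomputable section
open IsDedekindDomain Polynomial WithZero RestrictedProduct Matrix

namespace Run7.h866.AF

section Local

variable {L : Type} [Field L] [Valued L ℤᵐ⁰]

/-- A uniformiser and representatives of the residue field. -/
structure Res (L : Type) [Field L] [Valued L ℤᵐ⁰] where
  /-- a uniformiser -/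
  ϖ : L
  hϖ : Valued.v ϖ = exp (-1 : ℤ)
  /-- the residue field -/
  k : Type
  [fin : Fintype k]
  /-- representatives -/
  r : k → L
  r_int : ∀ y, Valued.v (r y) ≤ 1
  r_ex : ∀ x : L, Valued.v x ≤ 1 → ∃ y, Valued.v (x - r y) < 1
  r_inj : ∀ y z, Valued.v (r y - r z) < 1 → y = z

attribute [instance] Res.fin

/-- `(1 x; 0 1)` -/
def nU (x : L) : GL (Fin 2) L := triL 1 x 1

/-- `(1 0; x 1)` -/
def nL (x : L) : GL (Fin 2) L where
  val := !![1, 0; x, 1]
  inv := !![1, 0; -x, 1]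
  val_inv := by
    ext i j
    fin_cases i <;> fin_cases j <;> simp [Matrix.mul_apply, Fin.sum_univ_two]
  inv_val := by
    ext i j
    fin_cases i <;> fin_cases j <;> simp [Matrix.mul_apply, Fin.sum_univ_two]

/-- `(a 0; 0 d)` -/
def dg (a d : Lˣ) : GL (Fin 2) L := triL a 0 d

/-- `(0 1; 1 0)` -/
def w0 : GL (Fin 2) L where
  val := !![0, 1; 1, 0]
  inv := !![0, 1; 1, 0]
  val_inv := by
    ext i j
    fin_cases i <;> fin_cases j <;> simp [Matrix.mul_apply, Fin.sum_univ_two]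
  inv_val := by
    ext i j
    fin_cases i <;> fin_cases j <;> simp [Matrix.mul_apply, Fin.sum_univ_two]

/-- The uniformiser as a unit. -/
def Res.pi (R : Res L) : Lˣ := Units.mk0 R.ϖ (by
  intro h
  have h1 := R.hϖ
  rw [h, map_zero] at h1
  exact WithZero.exp_ne_zero h1.symm)

/-- `η = (0 1; ϖ 0)` -/
def et (R : Res L) : GL (Fin 2) L := dg 1 R.pi * w0

theorem gl_det_eq (g : GL (Fin 2) L) : ((g : Matrix (Fin 2) (Fin 2) L)).det
    = (g : Matrix (Fin 2) (Fin 2) L) 0 0 * (g : Matrix (Fin 2) (Fin 2) L) 1 1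
      - (g : Matrix (Fin 2) (Fin 2) L) 0 1 * (g : Matrix (Fin 2) (Fin 2) L) 1 0 :=
  Matrix.det_fin_two _

theorem gl_det_ne (g : GL (Fin 2) L) : ((g : Matrix (Fin 2) (Fin 2) L)).det ≠ 0 := by
  have h := (Matrix.isUnit_iff_isUnit_det _).1 g.isUnit
  exact h.ne_zero

theorem gl_inv_eq (g : GL (Fin 2) L) : ((g⁻¹ : GL (Fin 2) L) : Matrix (Fin 2) (Fin 2) L)
    = ((g : Matrix (Fin 2) (Fin 2) L)).det⁻¹ •
      !![(g : Matrix (Fin 2) (Fin 2) L) 1 1, -(g : Matrix (Fin 2) (Fin 2) L) 0 1;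
        -(g : Matrix (Fin 2) (Fin 2) L) 1 0, (g : Matrix (Fin 2) (Fin 2) L) 0 0] := by
  rw [Matrix.coe_units_inv, Matrix.inv_def, Ring.inverse_eq_inv', Matrix.adjugate_fin_two]

theorem Integral2.det_le {g : Matrix (Fin 2) (Fin 2) L} (hg : Integral2 g) :
    Valued.v g.det ≤ 1 := by
  rw [Matrix.det_fin_two]
  refine (Valuation.map_sub _ _ _).trans (max_le ?_ ?_)
  · rw [map_mul]; exact mul_le_one' (hg 0 0) (hg 1 1)
  · rw [map_mul]; exact mul_le_one' (hg 0 1) (hg 1 0)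

theorem cong_zero_det {g : GL (Fin 2) L} (hg : g ∈ Cong L 0) :
    Valued.v ((g : Matrix (Fin 2) (Fin 2) L)).det = 1 := by
  have h1 := hg.1.det_le
  have h2 := hg.2.1.det_le
  have h3 : ((g : Matrix (Fin 2) (Fin 2) L)).det *
      (((g⁻¹ : GL (Fin 2) L) : Matrix (Fin 2) (Fin 2) L)).det = 1 := by
    rw [← Matrix.det_mul, ← Units.val_mul, mul_inv_cancel, Units.val_one, Matrix.det_one]
  have h4 := congrArg Valued.v h3
  rw [map_mul, map_one] at h4
  refine le_antisymm h1 ?_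
  by_contra h5
  rw [not_le] at h5
  have : Valued.v ((g : Matrix (Fin 2) (Fin 2) L)).det *
      Valued.v (((g⁻¹ : GL (Fin 2) L) : Matrix (Fin 2) (Fin 2) L)).det < 1 :=
    (mul_le_mul' le_rfl h2).trans_lt (by simpa using h5)
  rw [h4] at this
  exact lt_irrefl _ this

theorem mem_cong_zero_of_det {g : GL (Fin 2) L} (hg : Integral2 (g : Matrix (Fin 2) (Fin 2) L))
    (hd : Valued.v ((g : Matrix (Fin 2) (Fin 2) L)).det = 1) : g ∈ Cong L 0 := by
  refine mem_cong_zero_iff.2 ⟨hg, ?_⟩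
  rw [gl_inv_eq]
  intro i j
  have h1 : Valued.v (((g : Matrix (Fin 2) (Fin 2) L)).det⁻¹) = 1 := by
    rw [map_inv₀, hd, inv_one]
  rw [Matrix.smul_apply, smul_eq_mul, map_mul, h1, one_mul]
  fin_cases i <;> fin_cases j <;> simp [hg 0 0, hg 0 1, hg 1 0, hg 1 1]

theorem mem_cong_zero_iff_det {g : GL (Fin 2) L} : g ∈ Cong L 0 ↔
    Integral2 (g : Matrix (Fin 2) (Fin 2) L) ∧
      Valued.v ((g : Matrix (Fin 2) (Fin 2) L)).det = 1 :=
  ⟨fun h => ⟨h.1, cong_zero_det h⟩, fun h => mem_cong_zero_of_det h.1 h.2⟩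

variable (L) in
/-- The Iwahori subgroup. -/
def Iw : Subgroup (GL (Fin 2) L) where
  carrier := {g | g ∈ Cong L 0 ∧ Valued.v ((g : Matrix (Fin 2) (Fin 2) L) 1 0) < 1}
  one_mem' := by
    refine ⟨Subgroup.one_mem _, ?_⟩
    simp
  mul_mem' := by
    rintro a b ⟨ha, ha'⟩ ⟨hb, hb'⟩
    refine ⟨Subgroup.mul_mem _ ha hb, ?_⟩
    have h : ((a * b : GL (Fin 2) L) : Matrix (Fin 2) (Fin 2) L) 1 0
        = (a : Matrix (Fin 2) (Fin 2) L) 1 0 * (b : Matrix (Fin 2) (Fin 2) L) 0 0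
          + (a : Matrix (Fin 2) (Fin 2) L) 1 1 * (b : Matrix (Fin 2) (Fin 2) L) 1 0 := by
      rw [Units.val_mul, Matrix.mul_apply, Fin.sum_univ_two]
    rw [h]
    refine (Valuation.map_add _ _ _).trans_lt (max_lt ?_ ?_)
    · rw [map_mul]
      exact (mul_le_mul' le_rfl (hb.1 0 0)).trans_lt (by simpa using ha')
    · rw [map_mul]
      exact (mul_le_mul' (ha.1 1 1) le_rfl).trans_lt (by simpa using hb')
  inv_mem' := by
    rintro a ⟨ha, ha'⟩
    refine ⟨Subgroup.inv_mem _ ha, ?_⟩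
    have h : ((a⁻¹ : GL (Fin 2) L) : Matrix (Fin 2) (Fin 2) L) 1 0
        = -((((a : Matrix (Fin 2) (Fin 2) L)).det)⁻¹ * (a : Matrix (Fin 2) (Fin 2) L) 1 0) := by
      rw [gl_inv_eq]; simp
    rw [h, Valuation.map_neg, map_mul, map_inv₀, cong_zero_det ha, inv_one, one_mul]
    exact ha'

/-- **Steinberg vectors**: fixed by the Iwahori subgroup and the centre, `η` acts by `-1`, and
the sum over `GL_2(O) / Iw` vanishes. -/
structure IsSt {V : Type} [AddCommGroup V] [Module ℂ V] (R : Res L)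
    (ρ : Representation ℂ (GL (Fin 2) L) V) (h : V) : Prop where
  ne : h ≠ 0
  iw : ∀ k ∈ Iw L, ρ k h = h
  cen : ∀ z : Lˣ, ρ (dg z z) h = h
  eta : ρ (et R) h = -h
  sum : h + ∑ y : R.k, ρ (nU (R.r y) * w0) h = 0

/-- **Spherical vectors with the Hecke eigenvalue of the trivial representation.** -/
structure IsSph {V : Type} [AddCommGroup V] [Module ℂ V] (R : Res L)
    (ρ : Representation ℂ (GL (Fin 2) L) V) (u : V) : Prop where
  ne : u ≠ 0
  sph : ∀ k ∈ Cong L 0, ρ k u = u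
  cen : ∀ z : Lˣ, ρ (dg z z) u = u
  sum : ρ (et R) u + ∑ y : R.k, ρ (nU (R.r y) * w0 * et R) u
    = ((Fintype.card R.k : ℂ) + 1) • u

end Local

/-! ### global notions -/

variable (F : Type) [Field F]

/-- the restriction of a representation of `GL_2(𝔸)` to `GL_2(K_w)` -/
def resAt {V : Type} [AddCommGroup V] [Module ℂ V] (ρ : Representation ℂ (GA F) V)
    (w : Pl F) : Representation ℂ (GL (Fin 2) (Kc F w)) V := ρ.comp (loc F w)

/-- smooth at `w` -/
def SmoothAt {V : Type} [AddCommGroup V] [Module ℂ V] (ρ : Representation ℂ (GA F) V)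
    (w : Pl F) : Prop := ∀ x : V, ∃ n, ∀ k ∈ Cong (Kc F w) n, ρ (loc F w k) x = x

end Run7.h866.AF
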