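import Mathlib
import Pool.Agent.Run7.h866.AF.LocB

/-!
# Conjugates of congruence subgroups
-/

set_option autoImplicit false
noncomputable section
open IsDedekindDomain Polynomial WithZero RestrictedProduct Matrix

namespace Run7.h866.AF

section Local

variable {L : Type} [Field L] [Valued L ℤᵐ⁰]

theorem exists_exp_bound (x : ℤᵐ⁰) : ∃ N : ℕ, x ≤ exp (N : ℤ) := by
  by_cases hx : x = 0
  · exact ⟨0, by rw [hx]; exact zero_le⟩
  · refine ⟨(log x).toNat, ?_⟩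
    rw [← exp_log hx]
    rw [exp_le_exp]
    rw [exp_log hx]
    exact Int.self_le_toNat _

theorem exists_mat_bound (g : Matrix (Fin 2) (Fin 2) L) :
    ∃ N : ℕ, ∀ i j, Valued.v (g i j) ≤ exp (N : ℤ) := by
  choose N hN using fun i j => exists_exp_bound (Valued.v (g i j))
  refine ⟨N 0 0 + N 0 1 + N 1 0 + N 1 1, fun i j => (hN i j).trans ?_⟩
  rw [exp_le_exp]
  fin_cases i <;> fin_cases j <;> simp <;> omega

theorem v_mul_entry_le {a b : Matrix (Fin 2) (Fin 2) L} {x y : ℤᵐ⁰}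
    (ha : ∀ i j, Valued.v (a i j) ≤ x) (hb : ∀ i j, Valued.v (b i j) ≤ y) (i j : Fin 2) :
    Valued.v ((a * b) i j) ≤ x * y := by
  rw [Matrix.mul_apply, Fin.sum_univ_two]
  refine (Valuation.map_add _ _ _).trans (max_le ?_ ?_)
  · rw [map_mul]; exact mul_le_mul' (ha i 0) (hb 0 j)
  · rw [map_mul]; exact mul_le_mul' (ha i 1) (hb 1 j)

/-- conjugation with a fixed element -/
theorem cong_conj (g : GL (Fin 2) L) : ∃ N : ℕ, ∀ n : ℕ, ∀ u ∈ Cong L (N + n),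
    g⁻¹ * u * g ∈ Cong L n := by
  obtain ⟨N₁, hN₁⟩ := exists_mat_bound (g : Matrix (Fin 2) (Fin 2) L)
  obtain ⟨N₂, hN₂⟩ := exists_mat_bound ((g⁻¹ : GL (Fin 2) L) : Matrix (Fin 2) (Fin 2) L)
  refine ⟨N₁ + N₂, ?_⟩
  have key : ∀ n : ℕ, ∀ u ∈ Cong L (N₁ + N₂ + n), ∀ i j,
      Valued.v (((g⁻¹ * u * g : GL (Fin 2) L) : Matrix (Fin 2) (Fin 2) L) i j
        - (1 : Matrix (Fin 2) (Fin 2) L) i j) ≤ exp (-(n : ℤ)) := by
    intro n u hu i j
    have h1 : ((g⁻¹ * u * g : GL (Fin 2) L) : Matrix (Fin 2) (Fin 2) L) - 1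
        = ((g⁻¹ : GL (Fin 2) L) : Matrix (Fin 2) (Fin 2) L)
          * (((u : Matrix (Fin 2) (Fin 2) L) - 1) * (g : Matrix (Fin 2) (Fin 2) L)) := by
      have h2 : ((g⁻¹ : GL (Fin 2) L) : Matrix (Fin 2) (Fin 2) L)
          * (g : Matrix (Fin 2) (Fin 2) L) = 1 := by
        rw [← Units.val_mul, inv_mul_cancel, Units.val_one]
      rw [sub_mul, mul_sub, one_mul, h2, Units.val_mul, Units.val_mul, Matrix.mul_assoc]
    rw [← Matrix.sub_apply, h1]
    have h3 : ∀ i j, Valued.v ((((u : Matrix (Fin 2) (Fin 2) L) - 1)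
        * (g : Matrix (Fin 2) (Fin 2) L)) i j)
        ≤ exp (-((N₁ + N₂ + n : ℕ) : ℤ)) * exp (N₁ : ℤ) :=
      v_mul_entry_le (fun i j => by simpa using hu.2.2 i j) hN₁
    refine (v_mul_entry_le hN₂ h3 i j).trans ?_
    rw [← exp_add, ← exp_add, exp_le_exp]
    push_cast
    omega
  have hint : ∀ n : ℕ, ∀ u ∈ Cong L (N₁ + N₂ + n),
      Integral2 ((g⁻¹ * u * g : GL (Fin 2) L) : Matrix (Fin 2) (Fin 2) L) := by
    intro n u hu i j
    have h1 := key n u hu i j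
    have h2 : ((g⁻¹ * u * g : GL (Fin 2) L) : Matrix (Fin 2) (Fin 2) L) i j
        = (((g⁻¹ * u * g : GL (Fin 2) L) : Matrix (Fin 2) (Fin 2) L) i j
        - (1 : Matrix (Fin 2) (Fin 2) L) i j) + (1 : Matrix (Fin 2) (Fin 2) L) i j := by ring
    rw [h2]
    refine (Valuation.map_add _ _ _).trans (max_le (h1.trans ?_) (integral2_one i j))
    rw [← exp_zero, exp_le_exp]
    omega
  intro n u hu
  refine ⟨hint n u hu, ?_, key n u hu⟩
  have h1 := hint n u⁻¹ (Subgroup.inv_mem _ hu)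
  have h2 : (g⁻¹ * u * g)⁻¹ = g⁻¹ * u⁻¹ * g := by group
  rw [h2]
  exact h1

/-- conjugation with an element of `GL_2(O)` -/
theorem cong_conj_of_mem {g : GL (Fin 2) L} (hg : g ∈ Cong L 0) {n : ℕ} {u : GL (Fin 2) L}
    (hu : u ∈ Cong L n) : g⁻¹ * u * g ∈ Cong L n := by
  have h0 : g⁻¹ * u * g ∈ Cong L 0 := Subgroup.mul_mem _ (Subgroup.mul_mem _
    (Subgroup.inv_mem _ hg) (cong_anti (Nat.zero_le n) hu)) hg
  refine ⟨h0.1, h0.2.1, fun i j => ?_⟩
  have h1 : ((g⁻¹ * u * g : GL (Fin 2) L) : Matrix (Fin 2) (Fin 2) L) - 1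
      = ((g⁻¹ : GL (Fin 2) L) : Matrix (Fin 2) (Fin 2) L)
        * (((u : Matrix (Fin 2) (Fin 2) L) - 1) * (g : Matrix (Fin 2) (Fin 2) L)) := by
    have h2 : ((g⁻¹ : GL (Fin 2) L) : Matrix (Fin 2) (Fin 2) L)
        * (g : Matrix (Fin 2) (Fin 2) L) = 1 := by
      rw [← Units.val_mul, inv_mul_cancel, Units.val_one]
    rw [sub_mul, mul_sub, one_mul, h2, Units.val_mul, Units.val_mul, Matrix.mul_assoc]
  rw [← Matrix.sub_apply, h1]
  have h3 : ∀ i j, Valued.v ((((u : Matrix (Fin 2) (Fin 2) L) - 1)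
      * (g : Matrix (Fin 2) (Fin 2) L)) i j) ≤ exp (-(n : ℤ)) * 1 :=
    v_mul_entry_le (fun i j => by simpa using hu.2.2 i j) hg.1
  refine (v_mul_entry_le hg.2.1 h3 i j).trans ?_
  rw [one_mul, mul_one]

end Local

variable (F : Type) [Field F]

/-- **Conjugates of congruence subgroups of `GL_2(𝔸)`.** -/
theorem exists_conj (g : GA F) (m₁ : Pl F →₀ ℕ) :
    ∃ m₀ : Pl F →₀ ℕ, ∀ u ∈ U F m₀, g⁻¹ * u * g ∈ U F m₁ := by
  classical
  have hg : {w | ¬ g w ∈ Cong (Kc F w) 0}.Finite := Filter.eventually_cofinite.1 g.2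
  choose N hN using fun w => cong_conj (g w)
  refine ⟨Finsupp.onFinset (hg.toFinset ∪ m₁.support)
    (fun w => if g w ∈ Cong (Kc F w) 0 then m₁ w else N w + m₁ w) ?_, ?_⟩
  · intro w hw
    by_cases h : g w ∈ Cong (Kc F w) 0
    · rw [if_pos h] at hw
      exact Finset.mem_union_right _ (Finsupp.mem_support_iff.2 hw)
    · exact Finset.mem_union_left _ (hg.mem_toFinset.2 h)
  · intro u hu w
    have h1 := hu w
    rw [Finsupp.onFinset_apply] at h1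
    change (g w)⁻¹ * u w * g w ∈ _
    by_cases h : g w ∈ Cong (Kc F w) 0
    · rw [if_pos h] at h1
      exact cong_conj_of_mem h h1
    · rw [if_neg h] at h1
      exact hN w _ _ h1

theorem U_anti {m₁ m₂ : Pl F →₀ ℕ} (h : m₁ ≤ m₂) : U F m₂ ≤ U F m₁ :=
  fun _ hu w => cong_anti (h w) (hu w)

end Run7.h866.AF
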