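import Mathlib
import Pool.Agent.Run7.h866.AF.LocB

/-!
# `GL_2` of a discretely valued field: sums over `GL_2(O) / Iw`, the element `η`, the pro-`p`
Iwahori subgroup
-/

set_option autoImplicit false
set_option linter.unusedSectionVars false
noncomputable section
open IsDedekindDomain Polynomial WithZero RestrictedProduct Matrix

namespace Run7.h866.AF

section Local

variable {L : Type} [Field L] [Valued L ℤᵐ⁰]

theorem lt_one_iff_le {x : ℤᵐ⁰} : x < 1 ↔ x ≤ exp (-1 : ℤ) := by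
  by_cases hx : x = 0
  · subst hx
    simp
  · rw [← exp_log hx, ← exp_zero, exp_lt_exp, exp_le_exp]
    omega

@[simp] theorem nU_val (x : L) : ((nU x : GL (Fin 2) L) : Matrix (Fin 2) (Fin 2) L)
    = !![1, x; 0, 1] := rfl
@[simp] theorem nL_val (x : L) : ((nL x : GL (Fin 2) L) : Matrix (Fin 2) (Fin 2) L)
    = !![1, 0; x, 1] := rfl
@[simp] theorem dg_val (a d : Lˣ) : ((dg a d : GL (Fin 2) L) : Matrix (Fin 2) (Fin 2) L)
    = !![(a : L), 0; 0, (d : L)] := rfl
@[simp] theorem w0_val : ((w0 : GL (Fin 2) L) : Matrix (Fin 2) (Fin 2) L)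
    = !![0, 1; 1, 0] := rfl
theorem triL_val (a : Lˣ) (b : L) (d : Lˣ) : ((triL a b d : GL (Fin 2) L) :
    Matrix (Fin 2) (Fin 2) L) = !![(a : L), b; 0, (d : L)] := rfl

theorem gl_ext {g h : GL (Fin 2) L}
    (h00 : (g : Matrix (Fin 2) (Fin 2) L) 0 0 = (h : Matrix (Fin 2) (Fin 2) L) 0 0)
    (h01 : (g : Matrix (Fin 2) (Fin 2) L) 0 1 = (h : Matrix (Fin 2) (Fin 2) L) 0 1)
    (h10 : (g : Matrix (Fin 2) (Fin 2) L) 1 0 = (h : Matrix (Fin 2) (Fin 2) L) 1 0)
    (h11 : (g : Matrix (Fin 2) (Fin 2) L) 1 1 = (h : Matrix (Fin 2) (Fin 2) L) 1 1) : g = h := by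
  apply Units.ext
  ext i j
  fin_cases i <;> fin_cases j <;> assumption

theorem gl_mul_apply (g h : GL (Fin 2) L) (i j : Fin 2) :
    ((g * h : GL (Fin 2) L) : Matrix (Fin 2) (Fin 2) L) i j
      = (g : Matrix (Fin 2) (Fin 2) L) i 0 * (h : Matrix (Fin 2) (Fin 2) L) 0 j
        + (g : Matrix (Fin 2) (Fin 2) L) i 1 * (h : Matrix (Fin 2) (Fin 2) L) 1 j := by
  rw [Units.val_mul, Matrix.mul_apply, Fin.sum_univ_two]

theorem w0_inv : (w0 : GL (Fin 2) L)⁻¹ = w0 := rfl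

theorem w0_mul_w0 : (w0 : GL (Fin 2) L) * w0 = 1 := by
  rw [← w0_inv]
  exact inv_mul_cancel _

theorem nU_inv (x : L) : (nU x)⁻¹ = nU (-x) := by
  apply Units.ext
  rw [gl_inv_eq]
  ext i j
  fin_cases i <;> fin_cases j <;> simp [Matrix.det_fin_two]

theorem nL_inv (x : L) : (nL x)⁻¹ = nL (-x) := by
  apply Units.ext
  rw [gl_inv_eq]
  ext i j
  fin_cases i <;> fin_cases j <;> simp [Matrix.det_fin_two]

theorem nU_mul (x y : L) : nU x * nU y = nU (x + y) := by
  apply gl_ext <;> simp [gl_mul_apply, -Units.val_mul, add_comm]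

theorem nL_mul (x y : L) : nL x * nL y = nL (x + y) := by
  apply gl_ext <;> simp [gl_mul_apply, -Units.val_mul]

theorem dg_mul (a d a' d' : Lˣ) : dg a d * dg a' d' = dg (a * a') (d * d') := by
  apply gl_ext <;> rw [gl_mul_apply] <;> simp

theorem dg_one : (dg 1 1 : GL (Fin 2) L) = 1 := by
  apply gl_ext <;> simp

theorem dg_inv (a d : Lˣ) : (dg a d)⁻¹ = dg a⁻¹ d⁻¹ := by
  rw [inv_eq_iff_mul_eq_one, dg_mul, mul_inv_cancel, mul_inv_cancel, dg_one]

theorem dg_comm (z : Lˣ) (g : GL (Fin 2) L) : dg z z * g = g * dg z z := by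
  apply gl_ext <;> simp [gl_mul_apply, -Units.val_mul, mul_comm]

theorem w0_dg (a d : Lˣ) : w0 * dg a d = dg d a * w0 := by
  apply gl_ext <;> simp [gl_mul_apply, -Units.val_mul]

theorem w0_nU (x : L) : w0 * nU x = nL x * w0 := by
  apply gl_ext <;> simp [gl_mul_apply, -Units.val_mul]

theorem w0_nL (x : L) : w0 * nL x = nU x * w0 := by
  apply gl_ext <;> simp [gl_mul_apply, -Units.val_mul]

theorem dg_nU (a d : Lˣ) (x : L) :
    dg a d * nU x = nU ((a : L) * x * ((d⁻¹ : Lˣ) : L)) * dg a d := by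
  apply gl_ext <;> simp [gl_mul_apply, -Units.val_mul]

theorem dg_nL (a d : Lˣ) (x : L) :
    dg a d * nL x = nL ((d : L) * x * ((a⁻¹ : Lˣ) : L)) * dg a d := by
  apply gl_ext <;> simp [gl_mul_apply, -Units.val_mul]

theorem et_sq (R : Res L) : et R * et R = dg R.pi R.pi := by
  unfold et
  rw [mul_assoc, ← mul_assoc w0, w0_dg, mul_assoc, w0_mul_w0, mul_one, dg_mul, one_mul, mul_one]

@[simp] theorem pi_val (R : Res L) : (R.pi : L) = R.ϖ := rfl

theorem v_pi (R : Res L) : Valued.v ((R.pi : Lˣ) : L) = exp (-1 : ℤ) := R.hϖ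

theorem pi_ne (R : Res L) : R.ϖ ≠ 0 := R.pi.ne_zero

theorem det_w0 : ((w0 : GL (Fin 2) L) : Matrix (Fin 2) (Fin 2) L).det = -1 := by
  rw [gl_det_eq]; simp

theorem det_dg (a d : Lˣ) : ((dg a d : GL (Fin 2) L) : Matrix (Fin 2) (Fin 2) L).det
    = (a : L) * (d : L) := by
  rw [gl_det_eq]; simp

theorem det_mul' (g h : GL (Fin 2) L) : ((g * h : GL (Fin 2) L) : Matrix (Fin 2) (Fin 2) L).det
    = ((g : Matrix (Fin 2) (Fin 2) L)).det * ((h : Matrix (Fin 2) (Fin 2) L)).det := by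
  rw [Units.val_mul, Matrix.det_mul]

theorem nU_mem {x : L} (hx : Valued.v x ≤ 1) : nU x ∈ Cong L 0 := by
  refine mem_cong_zero_of_det ?_ ?_
  · intro i j
    fin_cases i <;> fin_cases j <;> simp [hx]
  · rw [gl_det_eq]; simp

theorem nL_mem {x : L} (hx : Valued.v x ≤ 1) : nL x ∈ Cong L 0 := by
  refine mem_cong_zero_of_det ?_ ?_
  · intro i j
    fin_cases i <;> fin_cases j <;> simp [hx]
  · rw [gl_det_eq]; simp

theorem w0_mem : w0 ∈ Cong L 0 := by
  refine mem_cong_zero_of_det ?_ ?_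
  · intro i j
    fin_cases i <;> fin_cases j <;> simp
  · rw [det_w0, Valuation.map_neg, map_one]

theorem dg_mem {a d : Lˣ} (ha : Valued.v (a : L) = 1) (hd : Valued.v (d : L) = 1) :
    dg a d ∈ Cong L 0 := by
  refine mem_cong_zero_of_det ?_ ?_
  · intro i j
    fin_cases i <;> fin_cases j <;> simp [ha, hd]
  · rw [det_dg, map_mul, ha, hd, mul_one]

theorem dg_mem_iw {a d : Lˣ} (ha : Valued.v (a : L) = 1) (hd : Valued.v (d : L) = 1) :
    dg a d ∈ Iw L := ⟨dg_mem ha hd, by simp⟩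

theorem iw_le : Iw L ≤ Cong L 0 := fun _ h => h.1

theorem cong_one_le_iw {n : ℕ} (hn : 1 ≤ n) : Cong L n ≤ Iw L := by
  intro g hg
  refine ⟨cong_anti (Nat.zero_le n) hg, ?_⟩
  have h := hg.2.2 1 0
  rw [Matrix.one_apply_ne (by decide), sub_zero] at h
  refine h.trans_lt ?_
  rw [← exp_zero, exp_lt_exp]
  omega

/-- `η` normalises the Iwahori subgroup -/
theorem et_conj_iw (R : Res L) {g : GL (Fin 2) L} (hg : g ∈ Iw L) :
    (et R)⁻¹ * g * et R ∈ Iw L := by
  obtain ⟨h0, h10⟩ := hg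
  have hd := cong_zero_det h0
  -- `et⁻¹ g et = (d, c/ϖ; ϖ b, a)`
  have hne := pi_ne R
  have key : (et R)⁻¹ * g * et R = et R * g * (et R)⁻¹ := by
    have h1 : et R * et R * g = g * (et R * et R) := by rw [et_sq, dg_comm]
    have h2 : g * et R * et R = et R * (et R * g) := by
      rw [mul_assoc, ← h1, mul_assoc]
    rw [mul_assoc, inv_mul_eq_iff_eq_mul, ← mul_assoc, eq_mul_inv_iff_mul_eq]
    exact h2
  have hmat : (((et R)⁻¹ * g * et R : GL (Fin 2) L) : Matrix (Fin 2) (Fin 2) L)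
      = !![(g : Matrix (Fin 2) (Fin 2) L) 1 1, (g : Matrix (Fin 2) (Fin 2) L) 1 0 * R.ϖ⁻¹;
        R.ϖ * (g : Matrix (Fin 2) (Fin 2) L) 0 1, (g : Matrix (Fin 2) (Fin 2) L) 0 0] := by
    have h1 : (et R)⁻¹ = w0 * dg 1 R.pi⁻¹ := by
      unfold et
      rw [_root_.mul_inv_rev, w0_inv, dg_inv, inv_one]
    rw [key, h1]
    unfold et
    ext i j
    fin_cases i <;> fin_cases j <;>
      simp [gl_mul_apply, -Units.val_mul]
    · field_simp
  refine ⟨mem_cong_zero_of_det ?_ ?_, ?_⟩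
  · rw [hmat]
    intro i j
    fin_cases i <;> fin_cases j
    · simpa using h0.1 1 1
    · simp only [Fin.zero_eta, Fin.mk_one, of_apply, cons_val', cons_val_one, cons_val_fin_one,
        cons_val_zero]
      rw [map_mul, map_inv₀, R.hϖ]
      rw [lt_one_iff_le] at h10
      calc _ ≤ exp (-1 : ℤ) * (exp (-1 : ℤ))⁻¹ := mul_le_mul' h10 le_rfl
        _ = 1 := mul_inv_cancel₀ exp_ne_zero
    · simp only [Fin.zero_eta, Fin.mk_one, of_apply, cons_val', cons_val_one, cons_val_fin_one,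
        cons_val_zero]
      rw [map_mul, R.hϖ]
      refine mul_le_one' ?_ (h0.1 0 1)
      rw [← exp_zero, exp_le_exp]
      omega
    · simpa using h0.1 0 0
  · rw [det_mul', det_mul', mul_comm (Matrix.det _) (Matrix.det _), mul_assoc, ← det_mul',
      inv_mul_cancel, Units.val_one, Matrix.det_one, mul_one]
    exact hd
  · rw [hmat]
    simp only [of_apply, cons_val', cons_val_zero, cons_val_fin_one, cons_val_one]
    rw [map_mul, R.hϖ]
    refine (mul_le_mul' le_rfl (h0.1 0 1)).trans_lt ?_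
    rw [mul_one, ← exp_zero, exp_lt_exp]
    omega

theorem et_conj_iw' (R : Res L) {g : GL (Fin 2) L} (hg : g ∈ Iw L) :
    et R * g * (et R)⁻¹ ∈ Iw L := by
  have h1 : et R * g * (et R)⁻¹ = (et R)⁻¹ * g * et R := by
    have h1 : et R * et R * g = g * (et R * et R) := by rw [et_sq, dg_comm]
    have h2 : g * et R * et R = et R * (et R * g) := by
      rw [mul_assoc, ← h1, mul_assoc]
    symm
    rw [mul_assoc, inv_mul_eq_iff_eq_mul, ← mul_assoc, eq_mul_inv_iff_mul_eq]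
    exact h2
  rw [h1]
  exact et_conj_iw R hg

/-! ### sums over `GL_2(O) / Iw` -/

/-- representatives of `GL_2(O) / Iw` -/
def rep (R : Res L) : Option R.k → GL (Fin 2) L
  | none => 1
  | some y => nU (R.r y) * w0

theorem rep_mem (R : Res L) (p : Option R.k) : rep R p ∈ Cong L 0 := by
  rcases p with _ | y
  · exact Subgroup.one_mem _
  · exact Subgroup.mul_mem _ (nU_mem (R.r_int y)) w0_mem

theorem rep_exists (R : Res L) {g : GL (Fin 2) L} (hg : g ∈ Cong L 0) :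
    ∃ p, (rep R p)⁻¹ * g ∈ Iw L := by
  by_cases h : Valued.v ((g : Matrix (Fin 2) (Fin 2) L) 1 0) < 1
  · refine ⟨none, ?_⟩
    have : (rep R none)⁻¹ * g = g := by
      change (1 : GL (Fin 2) L)⁻¹ * g = g
      rw [inv_one, one_mul]
    rw [this]
    exact ⟨hg, h⟩
  · have h1 : Valued.v ((g : Matrix (Fin 2) (Fin 2) L) 1 0) = 1 :=
      le_antisymm (hg.1 1 0) (not_lt.1 h)
    have hne : (g : Matrix (Fin 2) (Fin 2) L) 1 0 ≠ 0 := by
      intro h0
      rw [h0, map_zero] at h1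
      exact zero_ne_one h1
    obtain ⟨y, hy⟩ := R.r_ex ((g : Matrix (Fin 2) (Fin 2) L) 0 0
      / (g : Matrix (Fin 2) (Fin 2) L) 1 0) (by rw [map_div₀, h1, div_one]; exact hg.1 0 0)
    refine ⟨some y, ?_⟩
    refine ⟨Subgroup.mul_mem _ (Subgroup.inv_mem _ (rep_mem R _)) hg, ?_⟩
    have h2 : (((rep R (some y))⁻¹ * g : GL (Fin 2) L) : Matrix (Fin 2) (Fin 2) L) 1 0
        = (g : Matrix (Fin 2) (Fin 2) L) 1 0 * ((g : Matrix (Fin 2) (Fin 2) L) 0 0
      / (g : Matrix (Fin 2) (Fin 2) L) 1 0 - R.r y) := by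
      change (((nU (R.r y) * w0)⁻¹ * g : GL (Fin 2) L) : Matrix (Fin 2) (Fin 2) L) 1 0 = _
      rw [_root_.mul_inv_rev, w0_inv, nU_inv, mul_sub, mul_div_cancel₀ _ hne]
      simp [gl_mul_apply, -Units.val_mul]
      ring
    rw [h2, map_mul, h1, one_mul]
    exact hy

theorem rep_inj (R : Res L) {p q : Option R.k} (h : (rep R p)⁻¹ * rep R q ∈ Iw L) : p = q := by
  have key : ∀ y, ¬ nU (R.r y) * w0 ∈ Iw L := by
    intro y hy
    have h1 := hy.2
    simp [gl_mul_apply, -Units.val_mul] at h1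
  rcases p with _ | y <;> rcases q with _ | z
  · rfl
  · exfalso
    apply key z
    have : (rep R none)⁻¹ * rep R (some z) = nU (R.r z) * w0 := by
      change (1 : GL (Fin 2) L)⁻¹ * (nU (R.r z) * w0) = _
      rw [inv_one, one_mul]
    rwa [this] at h
  · exfalso
    apply key y
    have h' := Subgroup.inv_mem _ h
    rw [_root_.mul_inv_rev, inv_inv] at h'
    have : (rep R none)⁻¹ * rep R (some y) = nU (R.r y) * w0 := by
      change (1 : GL (Fin 2) L)⁻¹ * (nU (R.r y) * w0) = _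
      rw [inv_one, one_mul]
    rwa [this] at h'
  · congr 1
    apply R.r_inj
    have h1 := h.2
    change Valued.v ((((nU (R.r y) * w0)⁻¹ * (nU (R.r z) * w0) : GL (Fin 2) L) :
      Matrix (Fin 2) (Fin 2) L) 1 0) < 1 at h1
    have h2 : (((nU (R.r y) * w0)⁻¹ * (nU (R.r z) * w0) : GL (Fin 2) L) :
      Matrix (Fin 2) (Fin 2) L) 1 0 = -(R.r y - R.r z) := by
      rw [_root_.mul_inv_rev, w0_inv, nU_inv]
      simp [gl_mul_apply, -Units.val_mul]
      ring
    rwa [h2, Valuation.map_neg] at h1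

/-- sum over the cosets of `Iw` in `GL_2(O)` -/
theorem sum_rep_mul {A : Type} [AddCommMonoid A] (R : Res L) (φ : GL (Fin 2) L → A)
    (hφ : ∀ g, ∀ i ∈ Iw L, φ (g * i) = φ g) {k : GL (Fin 2) L} (hk : k ∈ Cong L 0) :
    ∑ p, φ (k * rep R p) = ∑ p, φ (rep R p) := by
  choose! σ hσ using fun p => rep_exists R (Subgroup.mul_mem _ hk (rep_mem R p))
  have hinj : Function.Injective σ := by
    intro p q hpq
    apply rep_inj R
    have h1 := hσ p
    have h2 := hσ q
    rw [hpq] at h1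
    have h3 := Subgroup.mul_mem _ (Subgroup.inv_mem _ h1) h2
    have h4 : ((rep R (σ q))⁻¹ * (k * rep R p))⁻¹ * ((rep R (σ q))⁻¹ * (k * rep R q))
        = (rep R p)⁻¹ * rep R q := by group
    rwa [h4] at h3
  have hbij : Function.Bijective σ := Finite.injective_iff_bijective.1 hinj
  rw [← (Equiv.ofBijective σ hbij).sum_comp (fun p => φ (rep R p))]
  refine Finset.sum_congr rfl fun p _ => ?_
  change _ = φ (rep R (σ p))
  rw [← hφ (rep R (σ p)) _ (hσ p), mul_inv_cancel_left]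

theorem sum_option (R : Res L) {A : Type} [AddCommMonoid A] (φ : GL (Fin 2) L → A) :
    ∑ p, φ (rep R p) = φ 1 + ∑ y, φ (nU (R.r y) * w0) := by
  rw [Fintype.sum_option]
  rfl

/-! ### the pro-`p` Iwahori subgroup -/

variable (L) in
/-- The pro-`p` Iwahori subgroup. -/
def Ip : Subgroup (GL (Fin 2) L) where
  carrier := {g | g ∈ Iw L ∧ Valued.v ((g : Matrix (Fin 2) (Fin 2) L) 0 0 - 1) < 1 ∧
    Valued.v ((g : Matrix (Fin 2) (Fin 2) L) 1 1 - 1) < 1}
  one_mem' := by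
    refine ⟨Subgroup.one_mem _, ?_, ?_⟩ <;> simp
  mul_mem' := by
    rintro a b ⟨ha, ha0, ha1⟩ ⟨hb, hb0, hb1⟩
    refine ⟨Subgroup.mul_mem _ ha hb, ?_, ?_⟩
    · have h : ((a * b : GL (Fin 2) L) : Matrix (Fin 2) (Fin 2) L) 0 0 - 1
          = ((a : Matrix (Fin 2) (Fin 2) L) 0 0 - 1) * (b : Matrix (Fin 2) (Fin 2) L) 0 0
            + (((b : Matrix (Fin 2) (Fin 2) L) 0 0 - 1)
              + (a : Matrix (Fin 2) (Fin 2) L) 0 1 * (b : Matrix (Fin 2) (Fin 2) L) 1 0) := by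
        rw [gl_mul_apply]; ring
      rw [h]
      refine (Valuation.map_add _ _ _).trans_lt (max_lt ?_
        ((Valuation.map_add _ _ _).trans_lt (max_lt hb0 ?_)))
      · rw [map_mul]
        exact (mul_le_mul' le_rfl (hb.1.1 0 0)).trans_lt (by simpa using ha0)
      · rw [map_mul]
        exact (mul_le_mul' (ha.1.1 0 1) le_rfl).trans_lt (by simpa using hb.2)
    · have h : ((a * b : GL (Fin 2) L) : Matrix (Fin 2) (Fin 2) L) 1 1 - 1
          = ((a : Matrix (Fin 2) (Fin 2) L) 1 1 - 1) * (b : Matrix (Fin 2) (Fin 2) L) 1 1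
            + (((b : Matrix (Fin 2) (Fin 2) L) 1 1 - 1)
              + (a : Matrix (Fin 2) (Fin 2) L) 1 0 * (b : Matrix (Fin 2) (Fin 2) L) 0 1) := by
        rw [gl_mul_apply]; ring
      rw [h]
      refine (Valuation.map_add _ _ _).trans_lt (max_lt ?_
        ((Valuation.map_add _ _ _).trans_lt (max_lt hb1 ?_)))
      · rw [map_mul]
        exact (mul_le_mul' le_rfl (hb.1.1 1 1)).trans_lt (by simpa using ha1)
      · rw [map_mul]
        exact (mul_le_mul' le_rfl (hb.1.1 0 1)).trans_lt (by simpa using ha.2)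
  inv_mem' := by
    rintro a ⟨ha, ha0, ha1⟩
    have hinv := Subgroup.inv_mem _ ha
    have hmul : a⁻¹ * a = 1 := inv_mul_cancel a
    have e00 : ((a⁻¹ * a : GL (Fin 2) L) : Matrix (Fin 2) (Fin 2) L) 0 0 = 1 := by
      rw [hmul]; simp
    have e11 : ((a⁻¹ * a : GL (Fin 2) L) : Matrix (Fin 2) (Fin 2) L) 1 1 = 1 := by
      rw [hmul]; simp
    rw [gl_mul_apply] at e00 e11
    refine ⟨hinv, ?_, ?_⟩
    · have h : ((a⁻¹ : GL (Fin 2) L) : Matrix (Fin 2) (Fin 2) L) 0 0 - 1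
          = -(((a⁻¹ : GL (Fin 2) L) : Matrix (Fin 2) (Fin 2) L) 0 0
              * ((a : Matrix (Fin 2) (Fin 2) L) 0 0 - 1)
            + ((a⁻¹ : GL (Fin 2) L) : Matrix (Fin 2) (Fin 2) L) 0 1
              * (a : Matrix (Fin 2) (Fin 2) L) 1 0) := by
        linear_combination e00
      rw [h, Valuation.map_neg]
      refine (Valuation.map_add _ _ _).trans_lt (max_lt ?_ ?_)
      · rw [map_mul]
        exact (mul_le_mul' (hinv.1.1 0 0) le_rfl).trans_lt (by simpa using ha0)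
      · rw [map_mul]
        exact (mul_le_mul' (hinv.1.1 0 1) le_rfl).trans_lt (by simpa using ha.2)
    · have h : ((a⁻¹ : GL (Fin 2) L) : Matrix (Fin 2) (Fin 2) L) 1 1 - 1
          = -(((a⁻¹ : GL (Fin 2) L) : Matrix (Fin 2) (Fin 2) L) 1 1
              * ((a : Matrix (Fin 2) (Fin 2) L) 1 1 - 1)
            + ((a⁻¹ : GL (Fin 2) L) : Matrix (Fin 2) (Fin 2) L) 1 0
              * (a : Matrix (Fin 2) (Fin 2) L) 0 1) := by
        linear_combination e11
      rw [h, Valuation.map_neg]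
      refine (Valuation.map_add _ _ _).trans_lt (max_lt ?_ ?_)
      · rw [map_mul]
        exact (mul_le_mul' (hinv.1.1 1 1) le_rfl).trans_lt (by simpa using ha1)
      · rw [map_mul]
        exact (mul_le_mul' le_rfl (ha.1.1 0 1)).trans_lt (by simpa using hinv.2)

theorem nU_mem_ip {x : L} (hx : Valued.v x ≤ 1) : nU x ∈ Ip L := by
  refine ⟨⟨nU_mem hx, ?_⟩, ?_, ?_⟩ <;> simp

theorem nL_mem_ip {x : L} (hx : Valued.v x < 1) : nL x ∈ Ip L := by
  refine ⟨⟨nL_mem hx.le, ?_⟩, ?_, ?_⟩ <;> simp [hx]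

/-- **Iwahori-Iwasawa decomposition.** -/
theorem iwasawa (g : GL (Fin 2) L) : ∃ (a : Lˣ) (x : L) (d : Lˣ),
    (∃ y : L, Valued.v y < 1 ∧ g = triL a x d * nL y) ∨
    (∃ y : L, Valued.v y ≤ 1 ∧ g = triL a x d * w0 * nU y) := by
  have hdet := gl_det_ne g
  rw [gl_det_eq] at hdet
  by_cases h : Valued.v ((g : Matrix (Fin 2) (Fin 2) L) 1 0)
      < Valued.v ((g : Matrix (Fin 2) (Fin 2) L) 1 1)
  · have hd : (g : Matrix (Fin 2) (Fin 2) L) 1 1 ≠ 0 := by
      intro h0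
      rw [h0, map_zero] at h
      exact not_lt_zero h
    set y := (g : Matrix (Fin 2) (Fin 2) L) 1 0 / (g : Matrix (Fin 2) (Fin 2) L) 1 1 with hy
    have ha : (g : Matrix (Fin 2) (Fin 2) L) 0 0 - (g : Matrix (Fin 2) (Fin 2) L) 0 1 * y ≠ 0 := by
      intro h0
      apply hdet
      rw [hy] at h0
      field_simp at h0
      linear_combination h0
    refine ⟨Units.mk0 _ ha, (g : Matrix (Fin 2) (Fin 2) L) 0 1, Units.mk0 _ hd, Or.inl
      ⟨y, ?_, ?_⟩⟩
    · rw [hy, map_div₀]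
      exact (div_lt_one₀ (zero_lt_iff.2 ((Valuation.ne_zero_iff _).2 hd))).2 h
    · apply gl_ext <;> simp [gl_mul_apply, triL_val, -Units.val_mul]
      rw [hy]; field_simp
  · rw [not_lt] at h
    have hc : (g : Matrix (Fin 2) (Fin 2) L) 1 0 ≠ 0 := by
      intro h0
      rw [h0, map_zero] at h
      have h1 : (g : Matrix (Fin 2) (Fin 2) L) 1 1 = 0 := by
        rw [← Valuation.zero_iff Valued.v]
        exact le_antisymm h zero_le
      apply hdet
      rw [h0, h1]; ring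
    set y := (g : Matrix (Fin 2) (Fin 2) L) 1 1 / (g : Matrix (Fin 2) (Fin 2) L) 1 0 with hy
    have ha : (g : Matrix (Fin 2) (Fin 2) L) 0 1 - (g : Matrix (Fin 2) (Fin 2) L) 0 0 * y ≠ 0 := by
      intro h0
      apply hdet
      rw [hy] at h0
      field_simp at h0
      linear_combination -h0
    refine ⟨Units.mk0 _ ha, (g : Matrix (Fin 2) (Fin 2) L) 0 0, Units.mk0 _ hc, Or.inr
      ⟨y, ?_, ?_⟩⟩
    · rw [hy, map_div₀]
      exact div_le_one_of_le₀ h zero_le
    · apply gl_ext <;> simp [gl_mul_apply, triL_val, -Units.val_mul]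
      rw [hy]; field_simp

end Local

end Run7.h866.AF
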