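import Mathlib
import Pool.Agent.Run7.h866.AF.LocB

/-!
# Density of `F(t)` in its completions, residue systems
-/

set_option autoImplicit false
noncomputable section
open IsDedekindDomain Polynomial WithZero RestrictedProduct Matrix

namespace Run7.h866.AF

variable (F : Type) [Field F]

open Classical in
theorem vK_exp (w : Pl F) (n : ℤ) : ∃ x : RatFunc F, vK F w x = exp n := by
  rcases w with _ | v
  · refine ⟨RatFunc.X ^ n, ?_⟩
    exact RatFunc.inftyValuation.X_zpow F n
  · obtain ⟨x, hx⟩ := v.valuation_surjective (RatFunc F) (exp n)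
    exact ⟨x, hx⟩

theorem dense_emb (w : Pl F) (x : Kc F w) (n : ℤ) :
    ∃ y : RatFunc F, Valued.v (x - emb F w y) < exp n := by
  obtain ⟨a, ha⟩ := vK_exp F w n
  have ha' : Valued.v (emb F w a) = exp n := by rw [v_emb, ha]
  have hne : (Valued.v : Valuation (Kc F w) ℤᵐ⁰).restrict (emb F w a) ≠ 0 := by
    intro h
    have : (Valued.v : Valuation (Kc F w) ℤᵐ⁰).restrict (emb F w a)
        = (Valued.v : Valuation (Kc F w) ℤᵐ⁰).restrict 0 := by rw [h, map_zero]
    rw [Valuation.restrict_inj, ha', map_zero] at this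
    exact WithZero.exp_ne_zero this
  have hnb : {y : Kc F w | Valued.v (y - x) < exp n} ∈ nhds x := by
    rw [Valued.mem_nhds]
    refine ⟨Units.mk0 _ hne, ?_⟩
    intro y hy
    simp only [Set.mem_ofPred_eq, Units.val_mk0, Valuation.restrict_lt_iff] at hy ⊢
    rwa [ha'] at hy
  obtain ⟨z, hz⟩ := (UniformSpace.Completion.denseRange_coe
    (α := WithVal (vK F w))).mem_nhds hnb
  refine ⟨WithVal.equiv (vK F w) z, ?_⟩
  have h1 : emb F w (WithVal.equiv (vK F w) z) = (z : Kc F w) := by
    simp [emb, UniformSpace.Completion.coeRingHom]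
  rw [h1, Valuation.map_sub_swap]
  exact hz

open Classical in
theorem vinf_poly {p : F[X]} (hp : p ≠ 0) :
    vK F none (algebraMap F[X] (RatFunc F) p) = exp (p.natDegree : ℤ) :=
  RatFunc.inftyValuation.polynomial F hp

theorem vinf_poly_le (p : F[X]) :
    vK F none (algebraMap F[X] (RatFunc F) p) ≤ exp (p.natDegree : ℤ) := by
  by_cases hp : p = 0
  · subst hp; simp
  · exact (vinf_poly F hp).le

/-- polynomial parts at infinity -/
theorem poly_part (y : RatFunc F) :
    ∃ p : F[X], vK F none (y - algebraMap F[X] (RatFunc F) p) < 1 := by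
  refine ⟨y.num /ₘ y.denom, ?_⟩
  have hd := RatFunc.monic_denom y
  have hd0 : algebraMap F[X] (RatFunc F) y.denom ≠ 0 := by
    rw [Ne, map_eq_zero_iff _ (RatFunc.algebraMap_injective F)]; exact hd.ne_zero
  have h1 : y - algebraMap F[X] (RatFunc F) (y.num /ₘ y.denom)
      = algebraMap F[X] (RatFunc F) (y.num %ₘ y.denom) /
        algebraMap F[X] (RatFunc F) y.denom := by
    conv_lhs => rw [← RatFunc.num_div_denom y]
    rw [eq_div_iff hd0, sub_mul, div_mul_cancel₀ _ hd0, ← map_mul, ← map_sub]
    congr 1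
    have := Polynomial.modByMonic_add_div y.num y.denom
    simp only [RatFunc.num_div_denom]
    linear_combination -this
  rw [h1, map_div₀, vinf_poly F hd.ne_zero]
  by_cases hr : y.num %ₘ y.denom = 0
  · rw [hr]; simp
  · rw [vinf_poly F hr, ← exp_sub, ← exp_zero, exp_lt_exp]
    have h2 : y.denom ≠ 1 := by
      intro h
      rw [h, Polynomial.modByMonic_one] at hr
      exact hr rfl
    have := Polynomial.natDegree_modByMonic_lt y.num hd h2
    omega

theorem inf_const (y : RatFunc F) (hy : vK F none y ≤ 1) :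
    ∃ c : F, vK F none (y - RatFunc.C c) < 1 := by
  obtain ⟨p, hp⟩ := poly_part F y
  have h1 : vK F none (algebraMap F[X] (RatFunc F) p) ≤ 1 := by
    have : algebraMap F[X] (RatFunc F) p = y - (y - algebraMap F[X] (RatFunc F) p) := by ring
    rw [this]
    exact (Valuation.map_sub _ _ _).trans (max_le hy hp.le)
  have h2 : p.natDegree = 0 := by
    by_cases h : p = 0
    · simp [h]
    · rw [vinf_poly F h, ← exp_zero, exp_le_exp] at h1
      omega
  refine ⟨p.coeff 0, ?_⟩
  rw [Polynomial.eq_C_of_natDegree_eq_zero h2] at hp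
  simpa using hp

open Classical in
theorem vinf_C {c : F} (hc : c ≠ 0) : vK F none (RatFunc.C c) = 1 :=
  RatFunc.inftyValuation.C F hc

theorem v_fin_poly (v : HeightOneSpectrum F[X]) (p : F[X]) :
    vK F (some v) (algebraMap F[X] (RatFunc F) p) ≤ 1 :=
  v.valuation_le_one p

theorem v_fin_lt (v : HeightOneSpectrum F[X]) (p : F[X]) :
    vK F (some v) (algebraMap F[X] (RatFunc F) p) < 1 ↔ p ∈ v.asIdeal :=
  v.valuation_lt_one_iff_mem p

theorem v_fin_eq_one (v : HeightOneSpectrum F[X]) (p : F[X]) :
    vK F (some v) (algebraMap F[X] (RatFunc F) p) = 1 ↔ p ∉ v.asIdeal :=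
  v.valuation_eq_one_iff_notMem

/-- the denominator of a function integral at `v` is a unit at `v` -/
theorem denom_notMem (v : HeightOneSpectrum F[X]) (y : RatFunc F)
    (hy : vK F (some v) y ≤ 1) : y.denom ∉ v.asIdeal := by
  intro hd
  have hn : y.num ∉ v.asIdeal := by
    intro hn
    obtain ⟨a, b, hab⟩ := RatFunc.isCoprime_num_denom y
    apply v.isPrime.ne_top
    rw [Ideal.eq_top_iff_one, ← hab]
    exact Ideal.add_mem _ (Ideal.mul_mem_left _ _ hn) (Ideal.mul_mem_left _ _ hd)
  have h1 := (v_fin_eq_one F v _).2 hn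
  have h2 := (v_fin_lt F v _).2 hd
  rw [← RatFunc.num_div_denom y, map_div₀, h1, one_div] at hy
  have h3 : vK F (some v) (algebraMap F[X] (RatFunc F) y.denom) ≠ 0 := by
    rw [Valuation.ne_zero_iff, Ne, map_eq_zero_iff _ (RatFunc.algebraMap_injective F)]
    exact RatFunc.denom_ne_zero y
  have h4 := (inv_le_one₀ (zero_lt_iff.2 h3)).1 hy
  exact absurd h2 (not_lt.2 h4)

theorem fin_part (v : HeightOneSpectrum F[X]) (y : RatFunc F) (hy : vK F (some v) y ≤ 1) :
    ∃ p : F[X], vK F (some v) (y - algebraMap F[X] (RatFunc F) p) < 1 := by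
  have hd := denom_notMem F v y hy
  have hmax : v.asIdeal.IsMaximal := v.isPrime.isMaximal v.ne_bot
  obtain ⟨c, hc⟩ := hmax.exists_inv hd
  obtain ⟨e, he, hce⟩ := hc
  refine ⟨y.num * c, ?_⟩
  have hd0 : algebraMap F[X] (RatFunc F) y.denom ≠ 0 := by
    rw [Ne, map_eq_zero_iff _ (RatFunc.algebraMap_injective F)]; exact RatFunc.denom_ne_zero y
  have h1 : y - algebraMap F[X] (RatFunc F) (y.num * c)
      = algebraMap F[X] (RatFunc F) (y.num * e) / algebraMap F[X] (RatFunc F) y.denom := by
    conv_lhs => rw [← RatFunc.num_div_denom y]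
    rw [eq_div_iff hd0, sub_mul, div_mul_cancel₀ _ hd0, ← map_mul, ← map_sub]
    congr 1
    simp only [RatFunc.num_div_denom]
    linear_combination (-y.num) * hce
  rw [h1, map_div₀, (v_fin_eq_one F v _).2 hd, div_one, v_fin_lt]
  exact Ideal.mul_mem_left _ _ he

/-- The residue system at infinity: `ϖ = 1/t`, `k = F`, the constants as representatives. -/
def Rinf [Fintype F] : Res (Kc F none) where
  ϖ := emb F none (1 / RatFunc.X)
  hϖ := by
    classical
    rw [v_emb]
    exact RatFunc.inftyValuation.X_inv F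
  k := F
  r := fun c => emb F none (RatFunc.C c)
  r_int := by
    intro c
    rw [v_emb]
    by_cases hc : c = 0
    · subst hc; simp
    · exact (vinf_C F hc).le
  r_ex := by
    intro x hx
    obtain ⟨y, hy⟩ := dense_emb F none x 0
    rw [exp_zero] at hy
    have h1 : vK F none y ≤ 1 := by
      rw [← v_emb]
      have : emb F none y = x - (x - emb F none y) := by ring
      rw [this]
      exact (Valuation.map_sub _ _ _).trans (max_le hx hy.le)
    obtain ⟨c, hc⟩ := inf_const F y h1
    refine ⟨c, ?_⟩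
    have : x - emb F none (RatFunc.C c) = (x - emb F none y) + emb F none (y - RatFunc.C c) := by
      rw [map_sub]; ring
    rw [this]
    refine (Valuation.map_add _ _ _).trans_lt (max_lt hy ?_)
    rw [v_emb]
    exact hc
  r_inj := by
    intro y z h
    rw [← map_sub, ← map_sub, v_emb] at h
    by_contra hne
    rw [vinf_C F (sub_ne_zero.2 hne)] at h
    exact lt_irrefl _ h

theorem Rinf_r [Fintype F] (c : F) : (Rinf F).r c = emb F none (RatFunc.C c) := rfl

theorem finite_quot [Finite F] (v : HeightOneSpectrum F[X]) : Finite (F[X] ⧸ v.asIdeal) := by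
  obtain ⟨p, hp⟩ := (IsPrincipalIdealRing.principal v.asIdeal).principal
  have hp' : v.asIdeal = Ideal.span {p} := hp
  have hp0 : p ≠ 0 := by
    rintro rfl
    apply v.ne_bot
    rw [hp']; simp
  rw [hp']
  have hu : IsUnit p.leadingCoeff := by
    rw [isUnit_iff_ne_zero]; exact Polynomial.leadingCoeff_ne_zero.2 hp0
  have h1 : Module.Finite F (AdjoinRoot p) :=
    (AdjoinRoot.powerBasis hp0).finite
  have h2 : Finite (AdjoinRoot p) := Module.finite_of_finite F
  exact h2

/-- The residue system at a finite place. -/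
def Rfin [Fintype F] (v : HeightOneSpectrum F[X]) : Res (Kc F (some v)) where
  ϖ := emb F (some v) (vK_exp F (some v) (-1)).choose
  hϖ := by
    rw [v_emb]
    exact (vK_exp F (some v) (-1)).choose_spec
  k := F[X] ⧸ v.asIdeal
  fin := by
    have := finite_quot F v
    exact Fintype.ofFinite _
  r := fun c => emb F (some v) (algebraMap F[X] (RatFunc F) (Quotient.out c))
  r_int := by
    intro c
    rw [v_emb]
    exact v_fin_poly F v _
  r_ex := by
    intro x hx
    obtain ⟨y, hy⟩ := dense_emb F (some v) x 0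
    rw [exp_zero] at hy
    have h1 : vK F (some v) y ≤ 1 := by
      rw [← v_emb]
      have : emb F (some v) y = x - (x - emb F (some v) y) := by ring
      rw [this]
      exact (Valuation.map_sub _ _ _).trans (max_le hx hy.le)
    obtain ⟨p, hp⟩ := fin_part F v y h1
    refine ⟨Ideal.Quotient.mk _ p, ?_⟩
    set c : F[X] := Quotient.out (Ideal.Quotient.mk v.asIdeal p) with hc
    have hpc : p - c ∈ v.asIdeal := by
      rw [← Ideal.Quotient.eq]
      rw [hc]
      exact (Ideal.Quotient.mk_out _).symm
    have : x - emb F (some v) (algebraMap F[X] (RatFunc F) c)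
        = (x - emb F (some v) y) + (emb F (some v) (y - algebraMap F[X] (RatFunc F) p)
          + emb F (some v) (algebraMap F[X] (RatFunc F) (p - c))) := by
      rw [map_sub, map_sub, map_sub]; ring
    rw [this]
    refine (Valuation.map_add _ _ _).trans_lt (max_lt hy ?_)
    refine (Valuation.map_add _ _ _).trans_lt (max_lt ?_ ?_)
    · rw [v_emb]
      exact hp
    · rw [v_emb, v_fin_lt]
      exact hpc
  r_inj := by
    intro y z h
    rw [← map_sub, ← map_sub, v_emb, v_fin_lt, ← Ideal.Quotient.eq, Ideal.Quotient.mk_out,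
      Ideal.Quotient.mk_out] at h
    exact h

theorem exists_res [Fintype F] (w : Pl F) : Nonempty (Res (Kc F w)) := by
  rcases w with _ | v
  · exact ⟨Rinf F⟩
  · exact ⟨Rfin F v⟩

end Run7.h866.AF
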