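import Mathlib
import Pool.Agent.Run7.h866.AF.ResK
import Pool.Agent.Run7.h866.AF.LocG
import Pool.Agent.Run7.h866.AF.Conj

/-!
# The second form: definition and the freeness of the orbit
-/

set_option autoImplicit false
set_option linter.unusedSectionVars false
noncomputable section
open IsDedekindDomain Polynomial WithZero RestrictedProduct Matrix

namespace Run7.h866.AF

theorem gl_ext' {L : Type} [Field L] {g h : GL (Fin 2) L}
    (h00 : (g : Matrix (Fin 2) (Fin 2) L) 0 0 = (h : Matrix (Fin 2) (Fin 2) L) 0 0)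
    (h01 : (g : Matrix (Fin 2) (Fin 2) L) 0 1 = (h : Matrix (Fin 2) (Fin 2) L) 0 1)
    (h10 : (g : Matrix (Fin 2) (Fin 2) L) 1 0 = (h : Matrix (Fin 2) (Fin 2) L) 1 0)
    (h11 : (g : Matrix (Fin 2) (Fin 2) L) 1 1 = (h : Matrix (Fin 2) (Fin 2) L) 1 1) : g = h := by
  apply Units.ext
  ext i j
  fin_cases i <;> fin_cases j <;> assumption

variable (F : Type) [Field F]

theorem glob_apply (γ : GL (Fin 2) (RatFunc F)) (w : Pl F) (i j : Fin 2) :
    ((glob F γ w : GL (Fin 2) (Kc F w)) : Matrix (Fin 2) (Fin 2) (Kc F w)) i j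
      = emb F w ((γ : Matrix (Fin 2) (Fin 2) (RatFunc F)) i j) := rfl

theorem v_glob (γ : GL (Fin 2) (RatFunc F)) (w : Pl F) (i j : Fin 2) :
    Valued.v (((glob F γ w : GL (Fin 2) (Kc F w)) : Matrix (Fin 2) (Fin 2) (Kc F w)) i j)
      = vK F w ((γ : Matrix (Fin 2) (Fin 2) (RatFunc F)) i j) := by
  rw [glob_apply, v_emb]

theorem loc_same (w : Pl F) (g : GL (Fin 2) (Kc F w)) : loc F w g w = g := by
  classical
  exact Pi.mulSingle_eq_same (M := fun w : Pl F => GL (Fin 2) (Kc F w)) w g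

theorem loc_ne {w w' : Pl F} (h : w' ≠ w) (g : GL (Fin 2) (Kc F w)) : loc F w g w' = 1 := by
  classical
  exact RestrictedProduct.mulSingle_eq_of_ne _ _ h

theorem GA_ext {g h : GA F} (H : ∀ w, g w = h w) : g = h := RestrictedProduct.ext _ _ H

theorem GA_mul (g h : GA F) (w : Pl F) : (g * h) w = g w * h w := rfl

theorem GA_inv (g : GA F) (w : Pl F) : (g⁻¹) w = (g w)⁻¹ := rfl

theorem GA_one (w : Pl F) : (1 : GA F) w = 1 := rfl

/-- elements supported at different places commute -/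
theorem loc_commute {w : Pl F} (g : GL (Fin 2) (Kc F w)) {k : GA F} (hk : k w = 1) :
    loc F w g * k = k * loc F w g := by
  apply GA_ext
  intro w'
  rw [GA_mul, GA_mul]
  by_cases h : w' = w
  · subst h
    rw [hk, mul_one, one_mul]
  · rw [loc_ne F h, one_mul, mul_one]

/-! ### polynomials -/

theorem poly_of_int (x : RatFunc F) (h : ∀ v : HeightOneSpectrum F[X], vK F (some v) x ≤ 1) :
    ∃ p : F[X], x = algebraMap F[X] (RatFunc F) p := by
  obtain ⟨p, hp⟩ := HeightOneSpectrum.mem_integers_of_valuation_le_one (R := F[X]) (RatFunc F) x h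
  exact ⟨p, hp.symm⟩

theorem vinf_ge_one {p : F[X]} (hp : p ≠ 0) : 1 ≤ vK F none (algebraMap F[X] (RatFunc F) p) := by
  rw [vinf_poly F hp, ← exp_zero, exp_le_exp]
  omega

theorem const_of_le {p : F[X]} (h : vK F none (algebraMap F[X] (RatFunc F) p) ≤ 1) :
    ∃ c : F, p = Polynomial.C c := by
  by_cases hp : p = 0
  · exact ⟨0, by simp [hp]⟩
  · rw [vinf_poly F hp, ← exp_zero, exp_le_exp] at h
    exact ⟨p.coeff 0, Polynomial.eq_C_of_natDegree_eq_zero (by omega)⟩

theorem zero_of_lt {p : F[X]} (h : vK F none (algebraMap F[X] (RatFunc F) p) < 1) : p = 0 := by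
  by_contra hp
  exact absurd h (not_lt.2 (vinf_ge_one F hp))

theorem vinf_unit {p : F[X]} (h : ∀ v : HeightOneSpectrum F[X],
    vK F (some v) (algebraMap F[X] (RatFunc F) p) = 1) :
    vK F none (algebraMap F[X] (RatFunc F) p) = 1 := by
  have hp : p ≠ 0 := by
    rintro rfl
    have hX : ∃ v : HeightOneSpectrum F[X], True :=
      ⟨⟨Ideal.span {Polynomial.X}, (Ideal.span_singleton_prime Polynomial.X_ne_zero).2
        Polynomial.prime_X, by simp⟩, trivial⟩
    obtain ⟨v, _⟩ := hX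
    have := h v
    simp at this
  have hu : IsUnit p := by
    by_contra hu
    obtain ⟨M, hM, hpM⟩ := Ideal.exists_le_maximal (Ideal.span {p})
      (by rwa [Ne, Ideal.span_singleton_eq_top])
    have hMb : M ≠ ⊥ := by
      rintro rfl
      rw [le_bot_iff, Ideal.span_singleton_eq_bot] at hpM
      exact hp hpM
    have h1 := (v_fin_eq_one F ⟨M, hM.isPrime, hMb⟩ p).1 (h _)
    exact h1 (hpM (Ideal.mem_span_singleton_self p))
  have h0 := Polynomial.natDegree_eq_zero_of_isUnit hu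
  rw [vinf_poly F hp, h0]
  simp

/-! ### the place `t = 0` -/

/-- the prime `(t)` -/
def v0 : HeightOneSpectrum F[X] where
  asIdeal := Ideal.span {Polynomial.X}
  isPrime := (Ideal.span_singleton_prime Polynomial.X_ne_zero).2 Polynomial.prime_X
  ne_bot := by simp

/-- the place `t = 0` -/
abbrev po : Pl F := some (v0 F)

theorem vo_C {c : F} (hc : c ≠ 0) : vK F (po F) (RatFunc.C c) = 1 := by
  rw [← RatFunc.algebraMap_C, v_fin_eq_one]
  change ¬ _ ∈ Ideal.span _
  rw [Ideal.mem_span_singleton, Polynomial.X_dvd_iff, Polynomial.coeff_C_zero]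
  exact hc

theorem vo_X : vK F (po F) RatFunc.X = exp (-1 : ℤ) := by
  change (v0 F).valuation (RatFunc F) RatFunc.X = _
  rw [← RatFunc.algebraMap_X]
  exact ((v0 F).valuation_of_algebraMap (K := RatFunc F) Polynomial.X).trans
    ((v0 F).intValuation_singleton Polynomial.X_ne_zero rfl)

theorem res0_ex (x : Kc F (po F)) (hx : Valued.v x ≤ 1) :
    ∃ c : F, Valued.v (x - emb F (po F) (RatFunc.C c)) < 1 := by
  obtain ⟨y, hy⟩ := dense_emb F (po F) x 0
  rw [exp_zero] at hy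
  have h1 : vK F (po F) y ≤ 1 := by
    rw [← v_emb]
    have : emb F (po F) y = x - (x - emb F (po F) y) := by ring
    rw [this]
    exact (Valuation.map_sub _ _ _).trans (max_le hx hy.le)
  obtain ⟨p, hp⟩ := fin_part F (v0 F) y h1
  refine ⟨p.coeff 0, ?_⟩
  have : x - emb F (po F) (RatFunc.C (p.coeff 0))
      = (x - emb F (po F) y) + (emb F (po F) (y - algebraMap F[X] (RatFunc F) p)
        + emb F (po F) (algebraMap F[X] (RatFunc F) (p - Polynomial.C (p.coeff 0)))) := by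
    rw [map_sub, map_sub, map_sub, RatFunc.algebraMap_C]; ring
  rw [this]
  refine (Valuation.map_add _ _ _).trans_lt (max_lt hy ?_)
  refine (Valuation.map_add _ _ _).trans_lt (max_lt ?_ ?_)
  · rw [v_emb]
    exact hp
  · rw [v_emb, v_fin_lt]
    change _ ∈ Ideal.span _
    rw [Ideal.mem_span_singleton]
    exact Polynomial.X_dvd_sub_C

open Classical in
/-- the residue map at `t = 0` -/
def res0 (x : Kc F (po F)) : F := if hx : Valued.v x ≤ 1 then (res0_ex F x hx).choose else 0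

theorem res0_spec {x : Kc F (po F)} (hx : Valued.v x ≤ 1) :
    Valued.v (x - emb F (po F) (RatFunc.C (res0 F x))) < 1 := by
  rw [res0, dif_pos hx]
  exact (res0_ex F x hx).choose_spec

theorem res0_eq {x : Kc F (po F)} {c : F}
    (hc : Valued.v (x - emb F (po F) (RatFunc.C c)) < 1) : res0 F x = c := by
  have hx : Valued.v x ≤ 1 := by
    have : x = (x - emb F (po F) (RatFunc.C c)) + emb F (po F) (RatFunc.C c) := by ring
    rw [this]
    refine (Valuation.map_add _ _ _).trans (max_le hc.le ?_)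
    rw [v_emb]
    by_cases h : c = 0
    · simp [h]
    · exact (vo_C F h).le
  by_contra hne
  have h1 := vo_C F (sub_ne_zero.2 hne)
  have h2 : Valued.v (emb F (po F) (RatFunc.C (res0 F x - c))) < 1 := by
    have : emb F (po F) (RatFunc.C (res0 F x - c))
        = (x - emb F (po F) (RatFunc.C c)) - (x - emb F (po F) (RatFunc.C (res0 F x))) := by
      rw [map_sub, map_sub]; ring
    rw [this]
    exact (Valuation.map_sub _ _ _).trans_lt (max_lt hc (res0_spec F hx))
  rw [v_emb, h1] at h2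
  exact lt_irrefl _ h2

/-- the uniformiser at `t = 0` -/
def T0 : Kc F (po F) := emb F (po F) RatFunc.X

theorem v_T0 : Valued.v (T0 F) = exp (-1 : ℤ) := by
  rw [T0, v_emb, vo_X]

theorem T0_ne : T0 F ≠ 0 := by
  intro h
  have := v_T0 F
  rw [h, map_zero] at this
  exact exp_ne_zero this.symm

theorem v_div_T0 {x : Kc F (po F)} (hx : Valued.v x < 1) : Valued.v (x / T0 F) ≤ 1 := by
  rw [map_div₀, v_T0]
  rw [lt_one_iff_le] at hx
  calc _ ≤ exp (-1 : ℤ) / exp (-1 : ℤ) := div_le_div_of_nonneg_right hx zero_le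
    _ = 1 := div_self exp_ne_zero

/-- the affine generic character of the pro-`p` Iwahori subgroup at `t = 0` -/
def chi (ψ : AddChar F ℂ) (k : GL (Fin 2) (Kc F (po F))) : ℂ :=
  ψ (res0 F ((k : Matrix (Fin 2) (Fin 2) (Kc F (po F))) 0 1)
    + res0 F ((k : Matrix (Fin 2) (Fin 2) (Kc F (po F))) 1 0 / T0 F))

theorem chi_mul (ψ : AddChar F ℂ) {k k' : GL (Fin 2) (Kc F (po F))}
    (hk : k ∈ Ip (Kc F (po F))) (hk' : k' ∈ Ip (Kc F (po F))) :
    chi F ψ (k * k') = chi F ψ k * chi F ψ k' := by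
  unfold chi
  rw [← AddChar.map_add_eq_mul]
  congr 1
  have i1 := res0_spec F (hk.1.1.1 0 1)
  have i2 := res0_spec F (hk'.1.1.1 0 1)
  have j1 := res0_spec F (v_div_T0 F hk.1.2)
  have j2 := res0_spec F (v_div_T0 F hk'.1.2)
  have e1 : res0 F (((k * k' : GL (Fin 2) (Kc F (po F))) :
      Matrix (Fin 2) (Fin 2) (Kc F (po F))) 0 1)
      = res0 F ((k : Matrix (Fin 2) (Fin 2) (Kc F (po F))) 0 1)
        + res0 F ((k' : Matrix (Fin 2) (Fin 2) (Kc F (po F))) 0 1) := by
    apply res0_eq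
    rw [gl_mul_apply]
    set a := res0 F ((k : Matrix (Fin 2) (Fin 2) (Kc F (po F))) 0 1)
    set b := res0 F ((k' : Matrix (Fin 2) (Fin 2) (Kc F (po F))) 0 1)
    have : (k : Matrix (Fin 2) (Fin 2) (Kc F (po F))) 0 0
          * (k' : Matrix (Fin 2) (Fin 2) (Kc F (po F))) 0 1
        + (k : Matrix (Fin 2) (Fin 2) (Kc F (po F))) 0 1
          * (k' : Matrix (Fin 2) (Fin 2) (Kc F (po F))) 1 1
        - emb F (po F) (RatFunc.C (a + b))
        = (((k : Matrix (Fin 2) (Fin 2) (Kc F (po F))) 0 0 - 1)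
          * (k' : Matrix (Fin 2) (Fin 2) (Kc F (po F))) 0 1
          + (k : Matrix (Fin 2) (Fin 2) (Kc F (po F))) 0 1
          * ((k' : Matrix (Fin 2) (Fin 2) (Kc F (po F))) 1 1 - 1))
        + (((k : Matrix (Fin 2) (Fin 2) (Kc F (po F))) 0 1 - emb F (po F) (RatFunc.C a))
          + ((k' : Matrix (Fin 2) (Fin 2) (Kc F (po F))) 0 1 - emb F (po F) (RatFunc.C b))) := by
      rw [map_add, map_add]; ring
    rw [this]
    refine (Valuation.map_add _ _ _).trans_lt (max_lt
      ((Valuation.map_add _ _ _).trans_lt (max_lt ?_ ?_))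
      ((Valuation.map_add _ _ _).trans_lt (max_lt i1 i2)))
    · rw [map_mul]
      exact (mul_le_mul' le_rfl (hk'.1.1.1 0 1)).trans_lt (by simpa using hk.2.1)
    · rw [map_mul]
      exact (mul_le_mul' (hk.1.1.1 0 1) le_rfl).trans_lt (by simpa using hk'.2.2)
  have e2 : res0 F (((k * k' : GL (Fin 2) (Kc F (po F))) :
      Matrix (Fin 2) (Fin 2) (Kc F (po F))) 1 0 / T0 F)
      = res0 F ((k : Matrix (Fin 2) (Fin 2) (Kc F (po F))) 1 0 / T0 F)
        + res0 F ((k' : Matrix (Fin 2) (Fin 2) (Kc F (po F))) 1 0 / T0 F) := by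
    apply res0_eq
    rw [gl_mul_apply]
    set a := res0 F ((k : Matrix (Fin 2) (Fin 2) (Kc F (po F))) 1 0 / T0 F)
    set b := res0 F ((k' : Matrix (Fin 2) (Fin 2) (Kc F (po F))) 1 0 / T0 F)
    have : ((k : Matrix (Fin 2) (Fin 2) (Kc F (po F))) 1 0
          * (k' : Matrix (Fin 2) (Fin 2) (Kc F (po F))) 0 0
        + (k : Matrix (Fin 2) (Fin 2) (Kc F (po F))) 1 1
          * (k' : Matrix (Fin 2) (Fin 2) (Kc F (po F))) 1 0) / T0 F
        - emb F (po F) (RatFunc.C (a + b))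
        = (((k : Matrix (Fin 2) (Fin 2) (Kc F (po F))) 1 0 / T0 F)
          * ((k' : Matrix (Fin 2) (Fin 2) (Kc F (po F))) 0 0 - 1)
          + ((k : Matrix (Fin 2) (Fin 2) (Kc F (po F))) 1 1 - 1)
          * ((k' : Matrix (Fin 2) (Fin 2) (Kc F (po F))) 1 0 / T0 F))
        + (((k : Matrix (Fin 2) (Fin 2) (Kc F (po F))) 1 0 / T0 F - emb F (po F) (RatFunc.C a))
          + ((k' : Matrix (Fin 2) (Fin 2) (Kc F (po F))) 1 0 / T0 F
            - emb F (po F) (RatFunc.C b))) := by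
      rw [map_add, map_add]
      have := T0_ne F
      field_simp
      ring
    rw [this]
    refine (Valuation.map_add _ _ _).trans_lt (max_lt
      ((Valuation.map_add _ _ _).trans_lt (max_lt ?_ ?_))
      ((Valuation.map_add _ _ _).trans_lt (max_lt j1 j2)))
    · rw [map_mul]
      exact (mul_le_mul' (v_div_T0 F hk.1.2) le_rfl).trans_lt (by simpa using hk'.2.1)
    · rw [map_mul]
      exact (mul_le_mul' le_rfl (v_div_T0 F hk'.1.2)).trans_lt (by simpa using hk.2.2)
  rw [e1, e2]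
  ring

theorem res0_C (c : F) : res0 F (emb F (po F) (RatFunc.C c)) = c := by
  apply res0_eq
  simp

theorem res0_zero : res0 F 0 = 0 := by
  have := res0_C F 0
  simpa using this

theorem chi_one (ψ : AddChar F ℂ) : chi F ψ 1 = 1 := by
  unfold chi
  simp [res0_zero]

theorem chi_nU (ψ : AddChar F ℂ) (c : F) :
    chi F ψ (nU (emb F (po F) (RatFunc.C c))) = ψ c := by
  unfold chi
  simp [res0_zero, res0_C]

theorem chi_nL (ψ : AddChar F ℂ) (c : F) :
    chi F ψ (nL (emb F (po F) (RatFunc.C c * RatFunc.X))) = ψ c := by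
  unfold chi
  have : emb F (po F) (RatFunc.C c * RatFunc.X) / T0 F = emb F (po F) (RatFunc.C c) := by
    rw [map_mul, ← T0, mul_div_assoc, div_self (T0_ne F), mul_one]
  rw [nL_val]
  simp only [of_apply, cons_val', cons_val_zero, cons_val_fin_one, cons_val_one]
  rw [this, res0_zero, res0_C, zero_add]

/-! ### the form -/

/-- edges at infinity -/
def Ep : Set (GL (Fin 2) (Kc F none)) :=
  {g | ∃ i ∈ Iw (Kc F none), ∃ z : (Kc F none)ˣ, g = w0 * i * dg z z}

/-- the support of the section -/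
structure SS (g : GA F) : Prop where
  fin : ∀ w, w ≠ none → g w ∈ Cong (Kc F w) 0
  o : g (po F) ∈ Ip (Kc F (po F))
  inf : g none ∈ Ep F

open Classical in
/-- the section -/
def phi (ψ : AddChar F ℂ) (g : GA F) : ℂ := if SS F g then chi F ψ (g (po F)) else 0

/-- the Poincare series -/
def f0 (ψ : AddChar F ℂ) (g : GA F) : ℂ := ∑ᶠ γ, phi F ψ (glob F γ * g)

theorem sq_eq_one {x : ℤᵐ⁰} (h : x * x = 1) : x = 1 := by
  have hx : x ≠ 0 := by
    rintro rfl
    simp at h
  rw [← exp_log hx] at h ⊢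
  rw [← exp_add, ← exp_zero, exp_inj] at h
  rw [← exp_zero, exp_inj]
  omega

/-- global elements which are integral at the finite places -/
theorem glob_int (δ : GL (Fin 2) (RatFunc F))
    (h : ∀ w, w ≠ none → glob F δ w ∈ Cong (Kc F w) 0) :
    (∀ i j, ∃ p : F[X], (δ : Matrix (Fin 2) (Fin 2) (RatFunc F)) i j
      = algebraMap F[X] (RatFunc F) p) ∧
    Valued.v ((glob F δ none : GL (Fin 2) (Kc F none)) :
      Matrix (Fin 2) (Fin 2) (Kc F none)).det = 1 := by
  have h1 : ∀ i j, ∃ p : F[X], (δ : Matrix (Fin 2) (Fin 2) (RatFunc F)) i j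
      = algebraMap F[X] (RatFunc F) p := by
    intro i j
    apply poly_of_int
    intro v
    rw [← v_glob F δ (some v)]
    exact (h (some v) (by simp)).1 i j
  refine ⟨h1, ?_⟩
  choose p hp using h1
  have hdet : ∀ w, ((glob F δ w : GL (Fin 2) (Kc F w)) :
      Matrix (Fin 2) (Fin 2) (Kc F w)).det
      = emb F w (algebraMap F[X] (RatFunc F) (p 0 0 * p 1 1 - p 0 1 * p 1 0)) := by
    intro w
    rw [gl_det_eq, glob_apply, glob_apply, glob_apply, glob_apply, hp, hp, hp, hp]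
    simp only [map_sub, map_mul]
  rw [hdet, v_emb]
  apply vinf_unit
  intro v
  rw [← v_emb, ← hdet]
  exact cong_zero_det (h (some v) (by simp))

theorem glob_o {δ : GL (Fin 2) (RatFunc F)} (h : glob F δ (po F) ∈ Ip (Kc F (po F))) :
    vK F (po F) ((δ : Matrix (Fin 2) (Fin 2) (RatFunc F)) 0 0 - 1) < 1 ∧
    vK F (po F) ((δ : Matrix (Fin 2) (Fin 2) (RatFunc F)) 1 1 - 1) < 1 ∧
    vK F (po F) ((δ : Matrix (Fin 2) (Fin 2) (RatFunc F)) 1 0) < 1 := by
  refine ⟨?_, ?_, ?_⟩
  · have := h.2.1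
    rwa [glob_apply, ← map_one (emb F (po F)), ← map_sub, v_emb] at this
  · have := h.2.2
    rwa [glob_apply, ← map_one (emb F (po F)), ← map_sub, v_emb] at this
  · have := h.1.2
    rwa [glob_apply, v_emb] at this

theorem const_eq_one {c : F}
    (h : vK F (po F) (algebraMap F[X] (RatFunc F) (Polynomial.C c) - 1) < 1) : c = 1 := by
  by_contra hc
  have h1 := vo_C F (sub_ne_zero.2 hc)
  rw [map_sub, map_one] at h1
  rw [RatFunc.algebraMap_C] at h
  rw [h1] at h
  exact lt_irrefl _ h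

theorem const_eq_zero {c : F}
    (h : vK F (po F) (algebraMap F[X] (RatFunc F) (Polynomial.C c)) < 1) : c = 0 := by
  by_contra hc
  have h1 := vo_C F hc
  rw [RatFunc.algebraMap_C, h1] at h
  exact lt_irrefl _ h

/-- **the orbit is free** -/
theorem free {g : GA F} {δ : GL (Fin 2) (RatFunc F)} (h1 : SS F g) (h2 : SS F (glob F δ * g)) :
    δ = 1 := by
  have hw : ∀ w, glob F δ w = (glob F δ * g) w * (g w)⁻¹ := by
    intro w
    rw [GA_mul, mul_inv_cancel_right]
  have hfin : ∀ w, w ≠ none → glob F δ w ∈ Cong (Kc F w) 0 := by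
    intro w hne
    rw [hw w]
    exact Subgroup.mul_mem _ (h2.fin w hne) (Subgroup.inv_mem _ (h1.fin w hne))
  have ho : glob F δ (po F) ∈ Ip (Kc F (po F)) := by
    rw [hw]
    exact Subgroup.mul_mem _ h2.o (Subgroup.inv_mem _ h1.o)
  obtain ⟨hp, hdet⟩ := glob_int F δ hfin
  obtain ⟨i, hi, z, hz⟩ := h1.inf
  obtain ⟨i', hi', z', hz'⟩ := h2.inf
  set κ := w0 * glob F δ none * w0 with hκ
  have hκ2 : κ = i' * i⁻¹ * dg (z' * z⁻¹) (z' * z⁻¹) := by
    rw [hκ, hw none, hz, hz']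
    have e1 : w0 * (w0 * i' * dg z' z' * (w0 * i * dg z z)⁻¹) * w0
        = (w0 * w0) * i' * (dg z' z' * (dg z z)⁻¹) * i⁻¹ * ((w0)⁻¹ * w0) := by group
    rw [e1, w0_mul_w0, inv_mul_cancel, one_mul, mul_one, dg_inv, dg_mul, mul_assoc, dg_comm,
      ← mul_assoc]
  have hdκ : Valued.v ((κ : GL (Fin 2) (Kc F none)) : Matrix (Fin 2) (Fin 2) (Kc F none)).det
      = 1 := by
    rw [hκ, det_mul', det_mul', det_w0, map_mul, map_mul, Valuation.map_neg, map_one, hdet]
    simp
  have hζ : Valued.v ((z' * z⁻¹ : (Kc F none)ˣ) : Kc F none) = 1 := by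
    apply sq_eq_one
    rw [hκ2, det_mul', det_dg, map_mul, map_mul,
      cong_zero_det (Subgroup.mul_mem _ hi' (Subgroup.inv_mem _ hi)).1, one_mul] at hdκ
    exact hdκ
  have hκI : κ ∈ Iw (Kc F none) := by
    rw [hκ2]
    exact Subgroup.mul_mem _ (Subgroup.mul_mem _ hi' (Subgroup.inv_mem _ hi))
      (dg_mem_iw hζ hζ)
  have e00 : ((κ : GL (Fin 2) (Kc F none)) : Matrix (Fin 2) (Fin 2) (Kc F none)) 0 0
      = emb F none ((δ : Matrix (Fin 2) (Fin 2) (RatFunc F)) 1 1) := by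
    rw [hκ]
    simp [gl_mul_apply, -Units.val_mul, glob_apply]
  have e01 : ((κ : GL (Fin 2) (Kc F none)) : Matrix (Fin 2) (Fin 2) (Kc F none)) 0 1
      = emb F none ((δ : Matrix (Fin 2) (Fin 2) (RatFunc F)) 1 0) := by
    rw [hκ]
    simp [gl_mul_apply, -Units.val_mul, glob_apply]
  have e10 : ((κ : GL (Fin 2) (Kc F none)) : Matrix (Fin 2) (Fin 2) (Kc F none)) 1 0
      = emb F none ((δ : Matrix (Fin 2) (Fin 2) (RatFunc F)) 0 1) := by
    rw [hκ]
    simp [gl_mul_apply, -Units.val_mul, glob_apply]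
  have e11 : ((κ : GL (Fin 2) (Kc F none)) : Matrix (Fin 2) (Fin 2) (Kc F none)) 1 1
      = emb F none ((δ : Matrix (Fin 2) (Fin 2) (RatFunc F)) 0 0) := by
    rw [hκ]
    simp [gl_mul_apply, -Units.val_mul, glob_apply]
  have b00 := hκI.1.1 0 0
  have b01 := hκI.1.1 0 1
  have b10 := hκI.2
  have b11 := hκI.1.1 1 1
  rw [e00, v_emb] at b00
  rw [e01, v_emb] at b01
  rw [e10, v_emb] at b10
  rw [e11, v_emb] at b11
  obtain ⟨o1, o2, o3⟩ := glob_o F ho
  obtain ⟨p00, q00⟩ := hp 0 0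
  obtain ⟨p01, q01⟩ := hp 0 1
  obtain ⟨p10, q10⟩ := hp 1 0
  obtain ⟨p11, q11⟩ := hp 1 1
  rw [q11] at b00 o2
  rw [q10] at b01 o3
  rw [q01] at b10
  rw [q00] at b11 o1
  obtain ⟨c00, rfl⟩ := const_of_le F b11
  obtain ⟨c11, rfl⟩ := const_of_le F b00
  obtain ⟨c10, rfl⟩ := const_of_le F b01
  have z01 := zero_of_lt F b10
  have t00 := const_eq_one F o1
  have t11 := const_eq_one F o2
  have t10 := const_eq_zero F o3
  apply gl_ext'
  · rw [q00, t00]; simp
  · rw [q01, z01]; simp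
  · rw [q10, t10]; simp
  · rw [q11, t11]; simp

theorem f0_eq {ψ : AddChar F ℂ} {g : GA F} (h : SS F g) : f0 F ψ g = chi F ψ (g (po F)) := by
  rw [f0, finsum_eq_single _ (1 : GL (Fin 2) (RatFunc F))]
  · rw [map_one, one_mul, phi, if_pos h]
  · intro γ hγ
    rw [phi, if_neg]
    intro h2
    exact hγ (free F h h2)

theorem f0_zero {ψ : AddChar F ℂ} {g : GA F} (h : ∀ γ, ¬ SS F (glob F γ * g)) :
    f0 F ψ g = 0 := by
  rw [f0, finsum_eq_zero_of_forall_eq_zero]
  intro γ
  rw [phi, if_neg (h γ)]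

theorem f0_ne {ψ : AddChar F ℂ} {g : GA F} (h : f0 F ψ g ≠ 0) : ∃ γ, SS F (glob F γ * g) := by
  by_contra hc
  push Not at hc
  exact h (f0_zero F hc)

theorem f0_left (ψ : AddChar F ℂ) (δ : GL (Fin 2) (RatFunc F)) (g : GA F) :
    f0 F ψ (glob F δ * g) = f0 F ψ g := by
  unfold f0
  refine (finsum_congr fun γ => ?_).trans
    (finsum_comp_equiv (Equiv.mulRight δ) (f := fun γ => phi F ψ (glob F γ * g)))
  rw [Equiv.coe_mulRight, map_mul, mul_assoc]

end Run7.h866.AF
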