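import Mathlib
import Pool.Agent.Run7.h866.AF.Cusp1

/-!
# The second form: equivariance, the Steinberg property
-/

set_option autoImplicit false
set_option linter.unusedSectionVars false
noncomputable section
open IsDedekindDomain Polynomial WithZero RestrictedProduct Matrix

namespace Run7.h866.AF

variable (F : Type) [Field F]

theorem Ep_mul {g : GL (Fin 2) (Kc F none)} {i : GL (Fin 2) (Kc F none)}
    (hi : i ∈ Iw (Kc F none)) (z : (Kc F none)ˣ) :
    g * (i * dg z z) ∈ Ep F ↔ g ∈ Ep F := by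
  have key : ∀ g, ∀ i ∈ Iw (Kc F none), ∀ z : (Kc F none)ˣ, g ∈ Ep F →
      g * (i * dg z z) ∈ Ep F := by
    rintro g i hi z ⟨j, hj, y, rfl⟩
    refine ⟨j * i, Subgroup.mul_mem _ hj hi, y * z, ?_⟩
    have : dg y y * (i * dg z z) = i * dg (y * z) (y * z) := by
      rw [← mul_assoc, dg_comm, mul_assoc, dg_mul]
    rw [mul_assoc (w0 * j), this, mul_assoc, mul_assoc, mul_assoc]
  constructor
  · intro h
    have h1 := key _ i⁻¹ (Subgroup.inv_mem _ hi) z⁻¹ h
    have h2 : i⁻¹ * dg z⁻¹ z⁻¹ = (i * dg z z)⁻¹ := by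
      rw [_root_.mul_inv_rev, dg_inv, dg_comm]
    rwa [h2, mul_inv_cancel_right] at h1
  · exact key g i hi z

/-- the elements `k` of `GL_2(𝔸)` with `f₀(g k) = χ(k) f₀(g)` -/
structure HH (k : GA F) : Prop where
  fin : ∀ w, w ≠ none → k w ∈ Cong (Kc F w) 0
  o : k (po F) ∈ Ip (Kc F (po F))
  inf : ∃ i ∈ Iw (Kc F none), ∃ z : (Kc F none)ˣ, k none = i * dg z z

theorem SS_mul {g k : GA F} (hk : HH F k) : SS F (g * k) ↔ SS F g := by
  obtain ⟨i, hi, z, hz⟩ := hk.inf
  constructor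
  · intro h
    refine ⟨fun w hw => ?_, ?_, ?_⟩
    · exact (Subgroup.mul_mem_cancel_right _ (hk.fin w hw)).1 (h.fin w hw)
    · exact (Subgroup.mul_mem_cancel_right _ hk.o).1 h.o
    · have := h.inf
      rw [GA_mul, hz, Ep_mul F hi] at this
      exact this
  · intro h
    refine ⟨fun w hw => ?_, ?_, ?_⟩
    · exact (Subgroup.mul_mem_cancel_right _ (hk.fin w hw)).2 (h.fin w hw)
    · exact (Subgroup.mul_mem_cancel_right _ hk.o).2 h.o
    · rw [GA_mul, hz, Ep_mul F hi]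
      exact h.inf

theorem phi_mul (ψ : AddChar F ℂ) {g k : GA F} (hk : HH F k) :
    phi F ψ (g * k) = chi F ψ (k (po F)) * phi F ψ g := by
  by_cases h : SS F g
  · rw [phi, if_pos ((SS_mul F hk).2 h), phi, if_pos h, GA_mul, chi_mul F ψ h.o hk.o, mul_comm]
  · rw [phi, if_neg (fun h' => h ((SS_mul F hk).1 h')), phi, if_neg h, mul_zero]

theorem f0_mul (ψ : AddChar F ℂ) {g k : GA F} (hk : HH F k) :
    f0 F ψ (g * k) = chi F ψ (k (po F)) * f0 F ψ g := by
  unfold f0
  refine (finsum_congr fun γ => ?_).trans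
    (smul_finsum (chi F ψ (k (po F))) (fun γ => phi F ψ (glob F γ * g))).symm
  rw [← mul_assoc, phi_mul F ψ hk, smul_eq_mul]

theorem HH_loc {k : GL (Fin 2) (Kc F none)} {i : GL (Fin 2) (Kc F none)}
    (hi : i ∈ Iw (Kc F none)) {z : (Kc F none)ˣ} (hk : k = i * dg z z) :
    HH F (loc F none k) := by
  refine ⟨fun w hw => ?_, ?_, ⟨i, hi, z, ?_⟩⟩
  · rw [loc_ne F hw]; exact Subgroup.one_mem _
  · rw [loc_ne F (by simp)]; exact Subgroup.one_mem _
  · rw [loc_same, hk]

theorem f0_iw (ψ : AddChar F ℂ) {g : GA F} {i : GL (Fin 2) (Kc F none)}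
    (hi : i ∈ Iw (Kc F none)) : f0 F ψ (g * loc F none i) = f0 F ψ g := by
  have h : HH F (loc F none i) := HH_loc F hi (z := 1) (by rw [dg_one, mul_one])
  rw [f0_mul F ψ h, loc_ne F (by simp), chi_one, one_mul]

theorem f0_cen (ψ : AddChar F ℂ) {g : GA F} (z : (Kc F none)ˣ) :
    f0 F ψ (g * loc F none (dg z z)) = f0 F ψ g := by
  have h : HH F (loc F none (dg z z)) :=
    HH_loc F (Subgroup.one_mem _) (z := z) (by rw [one_mul])
  rw [f0_mul F ψ h, loc_ne F (by simp), chi_one, one_mul]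

/-! ### values -/

theorem inf_entry_ge {γ : GL (Fin 2) (RatFunc F)}
    (hfin : ∀ w, w ≠ none → glob F γ w ∈ Cong (Kc F w) 0)
    (ho : glob F γ (po F) ∈ Ip (Kc F (po F))) :
    1 ≤ vK F none ((γ : Matrix (Fin 2) (Fin 2) (RatFunc F)) 0 0) ∧
    1 ≤ vK F none ((γ : Matrix (Fin 2) (Fin 2) (RatFunc F)) 1 1) := by
  obtain ⟨hp, -⟩ := glob_int F γ hfin
  obtain ⟨o1, o2, -⟩ := glob_o F ho
  have key : ∀ x : RatFunc F, (∃ p : F[X], x = algebraMap F[X] (RatFunc F) p) →
      vK F (po F) (x - 1) < 1 → 1 ≤ vK F none x := by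
    rintro x ⟨p, rfl⟩ h
    apply vinf_ge_one
    rintro rfl
    rw [map_zero, zero_sub, Valuation.map_neg, map_one] at h
    exact lt_irrefl _ h
  exact ⟨key _ (hp 0 0) o1, key _ (hp 1 1) o2⟩

/-- `g` is trivial at the finite places -/
theorem SS_fin {γ : GL (Fin 2) (RatFunc F)} {k : GL (Fin 2) (Kc F none)}
    (h : SS F (glob F γ * loc F none k)) :
    (∀ w, w ≠ none → glob F γ w ∈ Cong (Kc F w) 0) ∧
      glob F γ (po F) ∈ Ip (Kc F (po F)) ∧ glob F γ none * k ∈ Ep F := by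
  refine ⟨fun w hw => ?_, ?_, ?_⟩
  · have := h.fin w hw
    rwa [GA_mul, loc_ne F hw, mul_one] at this
  · have := h.o
    rwa [GA_mul, loc_ne F (by simp), mul_one] at this
  · have := h.inf
    rwa [GA_mul, loc_same] at this

theorem f0_loc_one (ψ : AddChar F ℂ) : f0 F ψ 1 = 0 := by
  apply f0_zero
  intro γ h
  rw [← map_one (loc F none)] at h
  obtain ⟨h1, h2, i, hi, z, hz⟩ := SS_fin F h
  obtain ⟨-, hdet⟩ := glob_int F γ h1
  obtain ⟨h00, -⟩ := inf_entry_ge F h1 h2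
  rw [mul_one] at hz
  have hz1 : Valued.v (z : Kc F none) = 1 := by
    apply sq_eq_one
    rw [hz, det_mul', det_mul', det_dg, det_w0, map_mul, map_mul, map_mul, Valuation.map_neg,
      map_one, cong_zero_det hi.1, one_mul, one_mul] at hdet
    exact hdet
  have e : (glob F γ none : GL (Fin 2) (Kc F none)) = w0 * (i * dg z z) := by
    rw [hz, mul_assoc]
  have hj : i * dg z z ∈ Iw (Kc F none) := Subgroup.mul_mem _ hi (dg_mem_iw hz1 hz1)
  have e00 : ((glob F γ none : GL (Fin 2) (Kc F none)) :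
      Matrix (Fin 2) (Fin 2) (Kc F none)) 0 0
      = ((i * dg z z : GL (Fin 2) (Kc F none)) : Matrix (Fin 2) (Fin 2) (Kc F none)) 1 0 := by
    rw [e, gl_mul_apply w0]
    simp
  rw [← v_glob F γ none, e00] at h00
  exact absurd hj.2 (not_lt.2 h00)

theorem SS_w0 : SS F (loc F none w0) := by
  refine ⟨fun w hw => ?_, ?_, ?_⟩
  · rw [loc_ne F hw]; exact Subgroup.one_mem _
  · rw [loc_ne F (by simp)]; exact Subgroup.one_mem _
  · rw [loc_same]
    exact ⟨1, Subgroup.one_mem _, 1, by rw [dg_one, mul_one, mul_one]⟩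

theorem f0_w0 (ψ : AddChar F ℂ) : f0 F ψ (loc F none w0) = 1 := by
  rw [f0_eq F (SS_w0 F), loc_ne F (by simp), chi_one]

/-- the diagonal matrix `(ϖ 0; 0 1)` at infinity -/
def DD [Fintype F] : GL (Fin 2) (Kc F none) := dg (Rinf F).pi 1

theorem w0_et [Fintype F] : w0 * et (Rinf F) = DD F := by
  unfold et DD
  rw [← mul_assoc, w0_dg, mul_assoc, w0_mul_w0, mul_one]

theorem DD_et [Fintype F] : DD F * et (Rinf F) = w0 * dg (Rinf F).pi (Rinf F).pi := by
  rw [← w0_et, mul_assoc, et_sq]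

theorem exp_ne_sq {x : ℤᵐ⁰} : exp (-1 : ℤ) ≠ x * x := by
  intro h
  have hx : x ≠ 0 := by
    rintro rfl
    simp at h
  rw [← exp_log hx, ← exp_add, exp_inj] at h
  omega

theorem f0_w0_et [Fintype F] (ψ : AddChar F ℂ) :
    f0 F ψ (loc F none w0 * loc F none (et (Rinf F))) = 0 := by
  rw [← map_mul, w0_et]
  apply f0_zero
  intro γ h
  obtain ⟨h1, h2, i, hi, z, hz⟩ := SS_fin F h
  obtain ⟨-, hdet⟩ := glob_int F γ h1
  have h3 := congrArg (fun g : GL (Fin 2) (Kc F none) =>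
    Valued.v (g : Matrix (Fin 2) (Fin 2) (Kc F none)).det) hz
  simp only [det_mul', det_w0, det_dg, map_mul, hdet, Valuation.map_neg, map_one,
    cong_zero_det hi.1, one_mul, DD] at h3
  rw [v_pi, Units.val_one, map_one, mul_one] at h3
  exact exp_ne_sq h3

theorem f0_DD2 [Fintype F] (ψ : AddChar F ℂ) :
    f0 F ψ (loc F none (dg ((Rinf F).pi * (Rinf F).pi) 1)) = 0 := by
  apply f0_zero
  intro γ h
  obtain ⟨h1, h2, i, hi, z, hz⟩ := SS_fin F h
  obtain ⟨-, hdet⟩ := glob_int F γ h1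
  obtain ⟨-, h11⟩ := inf_entry_ge F h1 h2
  have h3 := congrArg (fun g : GL (Fin 2) (Kc F none) =>
    Valued.v (g : Matrix (Fin 2) (Fin 2) (Kc F none)).det) hz
  simp only [det_mul', det_w0, det_dg, map_mul, hdet, Valuation.map_neg, map_one,
    cong_zero_det hi.1, one_mul] at h3
  rw [Units.val_mul, map_mul, v_pi, Units.val_one, map_one, mul_one] at h3
  have hz1 : Valued.v (z : Kc F none) < 1 := by
    by_contra hc
    rw [not_lt] at hc
    have : (1 : ℤᵐ⁰) ≤ Valued.v (z : Kc F none) * Valued.v (z : Kc F none) :=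
      one_le_mul hc hc
    rw [← h3, ← exp_add, ← exp_zero, exp_le_exp] at this
    omega
  have e11 := congrArg (fun g : GL (Fin 2) (Kc F none) =>
    (g : Matrix (Fin 2) (Fin 2) (Kc F none)) 1 1) hz
  simp only [gl_mul_apply, dg_val, w0_val, of_apply, cons_val', cons_val_zero,
    cons_val_fin_one, cons_val_one, mul_zero, zero_mul, one_mul, add_zero, zero_add,
    Units.val_one, mul_one] at e11
  rw [← v_glob F γ none, e11, map_mul] at h11
  have h12 := mul_le_mul' (hi.1.1 0 1) (le_refl (Valued.v (z : Kc F none)))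
  rw [one_mul] at h12
  exact absurd hz1 (not_lt.2 (h11.trans h12))

/-- elements of the form `(global unipotent)⁻¹ · (its component at infinity) · w0` -/
theorem f0_unip (ψ : AddChar F ℂ) (γ : GL (Fin 2) (RatFunc F)) (k : GL (Fin 2) (Kc F none))
    (z : (Kc F none)ˣ)
    (h1 : ∀ w, w ≠ none → glob F γ⁻¹ w ∈ Cong (Kc F w) 0)
    (h2 : glob F γ⁻¹ (po F) ∈ Ip (Kc F (po F)))
    (hk : k = glob F γ none * w0 * dg z z) :
    f0 F ψ (loc F none k) = chi F ψ (glob F γ⁻¹ (po F)) := by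
  rw [← f0_left F ψ γ⁻¹ (loc F none k), f0_eq]
  · rw [GA_mul, loc_ne F (by simp), mul_one]
  · refine ⟨fun w hw => ?_, ?_, ?_⟩
    · rw [GA_mul, loc_ne F hw, mul_one]
      exact h1 w hw
    · rw [GA_mul, loc_ne F (by simp), mul_one]
      exact h2
    · rw [GA_mul, loc_same, hk, map_inv, GA_inv]
      refine ⟨1, Subgroup.one_mem _, z, ?_⟩
      rw [mul_one, mul_assoc (glob F γ none), inv_mul_cancel_left]

theorem glob_nU (x : RatFunc F) (w : Pl F) :
    glob F (triL 1 x 1) w = nU (emb F w x) := by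
  apply gl_ext <;> simp [glob_apply, triL_val]

/-- the global lower unipotent matrix -/
def nLK (x : RatFunc F) : GL (Fin 2) (RatFunc F) where
  val := !![1, 0; x, 1]
  inv := !![1, 0; -x, 1]
  val_inv := by
    ext i j
    fin_cases i <;> fin_cases j <;> simp [Matrix.mul_apply, Fin.sum_univ_two]
  inv_val := by
    ext i j
    fin_cases i <;> fin_cases j <;> simp [Matrix.mul_apply, Fin.sum_univ_two]

theorem glob_nL (x : RatFunc F) (w : Pl F) :
    glob F (nLK F x) w = nL (emb F w x) := by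
  apply gl_ext <;> simp [glob_apply, nLK]

theorem v_C_le (w : Pl F) (c : F) : vK F w (RatFunc.C c) ≤ 1 := by
  rcases w with _ | v
  · by_cases h : c = 0
    · simp [h]
    · exact (vinf_C F h).le
  · rw [← RatFunc.algebraMap_C]
    exact v_fin_poly F v _

theorem f0_n (ψ : AddChar F ℂ) (c : F) :
    f0 F ψ (loc F none (nU (emb F none (RatFunc.C c)) * w0)) = ψ (-c) := by
  have hinv : ∀ w, glob F ((triL 1 (RatFunc.C c) 1 : GL (Fin 2) (RatFunc F)))⁻¹ w
      = nU (emb F w (RatFunc.C (-c))) := by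
    intro w
    rw [map_inv, GA_inv, glob_nU, nU_inv, ← map_neg, ← map_neg]
  rw [f0_unip F ψ (triL 1 (RatFunc.C c) 1) _ 1, hinv, chi_nU]
  · intro w _
    rw [hinv]
    exact nU_mem (by rw [v_emb]; exact v_C_le F w _)
  · rw [hinv]
    exact nU_mem_ip (by rw [v_emb]; exact v_C_le F _ _)
  · rw [glob_nU, dg_one, mul_one]

theorem f0_nL (ψ : AddChar F ℂ) (c : F) (z : (Kc F none)ˣ) :
    f0 F ψ (loc F none (nL (emb F none (RatFunc.C c * RatFunc.X)) * w0 * dg z z)) = ψ (-c) := by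
  have hinv : ∀ w, glob F (nLK F (RatFunc.C c * RatFunc.X))⁻¹ w
      = nL (emb F w (RatFunc.C (-c) * RatFunc.X)) := by
    intro w
    rw [map_inv, GA_inv, glob_nL, nL_inv, ← map_neg, map_neg RatFunc.C, neg_mul]
  have hv : ∀ v : HeightOneSpectrum F[X], vK F (some v) (RatFunc.C (-c) * RatFunc.X) ≤ 1 := by
    intro v
    rw [← RatFunc.algebraMap_C, ← RatFunc.algebraMap_X, ← map_mul]
    exact v_fin_poly F v _
  rw [f0_unip F ψ (nLK F (RatFunc.C c * RatFunc.X)) _ z, hinv, chi_nL]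
  · rintro (_ | v) hw
    · exact absurd rfl hw
    · rw [hinv]
      exact nL_mem (by rw [v_emb]; exact hv v)
  · rw [hinv]
    refine nL_mem_ip ?_
    rw [v_emb, map_mul, vo_X]
    refine (mul_le_mul' (v_C_le F _ _) le_rfl).trans_lt ?_
    rw [one_mul, ← exp_zero, exp_lt_exp]
    omega
  · rw [glob_nL]

/-! ### the sums over `GL_2(O) / Iw` -/

variable [Fintype F]

/-- sum over the edges with origin `g` -/
def SA (ψ : AddChar F ℂ) (g : GA F) : ℂ := ∑ p, f0 F ψ (g * loc F none (rep (Rinf F) p))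

/-- sum over the edges with terminus `g` -/
def SB (ψ : AddChar F ℂ) (g : GA F) : ℂ :=
  ∑ p, f0 F ψ (g * loc F none (rep (Rinf F) p) * loc F none (et (Rinf F)))

theorem f0_et_iw (ψ : AddChar F ℂ) {g : GA F} {i : GL (Fin 2) (Kc F none)}
    (hi : i ∈ Iw (Kc F none)) :
    f0 F ψ (g * loc F none i * loc F none (et (Rinf F)))
      = f0 F ψ (g * loc F none (et (Rinf F))) := by
  have : g * loc F none i * loc F none (et (Rinf F))
      = g * loc F none (et (Rinf F)) * loc F none ((et (Rinf F))⁻¹ * i * et (Rinf F)) := by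
    rw [map_mul, map_mul, map_inv]; group
  rw [this, f0_iw F ψ (et_conj_iw _ hi)]

theorem SA_left (ψ : AddChar F ℂ) (γ : GL (Fin 2) (RatFunc F)) (g : GA F) :
    SA F ψ (glob F γ * g) = SA F ψ g := by
  unfold SA
  refine Finset.sum_congr rfl fun p _ => ?_
  rw [mul_assoc, f0_left]

theorem SB_left (ψ : AddChar F ℂ) (γ : GL (Fin 2) (RatFunc F)) (g : GA F) :
    SB F ψ (glob F γ * g) = SB F ψ g := by
  unfold SB
  refine Finset.sum_congr rfl fun p _ => ?_
  rw [mul_assoc, mul_assoc, f0_left, ← mul_assoc]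

theorem SA_K (ψ : AddChar F ℂ) (g : GA F) {k : GL (Fin 2) (Kc F none)}
    (hk : k ∈ Cong (Kc F none) 0) : SA F ψ (g * loc F none k) = SA F ψ g := by
  unfold SA
  have h := sum_rep_mul (Rinf F) (fun κ => f0 F ψ (g * loc F none κ))
    (fun κ i hi => by rw [map_mul, ← mul_assoc, f0_iw F ψ hi]) hk
  simp only [map_mul, ← mul_assoc] at h
  exact h

theorem SB_K (ψ : AddChar F ℂ) (g : GA F) {k : GL (Fin 2) (Kc F none)}
    (hk : k ∈ Cong (Kc F none) 0) : SB F ψ (g * loc F none k) = SB F ψ g := by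
  unfold SB
  have h := sum_rep_mul (Rinf F) (fun κ => f0 F ψ (g * loc F none κ * loc F none (et (Rinf F))))
    (fun κ i hi => by rw [map_mul, ← mul_assoc, f0_et_iw F ψ hi]) hk
  simp only [map_mul, ← mul_assoc] at h
  exact h

theorem loc_dg_comm (w : Pl F) (z : (Kc F w)ˣ) (k : GA F) :
    k * loc F w (dg z z) = loc F w (dg z z) * k := by
  apply GA_ext
  intro w'
  rw [GA_mul, GA_mul]
  by_cases h : w' = w
  · subst h
    rw [loc_same, dg_comm]
  · rw [loc_ne F h, one_mul, mul_one]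

theorem SA_cen (ψ : AddChar F ℂ) (g : GA F) (z : (Kc F none)ˣ) :
    SA F ψ (g * loc F none (dg z z)) = SA F ψ g := by
  unfold SA
  refine Finset.sum_congr rfl fun p _ => ?_
  rw [mul_assoc, ← loc_dg_comm, ← mul_assoc, f0_cen]

theorem SB_cen (ψ : AddChar F ℂ) (g : GA F) (z : (Kc F none)ˣ) :
    SB F ψ (g * loc F none (dg z z)) = SB F ψ g := by
  unfold SB
  refine Finset.sum_congr rfl fun p _ => ?_
  rw [mul_assoc g, mul_assoc g, mul_assoc (loc F none (dg z z)), ← loc_dg_comm, ← mul_assoc,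
    f0_cen, ← mul_assoc]

theorem SA_HH (ψ : AddChar F ℂ) (g : GA F) {k : GA F} (hk : HH F k) (hk1 : k none = 1) :
    SA F ψ (g * k) = chi F ψ (k (po F)) * SA F ψ g := by
  unfold SA
  rw [Finset.mul_sum]
  refine Finset.sum_congr rfl fun p _ => ?_
  rw [mul_assoc, ← loc_commute F _ hk1, ← mul_assoc, f0_mul F ψ hk]

theorem SB_HH (ψ : AddChar F ℂ) (g : GA F) {k : GA F} (hk : HH F k) (hk1 : k none = 1) :
    SB F ψ (g * k) = chi F ψ (k (po F)) * SB F ψ g := by
  unfold SB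
  rw [Finset.mul_sum]
  refine Finset.sum_congr rfl fun p _ => ?_
  rw [mul_assoc g k, ← loc_commute F _ hk1, ← mul_assoc, mul_assoc _ k, ← loc_commute F _ hk1,
    ← mul_assoc, f0_mul F ψ hk]

/-- `g` without its component at infinity -/
def rest (g : GA F) : GA F := g * loc F none (g none)⁻¹

theorem rest_none (g : GA F) : rest F g none = 1 := by
  unfold rest
  rw [GA_mul, loc_same, mul_inv_cancel]

theorem rest_ne (g : GA F) {w : Pl F} (hw : w ≠ none) : rest F g w = g w := by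
  unfold rest
  rw [GA_mul, loc_ne F hw, mul_one]

theorem rest_HH {g : GA F} (h : SS F g) : HH F (rest F g) := by
  refine ⟨fun w hw => ?_, ?_, ⟨1, Subgroup.one_mem _, 1, ?_⟩⟩
  · rw [rest_ne F g hw]; exact h.fin w hw
  · rw [rest_ne F g (by simp)]; exact h.o
  · rw [rest_none, dg_one, mul_one]

theorem sum_psi_neg {ψ : AddChar F ℂ} (hψ : ψ ≠ 1) : ∑ c : F, ψ (-c) = 0 := by
  rw [Fintype.sum_equiv (Equiv.neg F) (fun c => ψ (-c)) (fun c => ψ c) (fun c => rfl)]
  exact AddChar.sum_eq_zero_of_ne_one hψ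

theorem SA_one {ψ : AddChar F ℂ} (hψ : ψ ≠ 1) : SA F ψ 1 = 0 := by
  unfold SA
  rw [sum_option (Rinf F) (fun κ => f0 F ψ (1 * loc F none κ))]
  rw [map_one, one_mul, f0_loc_one, zero_add]
  simp only [one_mul]
  refine Eq.trans (Finset.sum_congr rfl fun c _ => ?_) (sum_psi_neg F hψ)
  rw [Rinf_r, f0_n]

theorem SA_zero {ψ : AddChar F ℂ} (hψ : ψ ≠ 1) (g : GA F) : SA F ψ g = 0 := by
  by_contra hne
  obtain ⟨p, -, hp⟩ := Finset.exists_ne_zero_of_sum_ne_zero hne
  obtain ⟨γ, hγ⟩ := f0_ne F hp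
  set g1 := glob F γ * (g * loc F none (rep (Rinf F) p)) with hg1
  have h1 : SA F ψ g1 = SA F ψ g := by
    rw [hg1, SA_left, SA_K F ψ g (rep_mem _ p)]
  obtain ⟨i, hi, z, hz⟩ := hγ.inf
  have h2 : g1 = 1 * rest F g1 * loc F none (w0 * i) * loc F none (dg z z) := by
    rw [rest, one_mul, mul_assoc, mul_assoc, ← map_mul, ← map_mul, ← hz, inv_mul_cancel,
      map_one, mul_one]
  have h3 : SA F ψ g1 = 0 := by
    rw [h2, SA_cen, SA_K F ψ _ (Subgroup.mul_mem _ w0_mem hi.1),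
      SA_HH F ψ 1 (rest_HH F hγ) (rest_none F _), SA_one F hψ, mul_zero]
  exact hne (h1.symm.trans h3)

theorem inv_pi : ((((Rinf F).pi)⁻¹ : (Kc F none)ˣ) : Kc F none) = emb F none RatFunc.X := by
  rw [Units.val_inv_eq_inv_val, pi_val]
  change (emb F none (1 / RatFunc.X))⁻¹ = _
  rw [← map_inv₀]
  congr 1
  simp

theorem SB_term (c : F) : loc F none (DD F) * loc F none w0 *
      loc F none (nU (emb F none (RatFunc.C c)) * w0) * loc F none (et (Rinf F))
      = loc F none (nL (emb F none (RatFunc.C c * RatFunc.X)) * w0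
        * dg (Rinf F).pi (Rinf F).pi) := by
  rw [← map_mul, ← map_mul, ← map_mul]
  congr 1
  have e3 : DD F * w0 * (nU (emb F none (RatFunc.C c)) * w0) * et (Rinf F)
      = DD F * nL (emb F none (RatFunc.C c)) * et (Rinf F) := by
    have : w0 * (nU (emb F none (RatFunc.C c)) * w0) = nL (emb F none (RatFunc.C c)) := by
      rw [← mul_assoc, w0_nU, mul_assoc, w0_mul_w0, mul_one]
    rw [mul_assoc (DD F) w0, this]
  have e4 : DD F * nL (emb F none (RatFunc.C c))
      = nL (emb F none (RatFunc.C c * RatFunc.X)) * DD F := by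
    unfold DD
    rw [dg_nL, inv_pi, Units.val_one, one_mul, ← map_mul]
  rw [e3, e4, mul_assoc, DD_et, ← mul_assoc]

theorem SB_DD {ψ : AddChar F ℂ} (hψ : ψ ≠ 1) : SB F ψ (loc F none (DD F)) = 0 := by
  rw [← SB_K F ψ (loc F none (DD F)) w0_mem]
  unfold SB
  rw [sum_option (Rinf F) (fun κ => f0 F ψ (loc F none (DD F) * loc F none w0 * loc F none κ
    * loc F none (et (Rinf F))))]
  have e1 : loc F none (DD F) * loc F none w0 * loc F none 1 * loc F none (et (Rinf F))
      = loc F none (dg ((Rinf F).pi * (Rinf F).pi) 1) := by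
    rw [← map_mul, ← map_mul, ← map_mul, mul_one]
    congr 1
    rw [mul_assoc, w0_et, DD, dg_mul, mul_one]
  rw [e1, f0_DD2, zero_add]
  refine Eq.trans (Finset.sum_congr rfl fun c _ => ?_) (sum_psi_neg F hψ)
  exact (congrArg (f0 F ψ) (SB_term F c)).trans (f0_nL F ψ c _)

theorem SB_zero {ψ : AddChar F ℂ} (hψ : ψ ≠ 1) (g : GA F) : SB F ψ g = 0 := by
  by_contra hne
  obtain ⟨p, -, hp⟩ := Finset.exists_ne_zero_of_sum_ne_zero hne
  obtain ⟨γ, hγ⟩ := f0_ne F hp
  set g1 := glob F γ * (g * loc F none (rep (Rinf F) p)) with hg1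
  have h1 : SB F ψ g1 = SB F ψ g := by
    rw [hg1, SB_left, SB_K F ψ g (rep_mem _ p)]
  have hγ' : SS F (g1 * loc F none (et (Rinf F))) := by
    rw [hg1, mul_assoc]
    exact hγ
  obtain ⟨i, hi, z, hz⟩ := hγ'.inf
  rw [GA_mul, loc_same] at hz
  -- `g1 none = w0 * i * z * η⁻¹ = w0 * η * (η⁻¹ i η) * z * η⁻² `
  obtain ⟨j, hj⟩ : ∃ j, j = (et (Rinf F))⁻¹ * i * et (Rinf F) := ⟨_, rfl⟩
  have hjI : j ∈ Iw (Kc F none) := hj ▸ et_conj_iw _ hi
  have h0 : g1 none = DD F * j * dg (z * ((Rinf F).pi)⁻¹) (z * ((Rinf F).pi)⁻¹) := by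
    rw [← eq_mul_inv_iff_mul_eq] at hz
    have h6 : w0 * i * dg z z * (et (Rinf F))⁻¹
        = w0 * (et (Rinf F) * j * (et (Rinf F))⁻¹) * dg z z * (et (Rinf F))⁻¹ := by
      rw [hj]; group
    have h7 : w0 * (et (Rinf F) * j * (et (Rinf F))⁻¹) * dg z z * (et (Rinf F))⁻¹
        = w0 * et (Rinf F) * j * (dg z z * ((et (Rinf F))⁻¹ * (et (Rinf F))⁻¹)) := by
      have a1 : w0 * (et (Rinf F) * j * (et (Rinf F))⁻¹) * dg z z * (et (Rinf F))⁻¹
          = w0 * et (Rinf F) * j * ((et (Rinf F))⁻¹ * dg z z) * (et (Rinf F))⁻¹ := by group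
      rw [a1, ← dg_comm]
      group
    have h8 : (et (Rinf F))⁻¹ * (et (Rinf F))⁻¹ = dg ((Rinf F).pi)⁻¹ ((Rinf F).pi)⁻¹ := by
      rw [← _root_.mul_inv_rev, et_sq, dg_inv]
    rw [hz, h6, h7, h8, w0_et, dg_mul]
  have hrest : rest F g1 = rest F (g1 * loc F none (et (Rinf F))) := by
    apply GA_ext
    intro w
    by_cases hw : w = none
    · subst hw
      rw [rest_none, rest_none]
    · rw [rest_ne F _ hw, rest_ne F _ hw, GA_mul F g1 (loc F none (et (Rinf F))) w,
        loc_ne F hw, mul_one]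
  have h2 : g1 = loc F none (DD F) * rest F g1 * loc F none j
      * loc F none (dg (z * ((Rinf F).pi)⁻¹) (z * ((Rinf F).pi)⁻¹)) := by
    rw [loc_commute F _ (rest_none F g1), mul_assoc, mul_assoc, ← map_mul, ← map_mul,
      ← mul_assoc, ← h0, rest, mul_assoc, ← map_mul, inv_mul_cancel, map_one, mul_one]
  have h3 : SB F ψ g1 = 0 := by
    rw [h2, SB_cen, SB_K F ψ _ hjI.1, SB_HH F ψ _ (by rw [hrest]; exact rest_HH F hγ')
      (rest_none F _), SB_DD F hψ, mul_zero]
  exact hne (h1.symm.trans h3)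

/-! ### the form -/

/-- the cusp form -/
def hh (ψ : AddChar F ℂ) (g : GA F) : ℂ := f0 F ψ g - f0 F ψ (g * loc F none (et (Rinf F)))

theorem hh_left (ψ : AddChar F ℂ) (γ : GL (Fin 2) (RatFunc F)) (g : GA F) :
    hh F ψ (glob F γ * g) = hh F ψ g := by
  unfold hh
  rw [mul_assoc, f0_left, f0_left]

theorem hh_St {ψ : AddChar F ℂ} (hψ : ψ ≠ 1) :
    IsSt (Rinf F) (resAt F (rt F) none) (hh F ψ) where
  ne := by
    intro h
    have h1 := congrFun h (loc F none w0)
    unfold hh at h1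
    rw [f0_w0, f0_w0_et, sub_zero] at h1
    exact one_ne_zero h1
  iw := by
    intro k hk
    funext g
    change hh F ψ (g * loc F none k) = hh F ψ g
    unfold hh
    rw [f0_iw F ψ hk, f0_et_iw F ψ hk]
  cen := by
    intro z
    funext g
    change hh F ψ (g * loc F none (dg z z)) = hh F ψ g
    unfold hh
    rw [f0_cen, mul_assoc, ← loc_dg_comm, ← mul_assoc, f0_cen]
  eta := by
    funext g
    change hh F ψ (g * loc F none (et (Rinf F))) = - hh F ψ g
    unfold hh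
    rw [mul_assoc, ← map_mul, et_sq, f0_cen]
    ring
  sum := by
    funext g
    have h1 : ((resAt F (rt F) none) 1 (hh F ψ)) = hh F ψ := by
      rw [map_one]; rfl
    have h2 := sum_option (Rinf F) (fun κ => (resAt F (rt F) none) κ (hh F ψ))
    rw [h1] at h2
    rw [← h2]
    rw [Finset.sum_apply]
    change ∑ p, (f0 F ψ (g * loc F none (rep (Rinf F) p))
      - f0 F ψ (g * loc F none (rep (Rinf F) p) * loc F none (et (Rinf F)))) = 0
    rw [Finset.sum_sub_distrib]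
    have h3 := SA_zero F hψ g
    have h4 := SB_zero F hψ g
    unfold SA at h3
    unfold SB at h4
    rw [h3, h4, sub_zero]

end Run7.h866.AF
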