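import Mathlib
import Pool.Agent.Run7.h866.AF.Cusp2

/-!
# The second form: smoothness and cuspidality
-/

set_option autoImplicit false
set_option linter.unusedSectionVars false
noncomputable section
open IsDedekindDomain Polynomial WithZero RestrictedProduct Matrix

namespace Run7.h866.AF

variable (F : Type) [Field F]

theorem tri_apply (a : IK F) (b : AK F) (d : IK F) (w : Pl F) :
    tri F a b d w = triL (a w) (b w) (d w) := rfl

theorem tri_unip (x : AK F) (w : Pl F) : tri F 1 x 1 w = nU (x w) := rfl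

theorem tri_add (x y : AK F) : tri F 1 (x + y) 1 = tri F 1 x 1 * tri F 1 y 1 := by
  apply GA_ext
  intro w
  rw [GA_mul, tri_unip, tri_unip, tri_unip, nU_mul]
  rfl

theorem tri_globA (x : RatFunc F) : tri F 1 (globA F x) 1 = glob F (triL 1 x 1) := by
  apply GA_ext
  intro w
  rw [tri_unip, glob_nU]
  rfl

theorem nU_mem_cong {L : Type} [Field L] [Valued L ℤᵐ⁰] {x : L} {n : ℕ}
    (hx : Valued.v x ≤ exp (-(n : ℤ))) : nU x ∈ Cong L n := by
  have h1 : Valued.v x ≤ 1 := hx.trans (by rw [← exp_zero, exp_le_exp]; omega)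
  have h2 := nU_mem h1
  refine ⟨h2.1, h2.2.1, fun i j => ?_⟩
  fin_cases i <;> fin_cases j <;> simp
  rwa [← WithZero.exp_neg]

theorem tri_mem {m : Pl F →₀ ℕ} {x : AK F} (hx : x ∈ W F m) : tri F 1 x 1 ∈ U F m := by
  intro w
  rw [tri_unip]
  exact nU_mem_cong (hx w)

open Classical in
/-- an adele supported at one place -/
def adS (w : Pl F) (s : Kc F w) : AK F :=
  ⟨Pi.single w s, by
    rw [Filter.eventually_cofinite]
    refine (Set.finite_singleton w).subset ?_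
    intro w' hw'
    by_contra hne
    apply hw'
    rw [Pi.single_eq_of_ne (by simpa using hne)]
    exact Subring.zero_mem _⟩

theorem adS_same (w : Pl F) (s : Kc F w) : adS F w s w = s := by
  classical
  exact Pi.single_eq_same (M := fun w : Pl F => Kc F w) w s

theorem adS_ne {w w' : Pl F} (h : w' ≠ w) (s : Kc F w) : adS F w s w' = 0 := by
  classical
  exact Pi.single_eq_of_ne (M := fun w : Pl F => Kc F w) h s

theorem nU_zero {L : Type} [Field L] [Valued L ℤᵐ⁰] : (nU (0 : L) : GL (Fin 2) L) = 1 := by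
  apply gl_ext <;> simp

theorem tri_adS (w : Pl F) (s : Kc F w) : tri F 1 (adS F w s) 1 = loc F w (nU s) := by
  apply GA_ext
  intro w'
  rw [tri_unip]
  by_cases h : w' = w
  · subst h
    rw [adS_same, loc_same]
  · rw [adS_ne F h, loc_ne F h, nU_zero]

theorem tri_nU' {L : Type} [Field L] [Valued L ℤᵐ⁰] (a : Lˣ) (x : L) (d : Lˣ) (c : L) :
    triL a x d * nU c = nU ((a : L) * c * ((d⁻¹ : Lˣ) : L)) * triL a x d := by
  apply gl_ext <;> simp [gl_mul_apply, triL_val, -Units.val_mul]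
  ring

/-- the key translation -/
theorem exists_shift (ψ : AddChar F ℂ) (hψ : ψ ≠ 1) (g : GL (Fin 2) (Kc F (po F))) :
    ∃ κ ∈ Ip (Kc F (po F)), ∃ s : Kc F (po F), g * κ = nU s * g ∧ chi F ψ κ ≠ 1 := by
  obtain ⟨c, hc⟩ : ∃ c, ψ c ≠ 1 := by
    by_contra h
    push Not at h
    exact hψ (by ext c; rw [h c, AddChar.one_apply])
  have hcc : nU (emb F (po F) (RatFunc.C c)) ∈ Ip (Kc F (po F)) :=
    nU_mem_ip (by rw [v_emb]; exact v_C_le F _ _)
  have hcL : nL (emb F (po F) (RatFunc.C c * RatFunc.X)) ∈ Ip (Kc F (po F)) := by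
    refine nL_mem_ip ?_
    rw [v_emb, map_mul, vo_X]
    refine (mul_le_mul' (v_C_le F _ _) le_rfl).trans_lt ?_
    rw [one_mul, ← exp_zero, exp_lt_exp]
    omega
  have hconj : ∀ u ∈ Ip (Kc F (po F)), ∀ k ∈ Ip (Kc F (po F)),
      chi F ψ (u⁻¹ * k * u) = chi F ψ k := by
    intro u hu k hk
    have hu' := Subgroup.inv_mem _ hu
    rw [chi_mul F ψ (Subgroup.mul_mem _ hu' hk) hu, chi_mul F ψ hu' hk, mul_comm, ← mul_assoc,
      ← chi_mul F ψ hu hu', mul_inv_cancel, chi_one, one_mul]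
  obtain ⟨a, x, d, h⟩ := iwasawa g
  rcases h with ⟨y, hy, rfl⟩ | ⟨y, hy, rfl⟩
  · have hy' := nL_mem_ip hy
    refine ⟨(nL y)⁻¹ * nU (emb F (po F) (RatFunc.C c)) * nL y,
      Subgroup.mul_mem _ (Subgroup.mul_mem _ (Subgroup.inv_mem _ hy') hcc) hy',
      (a : Kc F (po F)) * (emb F (po F) (RatFunc.C c)) * ((d⁻¹ : (Kc F (po F))ˣ) : Kc F (po F)),
      ?_, ?_⟩
    · rw [← mul_assoc (nU _), ← tri_nU']
      group
    · rw [hconj _ hy' _ hcc, chi_nU]
      exact hc
  · have hy' := nU_mem_ip hy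
    refine ⟨(nU y)⁻¹ * nL (emb F (po F) (RatFunc.C c * RatFunc.X)) * nU y,
      Subgroup.mul_mem _ (Subgroup.mul_mem _ (Subgroup.inv_mem _ hy') hcL) hy',
      (a : Kc F (po F)) * (emb F (po F) (RatFunc.C c * RatFunc.X))
        * ((d⁻¹ : (Kc F (po F))ˣ) : Kc F (po F)), ?_, ?_⟩
    · rw [← mul_assoc (nU _), ← mul_assoc (nU _), ← tri_nU', mul_assoc (triL a x d) (nU _) w0,
        ← w0_nL]
      group
    · rw [hconj _ hy' _ hcL, chi_nL]
      exact hc

/-- **cuspidality** -/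
theorem cusp_of_chi {ψ : AddChar F ℂ} (hψ : ψ ≠ 1) (f : GA F → ℂ)
    (left : ∀ γ g, f (glob F γ * g) = f g)
    (smooth : ∃ m, ∀ u ∈ U F m, ∀ g, f (g * u) = f g)
    (hchi : ∀ κ ∈ Ip (Kc F (po F)), ∀ g, f (g * loc F (po F) κ) = chi F ψ κ * f g) :
    IsCuspFun F f := by
  intro g
  obtain ⟨m₁, hm₁⟩ := smooth
  obtain ⟨m₀, hm₀⟩ := exists_conj F g m₁
  refine ⟨m₀, fun m hm => ?_⟩
  obtain ⟨κ, hκ, s, hs, hne⟩ := exists_shift F ψ hψ (g (po F))
  set N := (globA F).toAddMonoidHom.range ⊔ W F m with hN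
  set Φ : AK F → ℂ := fun x => f (tri F 1 x 1 * g) with hΦ
  have inv : ∀ x, ∀ n ∈ N, Φ (x + n) = Φ x := by
    intro x n hn
    obtain ⟨y, ⟨r, rfl⟩, z, hz, rfl⟩ := AddSubgroup.mem_sup.1 hn
    simp only [hΦ]
    have e1 : x + ((globA F).toAddMonoidHom r + z) = globA F r + (x + z) := by
      change x + (globA F r + z) = _
      ring
    rw [e1, tri_add, tri_globA, mul_assoc, left, tri_add, mul_assoc]
    have e2 : tri F 1 z 1 * g = g * (g⁻¹ * tri F 1 z 1 * g) := by group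
    rw [e2, ← mul_assoc, hm₁ _ (hm₀ _ (U_anti F hm (tri_mem F hz)))]
  have shift : ∀ x, Φ (x + adS F (po F) s) = chi F ψ κ * Φ x := by
    intro x
    simp only [hΦ]
    have e1 : tri F 1 (adS F (po F) s) 1 * g = g * loc F (po F) κ := by
      rw [tri_adS]
      apply GA_ext
      intro w
      rw [GA_mul, GA_mul]
      by_cases h : w = po F
      · subst h
        rw [loc_same, loc_same, hs]
      · rw [loc_ne F h, loc_ne F h, one_mul, mul_one]
    rw [tri_add, mul_assoc, e1, ← mul_assoc, hchi κ hκ]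
  have out_inv : ∀ x : AK F, Φ ((x : AK F ⧸ N).out) = Φ x := by
    intro x
    obtain ⟨n, hn⟩ := QuotientAddGroup.mk_out_eq_add N x
    rw [hn, inv _ _ n.2]
  have h1 : constTerm F f g m = ∑ᶠ y : AK F ⧸ N, Φ y.out := rfl
  have h2 : ∑ᶠ y : AK F ⧸ N, Φ y.out
      = ∑ᶠ y : AK F ⧸ N, Φ ((y + (adS F (po F) s : AK F ⧸ N)).out) :=
    (finsum_comp_equiv (Equiv.addRight ((adS F (po F) s : AK F ⧸ N)))
      (f := fun y : AK F ⧸ N => Φ y.out)).symm
  have h3 : ∀ y : AK F ⧸ N, Φ ((y + (adS F (po F) s : AK F ⧸ N)).out)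
      = chi F ψ κ * Φ y.out := by
    intro y
    have : y + (adS F (po F) s : AK F ⧸ N) = ((y.out + adS F (po F) s : AK F) : AK F ⧸ N) := by
      rw [QuotientAddGroup.mk_add, QuotientAddGroup.out_eq']
    rw [this, out_inv, shift]
  rw [finsum_congr h3] at h2
  have h4 : ∑ᶠ y : AK F ⧸ N, chi F ψ κ * Φ y.out = chi F ψ κ * ∑ᶠ y : AK F ⧸ N, Φ y.out :=
    (smul_finsum (chi F ψ κ) (fun y : AK F ⧸ N => Φ y.out)).symm
  rw [h4] at h2
  rw [h1]
  by_contra hz
  apply hne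
  have := mul_right_cancel₀ hz (show (1 : ℂ) * _ = chi F ψ κ * _ by rw [one_mul]; exact h2)
  exact this.symm

theorem emb_ne_none : (po F) ≠ none := by simp

/-- elements of `U m` for the level `m = [∞] + 2 [0]` -/
def lev : Pl F →₀ ℕ := Finsupp.single none 1 + Finsupp.single (po F) 2

theorem lev_none : lev F none = 1 := by
  classical
  simp [lev]

theorem lev_o : lev F (po F) = 2 := by
  classical
  simp [lev]

theorem U_lev {u : GA F} (hu : u ∈ U F (lev F)) :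
    (∀ w, u w ∈ Cong (Kc F w) 0) ∧ u none ∈ Iw (Kc F none) ∧ u (po F) ∈ Ip (Kc F (po F)) ∧
      ∀ ψ, chi F ψ (u (po F)) = 1 := by
  have hn := hu none
  have ho := hu (po F)
  rw [lev_none] at hn
  rw [lev_o] at ho
  have lt1 : ∀ x : Kc F (po F), Valued.v x ≤ exp (-((2 : ℕ) : ℤ)) → Valued.v x < 1 := by
    intro x hx
    refine hx.trans_lt ?_
    rw [← exp_zero, exp_lt_exp]
    norm_num
  refine ⟨fun w => cong_anti (Nat.zero_le _) (hu w), cong_one_le_iw le_rfl hn,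
    ⟨cong_one_le_iw (by norm_num) ho, ?_, ?_⟩, fun ψ => ?_⟩
  · have := ho.2.2 0 0
    rw [Matrix.one_apply_eq] at this
    exact lt1 _ this
  · have := ho.2.2 1 1
    rw [Matrix.one_apply_eq] at this
    exact lt1 _ this
  · have h01 := ho.2.2 0 1
    have h10 := ho.2.2 1 0
    rw [Matrix.one_apply_ne (by decide), sub_zero] at h01 h10
    unfold chi
    have r1 : res0 F ((u (po F) : Matrix (Fin 2) (Fin 2) (Kc F (po F))) 0 1) = 0 := by
      apply res0_eq
      rw [map_zero, map_zero, sub_zero]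
      exact lt1 _ h01
    have r2 : res0 F ((u (po F) : Matrix (Fin 2) (Fin 2) (Kc F (po F))) 1 0 / T0 F) = 0 := by
      apply res0_eq
      rw [map_zero, map_zero, sub_zero, map_div₀, v_T0]
      refine (div_le_div_of_nonneg_right h10 zero_le).trans_lt ?_
      rw [← exp_sub, ← exp_zero, exp_lt_exp]
      norm_num
    rw [r1, r2, add_zero, AddChar.map_zero_eq_one]

variable [Fintype F]

/-- conjugation by `η` at infinity -/
theorem HH_et {k : GA F} (h1 : ∀ w, k w ∈ Cong (Kc F w) 0) (h2 : k none ∈ Iw (Kc F none))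
    (h3 : k (po F) ∈ Ip (Kc F (po F))) :
    HH F ((loc F none (et (Rinf F)))⁻¹ * k * loc F none (et (Rinf F))) ∧
      ((loc F none (et (Rinf F)))⁻¹ * k * loc F none (et (Rinf F))) (po F) = k (po F) := by
  have e : ∀ w, w ≠ none →
      ((loc F none (et (Rinf F)))⁻¹ * k * loc F none (et (Rinf F))) w = k w := by
    intro w hw
    rw [GA_mul, GA_mul, GA_inv, loc_ne F hw, inv_one, one_mul, mul_one]
  refine ⟨⟨fun w hw => ?_, ?_, ⟨(et (Rinf F))⁻¹ * k none * et (Rinf F), et_conj_iw _ h2, 1, ?_⟩⟩,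
    e _ (by simp)⟩
  · rw [e w hw]; exact h1 w
  · rw [e _ (by simp)]; exact h3
  · rw [GA_mul, GA_mul, GA_inv, loc_same, dg_one, mul_one]

theorem hh_mul (ψ : AddChar F ℂ) {k : GA F} (h1 : ∀ w, k w ∈ Cong (Kc F w) 0)
    (h2 : k none ∈ Iw (Kc F none)) (h3 : k (po F) ∈ Ip (Kc F (po F))) (g : GA F) :
    hh F ψ (g * k) = chi F ψ (k (po F)) * hh F ψ g := by
  unfold hh
  have hk : HH F k := ⟨fun w _ => h1 w, h3, ⟨k none, h2, 1, by rw [dg_one, mul_one]⟩⟩
  obtain ⟨hk', hk2⟩ := HH_et F h1 h2 h3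
  have e : g * k * loc F none (et (Rinf F)) = g * loc F none (et (Rinf F))
      * ((loc F none (et (Rinf F)))⁻¹ * k * loc F none (et (Rinf F))) := by group
  rw [f0_mul F ψ hk, e, f0_mul F ψ hk', hk2]
  ring

theorem exists_char : ∃ ψ : AddChar F ℂ, ψ ≠ 1 := by
  obtain ⟨ψ, hψ⟩ := (AddChar.exists_apply_ne_zero (α := F) (a := 1)).2 one_ne_zero
  refine ⟨ψ, fun h => hψ ?_⟩
  rw [h, AddChar.one_apply]

/-- (piece K) the second form -/
theorem exists_form_two : ∃ h : GA F → ℂ,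
    (∀ γ g, h (glob F γ * g) = h g) ∧
    (∃ m, ∀ u ∈ U F m, ∀ g, h (g * u) = h g) ∧ IsCuspFun F h ∧
    IsSt (Rinf F) (resAt F (rt F) none) h := by
  obtain ⟨ψ, hψ⟩ := exists_char F
  have smooth : ∃ m, ∀ u ∈ U F m, ∀ g, hh F ψ (g * u) = hh F ψ g := by
    refine ⟨lev F, fun u hu g => ?_⟩
    obtain ⟨h1, h2, h3, h4⟩ := U_lev F hu
    rw [hh_mul F ψ h1 h2 h3, h4, one_mul]
  refine ⟨hh F ψ, hh_left F ψ, smooth, ?_, hh_St F hψ⟩
  refine cusp_of_chi F hψ _ (hh_left F ψ) smooth ?_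
  intro κ hκ g
  have := hh_mul F ψ (k := loc F (po F) κ) (fun w => ?_) ?_ ?_ g
  · rwa [loc_same] at this
  · by_cases h : w = po F
    · subst h
      rw [loc_same]; exact hκ.1.1
    · rw [loc_ne F h]; exact Subgroup.one_mem _
  · rw [loc_ne F (by simp)]; exact Subgroup.one_mem _
  · rw [loc_same]; exact hκ

end Run7.h866.AF
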