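import Mathlib
import Pool.Agent.Run7.h866.AF.Cusp3

/-!
# Reduction theory: types of elements of `GL_2(𝔸)`
-/

set_option autoImplicit false
set_option linter.unusedSectionVars false
noncomputable section
open IsDedekindDomain Polynomial WithZero RestrictedProduct Matrix

namespace Run7.h866.AF

variable (F : Type) [Field F] [Fintype F]

/-- `t` as a unit of `K_∞` -/
def TT : (Kc F none)ˣ := (Rinf F).pi⁻¹

theorem TT_val : ((TT F : (Kc F none)ˣ) : Kc F none) = emb F none RatFunc.X := inv_pi F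

theorem v_TT : Valued.v ((TT F : (Kc F none)ˣ) : Kc F none) = exp (1 : ℤ) := by
  rw [TT, Units.val_inv_eq_inv_val, map_inv₀, v_pi, ← WithZero.exp_neg, neg_neg]

/-- the vertices of the half line -/
def dd (n : ℕ) : GL (Fin 2) (Kc F none) := dg ((TT F) ^ n) 1

/-- the element `g` is of type `n` -/
def typ (g : GA F) (n : ℕ) : Prop :=
  ∃ (γ : GL (Fin 2) (RatFunc F)) (k : GA F) (z : (Kc F none)ˣ), (∀ w, k w ∈ Cong (Kc F w) 0) ∧
    g = glob F γ * loc F none (dd F n) * k * loc F none (dg z z)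

theorem typ_left {g : GA F} {n : ℕ} (h : typ F g n) (γ : GL (Fin 2) (RatFunc F)) :
    typ F (glob F γ * g) n := by
  obtain ⟨δ, k, z, hk, rfl⟩ := h
  exact ⟨γ * δ, k, z, hk, by rw [map_mul]; simp only [mul_assoc]⟩

theorem typ_right {g : GA F} {n : ℕ} (h : typ F g n) {k : GA F}
    (hk : ∀ w, k w ∈ Cong (Kc F w) 0) : typ F (g * k) n := by
  obtain ⟨δ, k', z, hk', rfl⟩ := h
  refine ⟨δ, k' * k, z, fun w => Subgroup.mul_mem _ (hk' w) (hk w), ?_⟩
  rw [mul_assoc, ← loc_dg_comm]
  simp only [mul_assoc]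

theorem typ_cen {g : GA F} {n : ℕ} (h : typ F g n) (y : (Kc F none)ˣ) :
    typ F (g * loc F none (dg y y)) n := by
  obtain ⟨δ, k', z, hk', rfl⟩ := h
  refine ⟨δ, k', z * y, hk', ?_⟩
  rw [mul_assoc _ (loc F none (dg z z)), ← map_mul, dg_mul]

theorem typ_loc_K {h : GL (Fin 2) (Kc F none)} {n : ℕ} (H : typ F (loc F none h) n)
    {k : GL (Fin 2) (Kc F none)} (hk : k ∈ Cong (Kc F none) 0) :
    typ F (loc F none (h * k)) n := by
  rw [map_mul]
  refine typ_right F H fun w => ?_
  by_cases hw : w = none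
  · subst hw; rw [loc_same]; exact hk
  · rw [loc_ne F hw]; exact Subgroup.one_mem _

theorem typ_loc_cen {h : GL (Fin 2) (Kc F none)} {n : ℕ} (H : typ F (loc F none h) n)
    (y : (Kc F none)ˣ) : typ F (loc F none (h * dg y y)) n := by
  rw [map_mul]
  exact typ_cen F H y

/-- left multiplication at infinity by a global element integral at the finite places -/
theorem typ_loc_left {h : GL (Fin 2) (Kc F none)} {n : ℕ} (H : typ F (loc F none h) n)
    {γ : GL (Fin 2) (RatFunc F)} (hγ : ∀ w, w ≠ none → glob F γ w ∈ Cong (Kc F w) 0) :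
    typ F (loc F none (glob F γ none * h)) n := by
  set k : GA F := (glob F γ)⁻¹ * loc F none (glob F γ none) with hk
  have hk0 : k none = 1 := by
    rw [hk, GA_mul, GA_inv, loc_same, inv_mul_cancel]
  have hkw : ∀ w, k w ∈ Cong (Kc F w) 0 := by
    intro w
    by_cases hw : w = none
    · subst hw; rw [hk0]; exact Subgroup.one_mem _
    · rw [hk, GA_mul, GA_inv, loc_ne F hw, mul_one]
      exact Subgroup.inv_mem _ (hγ w hw)
  have e : loc F none (glob F γ none * h) = glob F γ * loc F none h * k := by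
    rw [mul_assoc, loc_commute F h hk0, hk, map_mul]
    group
  rw [e]
  exact typ_right F (typ_left F H γ) hkw

theorem typ_dd (n : ℕ) : typ F (loc F none (dd F n)) n :=
  ⟨1, 1, 1, fun w => Subgroup.one_mem _, by rw [map_one, one_mul, mul_one, dg_one, map_one, mul_one]⟩

/-- the global element `w0` -/
def wK : GL (Fin 2) (RatFunc F) where
  val := !![0, 1; 1, 0]
  inv := !![0, 1; 1, 0]
  val_inv := by
    ext i j
    fin_cases i <;> fin_cases j <;> simp [Matrix.mul_apply, Fin.sum_univ_two]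
  inv_val := by
    ext i j
    fin_cases i <;> fin_cases j <;> simp [Matrix.mul_apply, Fin.sum_univ_two]

theorem glob_wK (w : Pl F) : glob F (wK F) w = w0 := by
  apply gl_ext <;> simp [glob_apply, wK]

/-- `diag(x, 1)` with `x = t^m u` -/
theorem typ_diag (a : (Kc F none)ˣ) : ∃ n, typ F (loc F none (dg a 1)) n := by
  have hne : Valued.v (a : Kc F none) ≠ 0 := (Valuation.ne_zero_iff _).2 a.ne_zero
  set m : ℤ := log (Valued.v (a : Kc F none)) with hm
  have hva : Valued.v (a : Kc F none) = exp m := (exp_log hne).symm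
  rcases le_or_gt 0 m with h0 | h0
  · obtain ⟨n, hn⟩ := Int.eq_ofNat_of_zero_le h0
    refine ⟨n, ?_⟩
    set u : (Kc F none)ˣ := ((TT F) ^ n)⁻¹ * a with hu
    have hvu : Valued.v (u : Kc F none) = 1 := by
      rw [hu, Units.val_mul, map_mul, Units.val_inv_eq_inv_val, map_inv₀, Units.val_pow_eq_pow_val,
        map_pow, v_TT, hva, ← WithZero.exp_nsmul, ← WithZero.exp_neg, ← exp_add, ← exp_zero]
      congr 1
      rw [hn]; simp
    have e : dg a 1 = dd F n * dg u 1 := by
      unfold dd
      rw [dg_mul, hu, mul_inv_cancel_left, mul_one]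
    rw [e]
    exact typ_loc_K F (typ_dd F n) (dg_mem hvu (by simp))
  · obtain ⟨n, hn⟩ := Int.eq_ofNat_of_zero_le (show 0 ≤ -m by omega)
    refine ⟨n, ?_⟩
    set u : (Kc F none)ˣ := ((TT F) ^ n)⁻¹ * a⁻¹ with hu
    have hvu : Valued.v (u : Kc F none) = 1 := by
      rw [hu, Units.val_mul, map_mul, Units.val_inv_eq_inv_val, map_inv₀, Units.val_pow_eq_pow_val,
        map_pow, v_TT, Units.val_inv_eq_inv_val, map_inv₀, hva, ← WithZero.exp_nsmul, ← WithZero.exp_neg,
        ← WithZero.exp_neg, ← exp_add, ← exp_zero]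
      congr 1
      rw [hn]; simp
    have e : dg a 1 = glob F (wK F) none * (dd F n * dg u 1 * w0 * dg a a) := by
      rw [glob_wK]
      unfold dd
      rw [dg_mul, hu, mul_inv_cancel_left, mul_one, ← mul_assoc, ← mul_assoc, w0_dg,
        mul_assoc (dg 1 a⁻¹), w0_mul_w0, mul_one, dg_mul, one_mul, inv_mul_cancel]
    rw [e]
    refine typ_loc_left F (typ_loc_cen F (typ_loc_K F (typ_loc_K F (typ_dd F n)
      (dg_mem hvu (by simp))) w0_mem) a) ?_
    intro w _
    rw [glob_wK]
    exact w0_mem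

theorem dense_poly (x : Kc F none) : ∃ p : F[X],
    Valued.v (x + emb F none (algebraMap F[X] (RatFunc F) p)) < 1 := by
  obtain ⟨y, hy⟩ := dense_emb F none x 0
  rw [exp_zero] at hy
  obtain ⟨p, hp⟩ := poly_part F y
  refine ⟨-p, ?_⟩
  have : x + emb F none (algebraMap F[X] (RatFunc F) (-p))
      = (x - emb F none y) + emb F none (y - algebraMap F[X] (RatFunc F) p) := by
    rw [map_neg, map_neg, map_sub]; ring
  rw [this]
  refine (Valuation.map_add _ _ _).trans_lt (max_lt hy ?_)
  rw [v_emb]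
  exact hp

theorem nU_poly_mem (p : F[X]) (w : Pl F) (hw : w ≠ none) :
    glob F (triL 1 (algebraMap F[X] (RatFunc F) p) 1) w ∈ Cong (Kc F w) 0 := by
  rw [glob_nU]
  refine nU_mem ?_
  rw [v_emb]
  rcases w with _ | v
  · exact absurd rfl hw
  · exact v_fin_poly F v p

/-- **reduction theory** -/
theorem typ_tri : ∀ (N : ℕ) (a : (Kc F none)ˣ) (x : Kc F none),
    exp (-(N : ℤ)) ≤ Valued.v (a : Kc F none) → ∃ n, typ F (loc F none (triL a x 1)) n := by
  intro N
  induction N using Nat.strong_induction_on with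
  | _ N ih =>
    intro a x ha
    obtain ⟨p, hp⟩ := dense_poly F x
    set y := x + emb F none (algebraMap F[X] (RatFunc F) p) with hy
    suffices H : ∃ n, typ F (loc F none (triL a y 1)) n by
      obtain ⟨n, hn⟩ := H
      refine ⟨n, ?_⟩
      have e : triL a x 1 = glob F (triL 1 (algebraMap F[X] (RatFunc F) (-p)) 1) none
          * triL a y 1 := by
        rw [glob_nU]
        apply gl_ext <;> simp [gl_mul_apply, triL_val, -Units.val_mul, hy]
      rw [e]
      exact typ_loc_left F hn (fun w hw => nU_poly_mem F _ w hw)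
    by_cases hya : Valued.v y ≤ Valued.v (a : Kc F none)
    · -- `y` can be removed
      obtain ⟨n, hn⟩ := typ_diag F a
      refine ⟨n, ?_⟩
      have hane : Valued.v (a : Kc F none) ≠ 0 := (Valuation.ne_zero_iff _).2 a.ne_zero
      have e : triL a y 1 = dg a 1 * nU (((a⁻¹ : (Kc F none)ˣ) : Kc F none) * y) := by
        apply gl_ext <;> simp [gl_mul_apply, triL_val, -Units.val_mul]
      rw [e]
      refine typ_loc_K F hn (nU_mem ?_)
      rw [map_mul, Units.val_inv_eq_inv_val, map_inv₀]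
      rw [inv_mul_le_one₀ (zero_lt_iff.2 hane)]
      exact hya
    · rw [not_le] at hya
      have hy0 : y ≠ 0 := by
        intro h
        rw [h, map_zero] at hya
        exact not_lt_zero hya
      set z : (Kc F none)ˣ := Units.mk0 y hy0 with hz
      have hvy : Valued.v y ≠ 0 := (Valuation.ne_zero_iff _).2 hy0
      set a' : (Kc F none)ˣ := -(a * z⁻¹ * z⁻¹) with ha'
      -- valuations
      set j : ℤ := log (Valued.v y) with hj
      have hj' : Valued.v y = exp j := (exp_log hvy).symm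
      have hj0 : j < 0 := by
        rw [hj', ← exp_zero, exp_lt_exp] at hp
        exact hp
      have hane : Valued.v (a : Kc F none) ≠ 0 := (Valuation.ne_zero_iff _).2 a.ne_zero
      set m : ℤ := log (Valued.v (a : Kc F none)) with hm
      have hm' : Valued.v (a : Kc F none) = exp m := (exp_log hane).symm
      have hmj : m < j := by
        rw [hj', hm', exp_lt_exp] at hya
        exact hya
      have hNm : -(N : ℤ) ≤ m := by
        rw [hm', exp_le_exp] at ha
        exact ha
      have hva' : Valued.v (a' : Kc F none) = exp (m - j - j) := by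
        rw [ha', Units.val_neg, Valuation.map_neg, Units.val_mul, Units.val_mul, map_mul, map_mul,
          Units.val_inv_eq_inv_val, map_inv₀, hz, Units.val_mk0, hm', hj', ← WithZero.exp_neg,
          ← exp_add, ← exp_add]
        congr 1
      obtain ⟨n, hn⟩ := ih (N - 1) (by omega) a' (((z⁻¹ : (Kc F none)ˣ) : Kc F none)) (by
        rw [hva', exp_le_exp]
        omega)
      refine ⟨n, ?_⟩
      have e : triL a y 1 = glob F (wK F) none * (triL a' (((z⁻¹ : (Kc F none)ˣ) : Kc F none)) 1
          * nL ((a : Kc F none) * ((z⁻¹ : (Kc F none)ˣ) : Kc F none)) * dg z z) := by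
        rw [glob_wK]
        have hzz : ((z : (Kc F none)ˣ) : Kc F none) = y := rfl
        have h1 : y⁻¹ * y = 1 := inv_mul_cancel₀ hy0
        have h2 : (a : Kc F none) * y⁻¹ * y = a := by rw [mul_assoc, h1, mul_one]
        have h3 : ((a * z⁻¹ * z⁻¹ : (Kc F none)ˣ) : Kc F none) = y⁻¹ * (a * y⁻¹) := by
          rw [Units.val_mul, Units.val_mul, Units.val_inv_eq_inv_val, hzz]; ring
        apply gl_ext <;> simp [gl_mul_apply, triL_val, -Units.val_mul, ha', hzz, h1, h2, h3]
      rw [e]
      refine typ_loc_left F (typ_loc_cen F (typ_loc_K F hn (nL_mem ?_)) z) ?_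
      · rw [map_mul, Units.val_inv_eq_inv_val, map_inv₀, hz, Units.val_mk0]
        rw [← div_eq_mul_inv]
        exact (div_le_one₀ (zero_lt_iff.2 hvy)).2 hya.le
      · intro w _
        rw [glob_wK]
        exact w0_mem

/-- every element at infinity has a type -/
theorem typ_loc (h : GL (Fin 2) (Kc F none)) : ∃ n, typ F (loc F none h) n := by
  have key : ∀ (a : (Kc F none)ˣ) (x : Kc F none) (d : (Kc F none)ˣ),
      ∃ n, typ F (loc F none (triL a x d)) n := by
    intro a x d
    obtain ⟨N, hN⟩ := exists_exp_bound (Valued.v (((a * d⁻¹)⁻¹ : (Kc F none)ˣ) : Kc F none))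
    have hb : exp (-(N : ℤ)) ≤ Valued.v ((a * d⁻¹ : (Kc F none)ˣ) : Kc F none) := by
      rw [Units.val_inv_eq_inv_val, map_inv₀] at hN
      have hne : Valued.v ((a * d⁻¹ : (Kc F none)ˣ) : Kc F none) ≠ 0 :=
        (Valuation.ne_zero_iff _).2 (Units.ne_zero _)
      rw [WithZero.exp_neg]
      exact inv_le_of_inv_le₀ (zero_lt_iff.2 hne) hN
    obtain ⟨n, hn⟩ := typ_tri F N (a * d⁻¹) (x * ((d⁻¹ : (Kc F none)ˣ) : Kc F none)) hb
    refine ⟨n, ?_⟩
    have e : triL a x d = triL (a * d⁻¹) (x * ((d⁻¹ : (Kc F none)ˣ) : Kc F none)) 1 * dg d d := by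
      apply gl_ext <;> simp [gl_mul_apply, triL_val, -Units.val_mul]
      rw [← Units.val_mul, inv_mul_cancel_right]
    rw [e]
    exact typ_loc_cen F hn d
  obtain ⟨a, x, d, h' | h'⟩ := iwasawa h
  · obtain ⟨y, hy, rfl⟩ := h'
    obtain ⟨n, hn⟩ := key a x d
    exact ⟨n, typ_loc_K F hn (nL_mem hy.le)⟩
  · obtain ⟨y, hy, rfl⟩ := h'
    obtain ⟨n, hn⟩ := key a x d
    exact ⟨n, typ_loc_K F (typ_loc_K F hn w0_mem) (nU_mem hy)⟩

/-- **uniqueness of the type** -/
theorem typ_unique_aux {m n : ℕ} (hmn : m < n) {δ : GL (Fin 2) (RatFunc F)} {k : GA F}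
    (hk : ∀ w, k w ∈ Cong (Kc F w) 0) {z : (Kc F none)ˣ}
    (h : glob F δ * loc F none (dd F n) = loc F none (dd F m) * k * loc F none (dg z z)) :
    False := by
  have hfin : ∀ w, w ≠ none → glob F δ w ∈ Cong (Kc F w) 0 := by
    intro w hw
    have := congrArg (fun g : GA F => g w) h
    simp only [GA_mul, loc_ne F hw, mul_one, one_mul] at this
    rw [this]
    exact hk w
  obtain ⟨hp, hdet⟩ := glob_int F δ hfin
  have hinf := congrArg (fun g : GA F => g none) h
  simp only [GA_mul, loc_same] at hinf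
  have hd := congrArg (fun g : GL (Fin 2) (Kc F none) =>
    Valued.v (g : Matrix (Fin 2) (Fin 2) (Kc F none)).det) hinf
  simp only [det_mul', det_dg, dd, map_mul, hdet, cong_zero_det (hk none), one_mul, mul_one,
    Units.val_one, map_one, Units.val_pow_eq_pow_val, map_pow, v_TT, ← WithZero.exp_nsmul] at hd
  have hzne : Valued.v (z : Kc F none) ≠ 0 := (Valuation.ne_zero_iff _).2 z.ne_zero
  set s : ℤ := log (Valued.v (z : Kc F none)) with hs
  have hs' : Valued.v (z : Kc F none) = exp s := (exp_log hzne).symm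
  rw [hs', ← exp_add, ← exp_add, exp_inj] at hd
  simp only [nsmul_eq_mul, mul_one] at hd
  have e00 := congrArg (fun g : GL (Fin 2) (Kc F none) =>
    Valued.v ((g : Matrix (Fin 2) (Fin 2) (Kc F none)) 0 0)) hinf
  have e10 := congrArg (fun g : GL (Fin 2) (Kc F none) =>
    Valued.v ((g : Matrix (Fin 2) (Fin 2) (Kc F none)) 1 0)) hinf
  simp only [gl_mul_apply, dd, dg_val, of_apply, cons_val', cons_val_zero,
    cons_val_fin_one, cons_val_one, mul_zero, zero_mul, one_mul, add_zero, zero_add,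
    Units.val_one, mul_one, map_mul, Units.val_pow_eq_pow_val, map_pow, v_TT, ← WithZero.exp_nsmul, hs',
    v_glob] at e00 e10
  have h00 := (hk none).1 0 0
  have h10 := (hk none).1 1 0
  have b00 : vK F none ((δ : Matrix (Fin 2) (Fin 2) (RatFunc F)) 0 0) < 1 := by
    by_contra hc
    rw [not_lt] at hc
    have h1 : exp (n • (1 : ℤ)) ≤ exp (m • (1 : ℤ)) * 1 * exp s :=
      calc exp (n • (1 : ℤ)) = 1 * exp (n • (1 : ℤ)) := (one_mul _).symm
        _ ≤ vK F none ((δ : Matrix (Fin 2) (Fin 2) (RatFunc F)) 0 0) * exp (n • (1 : ℤ)) :=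
          mul_le_mul' hc le_rfl
        _ = _ := e00
        _ ≤ _ := mul_le_mul' (mul_le_mul' le_rfl h00) le_rfl
    rw [mul_one, ← exp_add, exp_le_exp] at h1
    simp only [nsmul_eq_mul, mul_one] at h1
    omega
  have b10 : vK F none ((δ : Matrix (Fin 2) (Fin 2) (RatFunc F)) 1 0) < 1 := by
    by_contra hc
    rw [not_lt] at hc
    have h1 : exp (n • (1 : ℤ)) ≤ 1 * exp s :=
      calc exp (n • (1 : ℤ)) = 1 * exp (n • (1 : ℤ)) := (one_mul _).symm
        _ ≤ vK F none ((δ : Matrix (Fin 2) (Fin 2) (RatFunc F)) 1 0) * exp (n • (1 : ℤ)) :=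
          mul_le_mul' hc le_rfl
        _ = _ := e10
        _ ≤ _ := mul_le_mul' h10 le_rfl
    rw [one_mul, exp_le_exp] at h1
    simp only [nsmul_eq_mul, mul_one] at h1
    omega
  obtain ⟨p00, q00⟩ := hp 0 0
  obtain ⟨p10, q10⟩ := hp 1 0
  rw [q00] at b00
  rw [q10] at b10
  have z00 := zero_of_lt F b00
  have z10 := zero_of_lt F b10
  apply gl_det_ne (glob F δ none)
  rw [gl_det_eq, glob_apply, glob_apply, glob_apply, glob_apply, q00, q10, z00, z10]
  simp

theorem typ_unique {g : GA F} {m n : ℕ} (hm : typ F g m) (hn : typ F g n) : m = n := by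
  have key : ∀ {m n : ℕ}, typ F g m → typ F g n → m < n → False := by
    rintro m n ⟨γ, k, z, hk, hg⟩ ⟨γ', k', z', hk', hg'⟩ hlt
    rw [hg] at hg'
    refine typ_unique_aux F hlt (δ := γ⁻¹ * γ') (k := k * k'⁻¹) (z := z * z'⁻¹)
      (fun w => Subgroup.mul_mem _ (hk w) (Subgroup.inv_mem _ (hk' w))) ?_
    have e1 : loc F none (dg (z * z'⁻¹) (z * z'⁻¹))
        = loc F none (dg z z) * (loc F none (dg z' z'))⁻¹ := by
      rw [← map_inv, ← map_mul, dg_inv, dg_mul]
    rw [map_mul, map_inv, e1]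
    have e2 : loc F none (dd F m) * (k * k'⁻¹) * (loc F none (dg z z) * (loc F none (dg z' z'))⁻¹)
        = loc F none (dd F m) * k * loc F none (dg z z) * (loc F none (dg z' z'))⁻¹ * k'⁻¹ := by
      have c1 : ∀ k : GA F, k * loc F none (dg z z) = loc F none (dg z z) * k :=
        loc_dg_comm F none z
      have c2 : ∀ k : GA F, k * (loc F none (dg z' z'))⁻¹ = (loc F none (dg z' z'))⁻¹ * k := by
        intro k
        rw [← map_inv, dg_inv]
        exact loc_dg_comm F none _ k
      have c3 : k'⁻¹ * (loc F none (dg z z) * (loc F none (dg z' z'))⁻¹)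
          = loc F none (dg z z) * (loc F none (dg z' z'))⁻¹ * k'⁻¹ := by
        rw [← mul_assoc, c1, mul_assoc, c2, ← mul_assoc]
      rw [mul_assoc, mul_assoc k, c3]
      simp only [mul_assoc]
    rw [e2]
    have e3 : (glob F γ)⁻¹ * glob F γ' * loc F none (dd F n)
        = (glob F γ)⁻¹ * (glob F γ' * loc F none (dd F n) * k' * loc F none (dg z' z'))
          * (loc F none (dg z' z'))⁻¹ * k'⁻¹ := by group
    rw [e3, ← hg']
    group
  rcases lt_trichotomy m n with h | h | h
  · exact (key hm hn h).elim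
  · exact h
  · exact (key hn hm h).elim

end Run7.h866.AF
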