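import Mathlib
import Pool.Agent.Run7.h866.AF.Red
import Pool.Agent.Run7.h634.AF.Cen

/-!
# The first form: the Eisenstein cochain of level one with its Iwahori shift
-/

set_option autoImplicit false
set_option linter.unusedSectionVars false
noncomputable section
open IsDedekindDomain Polynomial WithZero RestrictedProduct Matrix

namespace Run7.h866.AF

variable (F : Type) [Field F] [Fintype F]

theorem exists_typ (g : GA F) : ∃ n, typ F g n := by
  obtain ⟨γ, h, k, _, hk, rfl⟩ := Run7.h634.AF.sa_gl2 F g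
  obtain ⟨n, hn⟩ := typ_loc F h
  exact ⟨n, typ_right F (typ_left F hn γ) hk⟩

/-- the unramified functions with trivial central character at infinity -/
structure Inv (H : GA F → ℂ) : Prop where
  left : ∀ γ g, H (glob F γ * g) = H g
  right : ∀ g k, (∀ w, k w ∈ Cong (Kc F w) 0) → H (g * k) = H g
  cen : ∀ g z, H (g * loc F none (dg z z)) = H g

variable {F}

theorem Inv.of_typ {H : GA F → ℂ} (hH : Inv F H) {g : GA F} {n : ℕ} (h : typ F g n) :
    H g = H (loc F none (dd F n)) := by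
  obtain ⟨γ, k, z, hk, rfl⟩ := h
  rw [hH.cen, hH.right _ _ hk, hH.left]

theorem loc_int {w : Pl F} {k : GL (Fin 2) (Kc F w)} (hk : k ∈ Cong (Kc F w) 0) (w' : Pl F) :
    loc F w k w' ∈ Cong (Kc F w') 0 := by
  by_cases h : w' = w
  · subst h; rw [loc_same]; exact hk
  · rw [loc_ne F h]; exact Subgroup.one_mem _

theorem Inv.loc_K {H : GA F → ℂ} (hH : Inv F H) {w : Pl F} {k : GL (Fin 2) (Kc F w)}
    (hk : k ∈ Cong (Kc F w) 0) (g : GA F) : H (g * loc F w k) = H g :=
  hH.right _ _ (loc_int hk)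

theorem loc_comm_ne {w w' : Pl F} (h : w ≠ w') (a : GL (Fin 2) (Kc F w))
    (b : GL (Fin 2) (Kc F w')) : loc F w a * loc F w' b = loc F w' b * loc F w a :=
  loc_commute F a (loc_ne F h b)

variable (F) in
/-- the Hecke operator at `w` -/
def TH (w : Pl F) (R : Res (Kc F w)) (H : GA F → ℂ) (g : GA F) : ℂ :=
  ∑ p, H (g * loc F w (rep R p * et R))

theorem TH_K {w : Pl F} (R : Res (Kc F w)) {H : GA F → ℂ} (hH : Inv F H)
    {k : GL (Fin 2) (Kc F w)} (hk : k ∈ Cong (Kc F w) 0) (g : GA F) :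
    TH F w R H (g * loc F w k) = TH F w R H g := by
  unfold TH
  have h := sum_rep_mul R (fun κ => H (g * loc F w (κ * et R))) (fun κ i hi => by
    have e : κ * i * et R = κ * et R * ((et R)⁻¹ * i * et R) := by group
    rw [e, map_mul, ← mul_assoc, hH.loc_K (et_conj_iw R hi).1]) hk
  simp only [mul_assoc] at h
  rw [← h]
  refine Finset.sum_congr rfl fun p _ => ?_
  rw [mul_assoc, ← map_mul]

theorem TH_Inv {w : Pl F} (R : Res (Kc F w)) {H : GA F → ℂ} (hH : Inv F H) :
    Inv F (TH F w R H) := by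
  refine ⟨fun γ g => ?_, fun g k hk => ?_, fun g z => ?_⟩
  · unfold TH
    refine Finset.sum_congr rfl fun p _ => ?_
    rw [mul_assoc, hH.left]
  · set k' : GA F := (loc F w (k w))⁻¹ * k with hk'
    have h1 : k' w = 1 := by
      rw [hk', GA_mul, GA_inv, loc_same, inv_mul_cancel]
    have h2 : ∀ w', k' w' ∈ Cong (Kc F w') 0 := fun w' =>
      Subgroup.mul_mem _ (Subgroup.inv_mem _ (loc_int (hk w) w')) (hk w')
    have h3 : k = loc F w (k w) * k' := by rw [hk', mul_inv_cancel_left]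
    rw [h3, ← mul_assoc]
    rw [← TH_K R hH (hk w) g]
    unfold TH
    refine Finset.sum_congr rfl fun p _ => ?_
    rw [mul_assoc _ k', ← loc_commute F _ h1, ← mul_assoc, hH.right _ _ h2]
  · unfold TH
    refine Finset.sum_congr rfl fun p _ => ?_
    rw [mul_assoc, ← loc_dg_comm, ← mul_assoc, hH.cen]

theorem TH_comm {w : Pl F} (hw : w ≠ none) (R : Res (Kc F w)) (R' : Res (Kc F none))
    (H : GA F → ℂ) : TH F none R' (TH F w R H) = TH F w R (TH F none R' H) := by
  funext g
  unfold TH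
  rw [Finset.sum_comm]
  refine Finset.sum_congr rfl fun p _ => Finset.sum_congr rfl fun q _ => ?_
  rw [mul_assoc, mul_assoc, loc_comm_ne hw]

theorem TH_const {w : Pl F} (R : Res (Kc F w)) (c : ℂ) :
    TH F w R (fun _ => c) = fun _ => ((Fintype.card R.k : ℂ) + 1) * c := by
  funext g
  unfold TH
  rw [Finset.sum_const, Finset.card_univ, Fintype.card_option, nsmul_eq_mul]
  push_cast
  ring

theorem TH_sub {w : Pl F} (R : Res (Kc F w)) (H H' : GA F → ℂ) :
    TH F w R (H - H') = TH F w R H - TH F w R H' := by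
  funext g
  simp only [TH, Pi.sub_apply, Finset.sum_sub_distrib]

theorem TH_add {w : Pl F} (R : Res (Kc F w)) (H H' : GA F → ℂ) :
    TH F w R (H + H') = TH F w R H + TH F w R H' := by
  funext g
  simp only [TH, Pi.add_apply, Finset.sum_add_distrib]

theorem TH_smul {w : Pl F} (R : Res (Kc F w)) (c : ℂ) (H : GA F → ℂ) :
    TH F w R (c • H) = c • TH F w R H := by
  funext g
  simp only [TH, Pi.smul_apply, smul_eq_mul, Finset.mul_sum]

/-! ### the neighbours at infinity -/

theorem TT_mul_pi : TT F * (Rinf F).pi = 1 := inv_mul_cancel _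

theorem typ_et (n : ℕ) : typ F (loc F none (dd F n * et (Rinf F))) (n + 1) := by
  have e : dd F n * et (Rinf F) = dd F (n + 1) * w0 * dg (Rinf F).pi (Rinf F).pi := by
    have h1 : dg ((TT F) ^ n) 1 * dg 1 (Rinf F).pi
        = dg ((TT F) ^ (n + 1)) 1 * dg (Rinf F).pi (Rinf F).pi := by
      rw [dg_mul, dg_mul, pow_succ, mul_assoc, TT_mul_pi, mul_one, one_mul]
    unfold dd et
    rw [← mul_assoc, h1, mul_assoc, mul_assoc, ← dg_comm]
  rw [e]
  exact typ_loc_cen F (typ_loc_K F (typ_dd F (n + 1)) w0_mem) _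

theorem typ_pi : typ F (loc F none (dg (Rinf F).pi 1)) 1 := by
  have e : dg (Rinf F).pi 1 = glob F (wK F) none * (dd F 0 * et (Rinf F)) := by
    rw [glob_wK]
    unfold dd
    rw [pow_zero, dg_one, one_mul, w0_et]
    rfl
  rw [e]
  refine typ_loc_left F (typ_et 0) fun w _ => ?_
  rw [glob_wK]
  exact w0_mem

theorem typ_nU {h : GL (Fin 2) (Kc F none)} {n : ℕ} (H : typ F (loc F none h) n) (p : F[X]) :
    typ F (loc F none (nU (emb F none (algebraMap F[X] (RatFunc F) p)) * h)) n := by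
  rw [← glob_nU]
  exact typ_loc_left F H (fun w hw => nU_poly_mem F p w hw)

theorem typ_some_zero (y : F) :
    typ F (loc F none (nU ((Rinf F).r y) * w0 * et (Rinf F))) 1 := by
  have h : (Rinf F).r y = emb F none (algebraMap F[X] (RatFunc F) (C y)) := by
    rw [Rinf_r, RatFunc.algebraMap_C]
  rw [h, mul_assoc, w0_et]
  exact typ_nU typ_pi _

theorem typ_some_succ (n : ℕ) (y : F) :
    typ F (loc F none (dd F (n + 1) * (nU ((Rinf F).r y) * w0 * et (Rinf F)))) n := by
  have h : ((TT F : (Kc F none)ˣ) : Kc F none) ^ (n + 1) * (Rinf F).r y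
      = emb F none (algebraMap F[X] (RatFunc F) (X ^ (n + 1) * C y)) := by
    rw [Rinf_r, TT_val, map_mul, map_pow, RatFunc.algebraMap_X, RatFunc.algebraMap_C, map_mul,
      map_pow]
  have e : dd F (n + 1) * (nU ((Rinf F).r y) * w0 * et (Rinf F))
      = nU (((TT F : (Kc F none)ˣ) : Kc F none) ^ (n + 1) * (Rinf F).r y) * dd F n := by
    have h1 : dg (TT F ^ (n + 1)) 1 * dg (Rinf F).pi 1 = dg (TT F ^ n) 1 := by
      rw [dg_mul, pow_succ, mul_assoc, TT_mul_pi, mul_one, mul_one]
    have h2 : dg (TT F ^ (n + 1)) 1 * nU ((Rinf F).r y)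
        = nU (((TT F : (Kc F none)ˣ) : Kc F none) ^ (n + 1) * (Rinf F).r y)
          * dg (TT F ^ (n + 1)) 1 := by
      apply gl_ext <;> simp [gl_mul_apply, nU, dg, triL_val, -Units.val_mul]
    rw [mul_assoc, w0_et]
    unfold dd DD
    rw [← mul_assoc, h2, mul_assoc, h1]
  rw [e, h]
  exact typ_nU (typ_dd F n) _

theorem TH_dd_zero {H : GA F → ℂ} (hH : Inv F H) :
    TH F none (Rinf F) H (loc F none (dd F 0))
      = ((Fintype.card F : ℂ) + 1) * H (loc F none (dd F 1)) := by
  have h0 : dd F 0 = 1 := by unfold dd; rw [pow_zero, dg_one]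
  unfold TH
  have h1 : ∀ p, H (loc F none (dd F 0) * loc F none (rep (Rinf F) p * et (Rinf F)))
      = H (loc F none (dd F 1)) := by
    intro p
    rw [← map_mul]
    cases p with
    | none =>
      have : rep (Rinf F) none = 1 := rfl
      rw [this, one_mul]
      exact hH.of_typ (typ_et 0)
    | some y =>
      have : rep (Rinf F) (some y) = nU ((Rinf F).r y) * w0 := rfl
      rw [this, h0, one_mul]
      exact hH.of_typ (typ_some_zero (F := F) y)
  rw [Finset.sum_congr rfl fun p _ => h1 p, Finset.sum_const, Finset.card_univ,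
    Fintype.card_option, nsmul_eq_mul]
  push_cast
  rfl

theorem TH_dd_succ {H : GA F → ℂ} (hH : Inv F H) (n : ℕ) :
    TH F none (Rinf F) H (loc F none (dd F (n + 1)))
      = H (loc F none (dd F (n + 2))) + (Fintype.card F : ℂ) * H (loc F none (dd F n)) := by
  unfold TH
  rw [Fintype.sum_option]
  congr 1
  · have : rep (Rinf F) none = 1 := rfl
    rw [this, one_mul, ← map_mul]
    exact hH.of_typ (typ_et (n + 1))
  · have h1 : ∀ y : (Rinf F).k, H (loc F none (dd F (n + 1)) *
        loc F none (rep (Rinf F) (some y) * et (Rinf F))) = H (loc F none (dd F n)) := by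
      intro y
      rw [← map_mul]
      exact hH.of_typ (typ_some_succ (F := F) n y)
    rw [Finset.sum_congr rfl fun p _ => h1 p, Finset.sum_const, Finset.card_univ, nsmul_eq_mul]
    rfl

/-- **harmonic unramified functions are constant** -/
theorem harmonic_const {H : GA F → ℂ} (hH : Inv F H)
    (h : TH F none (Rinf F) H = ((Fintype.card F : ℂ) + 1) • H) (g : GA F) :
    H g = H (loc F none (dd F 0)) := by
  have hq : ((Fintype.card F : ℂ) + 1) ≠ 0 := by
    exact_mod_cast Nat.succ_ne_zero (Fintype.card F)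
  have key : ∀ n, H (loc F none (dd F n)) = H (loc F none (dd F 0)) ∧
      H (loc F none (dd F (n + 1))) = H (loc F none (dd F 0)) := by
    intro n
    induction n with
    | zero =>
      refine ⟨rfl, ?_⟩
      have h1 := congrFun h (loc F none (dd F 0))
      rw [TH_dd_zero hH, Pi.smul_apply, smul_eq_mul] at h1
      exact mul_left_cancel₀ hq h1
    | succ n ih =>
      refine ⟨ih.2, ?_⟩
      have h1 := congrFun h (loc F none (dd F (n + 1)))
      rw [TH_dd_succ hH, Pi.smul_apply, smul_eq_mul, ih.1, ih.2] at h1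
      linear_combination h1
  obtain ⟨n, hn⟩ := exists_typ F g
  rw [hH.of_typ hn]
  exact (key n).1

/-! ### the Eisenstein cochain -/

/-- solution of the recursion -/
def eps (q : ℂ) : ℕ → ℂ
  | 0 => 0
  | 1 => 1
  | (n + 2) => (q + 1) * eps q (n + 1) - q * eps q n + (q + 1)

variable (F) in
/-- the type of an adelic matrix -/
def nn (g : GA F) : ℕ := (exists_typ F g).choose

theorem nn_eq {g : GA F} {n : ℕ} (h : typ F g n) : nn F g = n :=
  typ_unique F (exists_typ F g).choose_spec h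

theorem nn_spec (g : GA F) : typ F g (nn F g) := (exists_typ F g).choose_spec

variable (F) in
/-- the function `E` -/
def EE (g : GA F) : ℂ := eps (Fintype.card F) (nn F g)

theorem EE_Inv : Inv F (EE F) := by
  refine ⟨fun γ g => ?_, fun g k hk => ?_, fun g z => ?_⟩
  · unfold EE
    rw [nn_eq (typ_left F (nn_spec g) γ)]
  · unfold EE
    rw [nn_eq (typ_right F (nn_spec g) hk)]
  · unfold EE
    rw [nn_eq (typ_cen F (nn_spec g) z)]

theorem EE_dd (n : ℕ) : EE F (loc F none (dd F n)) = eps (Fintype.card F) n := by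
  unfold EE
  rw [nn_eq (typ_dd F n)]

theorem EE_inf : TH F none (Rinf F) (EE F)
    = ((Fintype.card F : ℂ) + 1) • EE F + fun _ => ((Fintype.card F : ℂ) + 1) := by
  funext g
  obtain ⟨n, hn⟩ := exists_typ F g
  rw [(TH_Inv (Rinf F) EE_Inv).of_typ hn, Pi.add_apply, Pi.smul_apply, EE_Inv.of_typ hn,
    smul_eq_mul]
  cases n with
  | zero =>
    rw [TH_dd_zero EE_Inv, EE_dd, EE_dd]
    simp [eps]
  | succ n =>
    rw [TH_dd_succ EE_Inv, EE_dd, EE_dd, EE_dd]
    rw [show eps (Fintype.card F : ℂ) (n + 2) = ((Fintype.card F : ℂ) + 1)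
      * eps (Fintype.card F : ℂ) (n + 1) - (Fintype.card F : ℂ) * eps (Fintype.card F : ℂ) n
      + ((Fintype.card F : ℂ) + 1) from rfl]
    ring

theorem Inv.sub {H H' : GA F → ℂ} (hH : Inv F H) (hH' : Inv F H') : Inv F (H - H') :=
  ⟨fun γ g => by rw [Pi.sub_apply, Pi.sub_apply, hH.left, hH'.left],
   fun g k hk => by rw [Pi.sub_apply, Pi.sub_apply, hH.right g k hk, hH'.right g k hk],
   fun g z => by rw [Pi.sub_apply, Pi.sub_apply, hH.cen, hH'.cen]⟩

theorem Inv.smul {H : GA F → ℂ} (hH : Inv F H) (c : ℂ) : Inv F (c • H) :=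
  ⟨fun γ g => by rw [Pi.smul_apply, Pi.smul_apply, hH.left],
   fun g k hk => by rw [Pi.smul_apply, Pi.smul_apply, hH.right g k hk],
   fun g z => by rw [Pi.smul_apply, Pi.smul_apply, hH.cen]⟩

theorem EE_fin {w : Pl F} (hw : w ≠ none) (R : Res (Kc F w)) : ∃ c : ℂ, ∀ g,
    TH F w R (EE F) g = ((Fintype.card R.k : ℂ) + 1) * EE F g + c := by
  set D : GA F → ℂ := TH F w R (EE F) - ((Fintype.card R.k : ℂ) + 1) • EE F with hD
  have hDI : Inv F D := (TH_Inv R EE_Inv).sub (EE_Inv.smul _)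
  have hDT : TH F none (Rinf F) D = ((Fintype.card F : ℂ) + 1) • D := by
    rw [hD, TH_sub, TH_comm hw, TH_smul, EE_inf, TH_add, TH_smul, TH_const]
    funext g
    simp only [Pi.sub_apply, Pi.add_apply, Pi.smul_apply, smul_eq_mul]
    ring
  refine ⟨D (loc F none (dd F 0)), fun g => ?_⟩
  rw [← harmonic_const hDI hDT g, hD]
  simp only [Pi.sub_apply, Pi.smul_apply, smul_eq_mul]
  ring

variable (F) in
/-- the form -/
def h1 (g : GA F) : ℂ := EE F g - EE F (g * loc F none (et (Rinf F)))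

theorem h1_left (γ : GL (Fin 2) (RatFunc F)) (g : GA F) : h1 F (glob F γ * g) = h1 F g := by
  unfold h1
  rw [EE_Inv.left, mul_assoc, EE_Inv.left]

theorem h1_iw {k : GL (Fin 2) (Kc F none)} (hk : k ∈ Iw (Kc F none)) (g : GA F) :
    h1 F (g * loc F none k) = h1 F g := by
  unfold h1
  rw [EE_Inv.loc_K hk.1, mul_assoc, ← map_mul]
  have e : k * et (Rinf F) = et (Rinf F) * ((et (Rinf F))⁻¹ * k * et (Rinf F)) := by group
  rw [e, map_mul, ← mul_assoc, EE_Inv.loc_K (et_conj_iw (Rinf F) hk).1]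

theorem h1_cen (z : (Kc F none)ˣ) (g : GA F) : h1 F (g * loc F none (dg z z)) = h1 F g := by
  unfold h1
  rw [EE_Inv.cen, mul_assoc, ← map_mul, dg_comm, map_mul, ← mul_assoc, EE_Inv.cen]

theorem h1_eta (g : GA F) : h1 F (g * loc F none (et (Rinf F))) = - h1 F g := by
  unfold h1
  rw [mul_assoc, ← map_mul, et_sq, EE_Inv.cen]
  ring

theorem h1_ne : h1 F ≠ 0 := by
  intro h
  have h2 := congrFun h (loc F none (dd F 0))
  rw [h1, ← map_mul, EE_dd, EE_Inv.of_typ (typ_et 0), EE_dd] at h2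
  simp [eps] at h2

theorem h1_sum (g : GA F) : h1 F g + ∑ y : (Rinf F).k, h1 F (g * loc F none
    (nU ((Rinf F).r y) * w0)) = -((Fintype.card F : ℂ) + 1) := by
  have e1 : h1 F g + ∑ y : (Rinf F).k, h1 F (g * loc F none (nU ((Rinf F).r y) * w0))
      = ∑ p, h1 F (g * loc F none (rep (Rinf F) p)) := by
    rw [sum_option (Rinf F) (fun κ => h1 F (g * loc F none κ)), map_one, mul_one]
  rw [e1]
  unfold h1
  rw [Finset.sum_sub_distrib]
  have e2 : ∑ p, EE F (g * loc F none (rep (Rinf F) p)) = ((Fintype.card F : ℂ) + 1) * EE F g := by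
    rw [Finset.sum_congr rfl fun p _ => EE_Inv.loc_K (rep_mem (Rinf F) p) g, Finset.sum_const,
      Finset.card_univ, Fintype.card_option, nsmul_eq_mul]
    push_cast
    rfl
  have e3 : ∑ p, EE F (g * loc F none (rep (Rinf F) p) * loc F none (et (Rinf F)))
      = TH F none (Rinf F) (EE F) g := by
    unfold TH
    refine Finset.sum_congr rfl fun p _ => ?_
    rw [mul_assoc, ← map_mul]
  rw [e2, e3, EE_inf, Pi.add_apply, Pi.smul_apply, smul_eq_mul]
  ring

theorem h1_loc_K {w : Pl F} (hw : w ≠ none) {k : GL (Fin 2) (Kc F w)}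
    (hk : k ∈ Cong (Kc F w) 0) (g : GA F) : h1 F (g * loc F w k) = h1 F g := by
  unfold h1
  rw [EE_Inv.loc_K hk, mul_assoc, loc_comm_ne hw, ← mul_assoc, EE_Inv.loc_K hk]

theorem h1_loc_cen {w : Pl F} (hw : w ≠ none) (z : (Kc F w)ˣ) (g : GA F) :
    h1 F (g * loc F w (dg z z)) = h1 F g := by
  have h := Run7.h634.AF.center_inv F (EE F) EE_Inv.left (fun g u hu => EE_Inv.right g u hu)
    EE_Inv.cen w z
  unfold h1
  rw [h, mul_assoc, loc_comm_ne hw, ← mul_assoc, h]

theorem h1_hecke {w : Pl F} (hw : w ≠ none) (R : Res (Kc F w)) (g : GA F) :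
    TH F w R (h1 F) g = ((Fintype.card R.k : ℂ) + 1) * h1 F g := by
  obtain ⟨c, hc⟩ := EE_fin hw R
  have e : TH F w R (h1 F) g = TH F w R (EE F) g - TH F w R (EE F) (g * loc F none (et (Rinf F))) := by
    unfold TH h1
    rw [Finset.sum_sub_distrib]
    congr 1
    refine Finset.sum_congr rfl fun p _ => ?_
    rw [mul_assoc, mul_assoc, loc_comm_ne hw]
  rw [e, hc, hc, h1]
  ring

/-- (piece J) the first form -/
theorem exists_form_one : ∃ h : GA F → ℂ,
    (∀ γ g, h (glob F γ * g) = h g) ∧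
    (∃ m, ∀ u ∈ U F m, ∀ g, h (g * u) = h g) ∧
    (∀ k ∈ Iw (Kc F none), rt F (loc F none k) h = h) ∧
    (∀ z : (Kc F none)ˣ, rt F (loc F none (dg z z)) h = h) ∧
    (rt F (loc F none (et (Rinf F))) h = -h) ∧ h ≠ 0 ∧
    (∃ c : ℂ, h + ∑ y : (Rinf F).k, rt F (loc F none (nU ((Rinf F).r y) * w0)) h
      = fun _ => c) ∧
    ∀ (w : Pl F) (R : Res (Kc F w)), w ≠ none → IsSph R (resAt F (rt F) w) h := by
  refine ⟨h1 F, h1_left, ?_, fun k hk => funext fun g => h1_iw hk g,
    fun z => funext fun g => h1_cen z g, funext fun g => h1_eta g, h1_ne,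
    ⟨-((Fintype.card F : ℂ) + 1), ?_⟩, ?_⟩
  · obtain ⟨m, hm⟩ := exists_conj F (loc F none (et (Rinf F))) 0
    refine ⟨m, fun u hu g => ?_⟩
    unfold h1
    have e : g * u * loc F none (et (Rinf F)) = g * loc F none (et (Rinf F)) *
        ((loc F none (et (Rinf F)))⁻¹ * u * loc F none (et (Rinf F))) := by group
    rw [e, EE_Inv.right _ _ (hm u hu), EE_Inv.right g u fun w => cong_anti (Nat.zero_le _) (hu w)]
  · funext g
    rw [Pi.add_apply, Finset.sum_apply]
    exact h1_sum g
  · intro w R hw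
    refine ⟨h1_ne, fun k hk => funext fun g => h1_loc_K hw hk g,
      fun z => funext fun g => h1_loc_cen hw z g, ?_⟩
    funext g
    have h := h1_hecke hw R g
    unfold TH at h
    rw [sum_option R (fun κ => h1 F (g * loc F w (κ * et R))), one_mul] at h
    rw [Pi.add_apply, Finset.sum_apply, Pi.smul_apply, smul_eq_mul]
    exact h

end Run7.h866.AF
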