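import Pool.Agent.Run7.h634.AF.M

/-!
# Piece M without compatibility with isomorphisms (helper634's proof)
-/

set_option autoImplicit false
noncomputable section

namespace Run7.h634.AF

open IsDedekindDomain Polynomial WithZero RestrictedProduct Run7.h866.AF

variable (F : Type) [Field F] [Fintype F]

/-- **the theorem from the two forms** -/
theorem main_of'
    (form_one : ∃ h : GA F → ℂ,
      (∀ γ g, h (glob F γ * g) = h g) ∧
      (∃ m, ∀ u ∈ U F m, ∀ g, h (g * u) = h g) ∧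
      (∀ k ∈ Iw (Kc F none), rt F (loc F none k) h = h) ∧
      (∀ z : (Kc F none)ˣ, rt F (loc F none (Run7.h866.AF.dg z z)) h = h) ∧
      (rt F (loc F none (et (Rinf F))) h = -h) ∧ h ≠ 0 ∧
      (∃ c : ℂ, h + ∑ y : (Rinf F).k,
          rt F (loc F none (nU ((Rinf F).r y) * Run7.h866.AF.w0)) h = fun _ => c) ∧
      ∀ (w : Pl F) (R : Res (Kc F w)), w ≠ none → IsSph R (resAt F (rt F) w) h)
    (form_two : ∃ h : GA F → ℂ,
      (∀ γ g, h (glob F γ * g) = h g) ∧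
      (∃ m, ∀ u ∈ U F m, ∀ g, h (g * u) = h g) ∧ IsCuspFun F h ∧
      IsSt (Rinf F) (resAt F (rt F) none) h) :
    ¬ ∃ l : IrrRep (Kc F none) → IrrRep (Kc F none),
      ∀ (V V' : Type) [AddCommGroup V] [Module ℂ V] [AddCommGroup V'] [Module ℂ V']
        (π : Representation ℂ (GA F) V) (σ : Representation ℂ (GA F) V'),
        IsAutomorphic F π → IsLift F π σ →
          ∀ A : IrrRep (Kc F none), HasComp F π none A → HasComp F σ none (l A) := by
  rintro ⟨l, hl⟩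
  obtain ⟨h₁, l₁, s₁, iw₁, cen₁, eta₁, ne₁, ⟨c, sum₁⟩, sph₁⟩ := form_one
  obtain ⟨h₂, l₂, s₂, cusp₂, st₂⟩ := form_two
  have hsp : ∀ h : GA F → ℂ, ∀ g, ∀ f ∈ Submodule.span ℂ (Set.range fun g : GA F => rt F g h),
      rt F g f ∈ Submodule.span ℂ (Set.range fun g : GA F => rt F g h) := by
    intro h g f hf
    induction hf using Submodule.span_induction with
    | mem x hx =>
      obtain ⟨g', rfl⟩ := hx
      show rt F g (rt F g' h) ∈ _
      rw [← Module.End.mul_apply, ← map_mul]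
      exact Submodule.subset_span ⟨_, rfl⟩
    | zero => rw [map_zero]; exact zero_mem _
    | add x y _ _ hx hy => rw [map_add]; exact add_mem hx hy
    | smul a x _ hx => rw [map_smul]; exact Submodule.smul_mem _ _ hx
  have hself : ∀ h : GA F → ℂ,
      h ∈ Submodule.span ℂ (Set.range fun g : GA F => rt F g h) := by
    intro h
    refine Submodule.subset_span ⟨1, ?_⟩
    show rt F 1 h = h
    rw [map_one]; rfl
  -- the first representation
  set S₁ := Submodule.span ℂ (Set.range fun g : GA F => rt F g h₁) with hS₁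
  let M₁ : Submodule ℂ (GA F → ℂ) := S₁ ⊓ LinearMap.range (constMap F)
  have hM₁st : ∀ g, ∀ f ∈ M₁, rt F g f ∈ M₁ := by
    rintro g f ⟨hf1, b, rfl⟩
    exact ⟨hsp h₁ g _ hf1, b, rfl⟩
  have hh₁ : h₁ ∉ M₁ := by
    rintro ⟨-, b, hb⟩
    apply ne₁
    rw [← hb] at eta₁ ⊢
    have h3 : (b : ℂ) = -b := congrFun eta₁ 1
    have h4 : b = 0 := by
      have : (2 : ℂ) * b = 0 := by linear_combination h3
      simpa using this
    rw [h4, map_zero]
  obtain ⟨V₁, _, _, ρ₁, φ₁, irr₁, sur₁, eq₁, n₁, kill₁⟩ :=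
    exists_irred_quotient S₁ M₁ (hsp h₁) hM₁st inf_le_left ⟨h₁, hself h₁⟩ hh₁ hS₁
  have adm₁ := st_adm none (Rinf F) h₁ iw₁ cen₁ eta₁ (fun _ => c) (fun _ => rfl) sum₁
  have aut₁ : ∀ f ∈ S₁, IsAutForm F f := fun f hf => autForm_span F none h₁ l₁ s₁ adm₁ f hf
  have isaut₁ : IsAutomorphic F ρ₁ :=
    ⟨irr₁, S₁, hsp h₁, fun f hf => ⟨aut₁ f hf, trivial⟩, φ₁, sur₁, eq₁⟩
  have sm₁ : ∀ w, SmoothAt F ρ₁ w := fun w =>
    smoothAt_of F (hsp h₁) (fun f hf => (aut₁ f hf).smooth) sur₁ eq₁ w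
  have st₁ : IsSt (Rinf F) (resAt F ρ₁ none) (φ₁ ⟨h₁, hself h₁⟩) := by
    refine isSt_of F (hsp h₁) eq₁ none (Rinf F) ⟨h₁, hself h₁⟩ n₁ iw₁ cen₁ eta₁ ?_
    intro y hy
    apply kill₁
    refine ⟨y.2, c, ?_⟩
    rw [hy]
    exact sum₁.symm
  -- the second representation
  set S₂ := Submodule.span ℂ (Set.range fun g : GA F => rt F g h₂) with hS₂
  obtain ⟨V₂, _, _, ρ₂, φ₂, irr₂, sur₂, eq₂, n₂, kill₂⟩ :=
    exists_irred_quotient S₂ ⊥ (hsp h₂) (fun g f hf => by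
      rw [(Submodule.mem_bot ℂ).mp hf, map_zero]; exact zero_mem _) bot_le ⟨h₂, hself h₂⟩
      (fun h => st₂.ne ((Submodule.mem_bot ℂ).mp h)) hS₂
  have adm₂ := st_adm none (Rinf F) h₂ st₂.iw st₂.cen st₂.eta 0 (fun _ => map_zero _) st₂.sum
  have aut₂ : ∀ f ∈ S₂, IsAutForm F f := fun f hf => autForm_span F none h₂ l₂ s₂ adm₂ f hf
  have isaut₂ : IsAutomorphic F ρ₂ :=
    ⟨irr₂, S₂, hsp h₂, fun f hf => ⟨aut₂ f hf, trivial⟩, φ₂, sur₂, eq₂⟩
  have iscusp₂ : IsCuspidal F ρ₂ :=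
    ⟨irr₂, S₂, hsp h₂, fun f hf => ⟨aut₂ f hf, cusp_span F h₂ cusp₂ f hf⟩, φ₂, sur₂, eq₂⟩
  have sm₂ : ∀ w, SmoothAt F ρ₂ w := fun w =>
    smoothAt_of F (hsp h₂) (fun f hf => (aut₂ f hf).smooth) sur₂ eq₂ w
  have st₂' : IsSt (Rinf F) (resAt F ρ₂ none) (φ₂ ⟨h₂, hself h₂⟩) := by
    refine isSt_of F (hsp h₂) eq₂ none (Rinf F) ⟨h₂, hself h₂⟩ n₂ st₂.iw st₂.cen st₂.eta ?_
    intro y hy
    apply kill₂
    rw [hy]
    exact (Submodule.mem_bot ℂ).mpr st₂.sum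
  -- the liftings
  have lift₂ : IsLift F ρ₂ ρ₂ := ⟨⟨isaut₂, Or.inl iscusp₂⟩, fun _ _ _ h => h⟩
  have lift₁ : IsLift F ρ₁ (1 : Representation ℂ (GA F) ℂ) := by
    refine ⟨trivial_isobaric F, fun w A hA hcomp => ?_⟩
    obtain ⟨T, hT, he⟩ := hcomp
    have hinj := inj_of_ne F hT he
    cases w with
    | none =>
      exfalso
      obtain ⟨x, hx0, hx⟩ := hA
      apply hx0
      apply hinj
      rw [map_zero]
      refine st_not_unram ρ₁ irr₁ none (sm₁ none) (Rinf F) _ st₁ (T x) fun k hk => ?_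
      rw [← he, hx k hk]
    | some v =>
      obtain ⟨R⟩ := exists_res F (some v)
      have sp := isSph_of F (hsp h₁) eq₁ (some v) R ⟨h₁, hself h₁⟩ n₁
        (sph₁ (some v) R (by simp))
      have htriv := sph_trivial ρ₁ irr₁ (some v) (sm₁ (some v)) R _ sp
      refine hasComp_trivial F fun g x => ?_
      apply hinj
      rw [he, htriv]
  -- the common component
  obtain ⟨A, hA₁, hA₂⟩ := st_comp ρ₁ ρ₂ irr₁ irr₂ none (sm₁ none) (sm₂ none) (Rinf F) _ _ st₁ st₂'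
  have c₁ := hl V₁ ℂ ρ₁ (1 : Representation ℂ (GA F) ℂ) isaut₁ lift₁ A hA₁
  have c₂ := hl V₂ V₂ ρ₂ ρ₂ isaut₂ lift₂ A hA₂
  have htr := comp_trivial F c₁
  obtain ⟨x, hx⟩ := (nontrivial_iff_exists_ne (0 : (l A).V)).mp (l A).irred.1
  obtain ⟨T, hT, he⟩ := c₂
  have hinj := inj_of_ne F hT he
  apply hx
  apply hinj
  rw [map_zero]
  refine st_not_unram ρ₂ irr₂ none (sm₂ none) (Rinf F) _ st₂' (T x) fun k _ => ?_
  rw [← he, htr]

end Run7.h634.AF
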