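import Mathlib
import Pool.Agent.Run7.h866.AF.Base

/-!
# Automorphic representations of `GL_2` over `K = F(t)`, isobaric representations and global
liftings

`F` is a finite field, `K = RatFunc F = F(t)`. A place of `K` is either a nonzero prime of
`F[t]` or the place `∞` (`none`).
-/

set_option autoImplicit false
noncomputable section
open IsDedekindDomain Polynomial WithZero RestrictedProduct Matrix

namespace Run7.h866.LM

open Run7.h866.AF (Pl vK qn Cong triL Irred IrrRep)

/-- The group of units `O^×` of the ring of integers of `L`. -/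
def unitsL (L : Type) [Field L] [Valued L ℤᵐ⁰] : Subgroup Lˣ where
  carrier := {u | Valued.v (u : L) = 1}
  one_mem' := by simp
  mul_mem' := by
    intro a b ha hb
    simp only [Set.mem_ofPred_eq] at ha hb ⊢
    rw [Units.val_mul, map_mul, ha, hb, mul_one]
  inv_mem' := by
    intro a ha
    simp only [Set.mem_ofPred_eq] at ha ⊢
    rw [Units.val_inv_eq_inv_val, map_inv₀, ha, inv_one]

/-- The action of a group element on a vector. -/
def act {G V : Type} [Group G] [AddCommGroup V] [Module ℂ V] (ρ : Representation ℂ G V)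
    (g : G) (x : V) : V := ρ g x

variable (F : Type) [Field F]

/-! ### completions, adeles -/

/-- The completion `K_w`. -/
def Kw (w : Pl F) : Type := (vK F w).Completion

instance instFieldKw (w : Pl F) : Field (Kw F w) :=
  (inferInstance : Field (vK F w).Completion)

instance instValuedKw (w : Pl F) : Valued (Kw F w) ℤᵐ⁰ :=
  (inferInstance : Valued (vK F w).Completion ℤᵐ⁰)

/-- The embedding of `K = F(t)` into the completion `K_w`. -/
def emb (w : Pl F) (x : RatFunc F) : Kw F w :=
  ((WithVal.toVal (vK F w) x : WithVal (vK F w)) : (vK F w).Completion)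

/-- The group `GL_2(K_w)`. -/
abbrev Gw (w : Pl F) : Type := GL (Fin 2) (Kw F w)

/-- The group `GL_2(𝔸)`: the restricted product of the groups `GL_2(K_w)` with respect to the
subgroups `GL_2(O_w)`. -/
def GA : Type := Πʳ w : Pl F, [Gw F w, (Cong (Kw F w) 0 : Subgroup _)]

instance instGroupGA : Group (GA F) :=
  (inferInstance : Group (Πʳ w : Pl F, [Gw F w, (Cong (Kw F w) 0 : Subgroup _)]))

/-- The ring of adeles, as an additive group. -/
def AK : Type := Πʳ w : Pl F, [Kw F w, (Valued.v : Valuation (Kw F w) ℤᵐ⁰).integer]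

instance instAddCommGroupAK : AddCommGroup (AK F) :=
  (inferInstance : AddCommGroup (Πʳ w : Pl F, [Kw F w,
    (Valued.v : Valuation (Kw F w) ℤᵐ⁰).integer]))

/-- The group of ideles. -/
def IK : Type := Πʳ w : Pl F, [(Kw F w)ˣ, (unitsL (Kw F w) : Subgroup _)]

instance instCommGroupIK : CommGroup (IK F) :=
  (inferInstance : CommGroup (Πʳ w : Pl F, [(Kw F w)ˣ, (unitsL (Kw F w) : Subgroup _)]))

variable {F}

/-- The component at `w` of an element of `GL_2(𝔸)`. -/
def GA.at (g : GA F) (w : Pl F) : Gw F w := g.1 w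

/-- The component at `w` of an adele. -/
def AK.at (x : AK F) (w : Pl F) : Kw F w := x.1 w

/-- The component at `w` of an idele. -/
def IK.at (x : IK F) (w : Pl F) : (Kw F w)ˣ := x.1 w

/-- `d` is the image of `γ` under the diagonal embedding `GL_2(K) → GL_2(𝔸)`. -/
def IsGlob (γ : GL (Fin 2) (RatFunc F)) (d : GA F) : Prop :=
  ∀ w i j, (d.at w).val i j = emb F w (γ.val i j)

open Classical in
/-- The inclusion `GL_2(K_w) → GL_2(𝔸)` at the place `w`. -/
def loc (w : Pl F) (g : Gw F w) : GA F := RestrictedProduct.mulSingle _ w g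

theorem tri_mem (a : IK F) (b : AK F) (d : IK F) : ∀ᶠ w : Pl F in Filter.cofinite,
    triL (a.at w) (b.at w) (d.at w) ∈ ((Cong (Kw F w) 0 : Subgroup _) : Set _) := by
  filter_upwards [a.2, b.2, d.2] with w ha hb hd
  have ha' : Valued.v (a.at w : Kw F w) = 1 := ha
  have hb' : Valued.v (b.at w : Kw F w) ≤ 1 := hb
  have hd' : Valued.v (d.at w : Kw F w) = 1 := hd
  refine Run7.h866.AF.mem_cong_zero_iff.2 ⟨fun i j => ?_, fun i j => ?_⟩
  · fin_cases i <;> fin_cases j <;> simp [triL, ha', hb', hd']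
  · have h : (((triL (a.at w) (b.at w) (d.at w))⁻¹ : GL (Fin 2) (Kw F w)) :
        Matrix (Fin 2) (Fin 2) (Kw F w)) = !![(((a.at w)⁻¹ : (Kw F w)ˣ) : Kw F w),
        -(((a.at w)⁻¹ : (Kw F w)ˣ) : Kw F w) * b.at w * (((d.at w)⁻¹ : (Kw F w)ˣ) : Kw F w); 0,
        (((d.at w)⁻¹ : (Kw F w)ˣ) : Kw F w)] := rfl
    rw [h]
    fin_cases i <;> fin_cases j <;> simp [ha', hb', hd']

/-- The adelic upper triangular matrix with diagonal entries `a`, `d` and upper right entry
`b`. -/
def tri (a : IK F) (b : AK F) (d : IK F) : GA F :=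
  ⟨fun w => triL (a.at w) (b.at w) (d.at w), tri_mem a b d⟩

/-! ### automorphic forms -/

/-- The function `f` is right invariant under the open subgroup of level `m` (the adelic
matrices `u` with `u_w ∈ GL_2(O_w)`, `u_w ≡ 1` modulo `ϖ_w ^ m_w`) for some `m`. -/
def IsSmooth (f : GA F → ℂ) : Prop :=
  ∃ m : Pl F →₀ ℕ, ∀ u : GA F, (∀ w, u.at w ∈ Cong (Kw F w) (m w)) → ∀ g, f (g * u) = f g

/-- The function `h` is a linear combination of right translates of `f` by elements of
`GL_2(K_w)`. -/
def InSpanAt (w : Pl F) (f h : GA F → ℂ) : Prop :=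
  ∃ (s : Finset (Gw F w)) (c : Gw F w → ℂ), ∀ x, h x = ∑ g ∈ s, c g * f (x * loc w g)

/-- The function `f` generates an admissible representation of `GL_2(K_w)`: for every `n` the
functions in the span of its right translates under `GL_2(K_w)` which are right invariant under
the principal congruence subgroup of level `n` lie in a finite-dimensional space. -/
def IsAdmAt (w : Pl F) (f : GA F → ℂ) : Prop :=
  ∀ n : ℕ, ∃ (d : ℕ) (b : Fin d → GA F → ℂ), ∀ h : GA F → ℂ, InSpanAt w f h →
    (∀ k ∈ Cong (Kw F w) n, ∀ x, h (x * loc w k) = h x) →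
    ∃ c : Fin d → ℂ, ∀ x, h x = ∑ i, c i * b i x

/-- **Automorphic forms on `GL_2(𝔸)`** (Borel-Jacquet, 5.8): functions on
`GL_2(K) \ GL_2(𝔸)` which are right invariant under an open subgroup and which generate, for
some place `w`, an admissible representation of `GL_2(K_w)`. -/
structure IsAutForm (f : GA F → ℂ) : Prop where
  left : ∀ (γ : GL (Fin 2) (RatFunc F)) (d : GA F), IsGlob γ d → ∀ g, f (d * g) = f g
  smooth : IsSmooth f
  adm : ∃ w, IsAdmAt w f

/-- The subgroup `K + W_m` of the adeles, where `W_m` is the open subgroup of the adeles `x`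
with `|x_w| ≤ |ϖ_w| ^ m_w` for all places `w`. (The set below is this subgroup.) -/
def Lat (m : Pl F →₀ ℕ) : AddSubgroup (AK F) :=
  AddSubgroup.closure {x | ∃ a : RatFunc F, ∀ w, Valued.v (x.at w - emb F w a)
    ≤ exp (-(m w : ℤ))}

/-- The sum `∑_{x ∈ 𝔸 / (K + W_m)} f (n(x) g)`, where `n(x)` is the unipotent matrix with upper
right entry `x`. For large `m` the function `x ↦ f (n(x) g)` is invariant under the subgroup
`K + W_m` and the sum is a positive multiple of the integral `∫_{𝔸 / K} f (n(x) g) dx`. (For a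
finite field `F` the quotient is finite for every `m`.) -/
def constTerm (f : GA F → ℂ) (g : GA F) (m : Pl F →₀ ℕ) : ℂ :=
  ∑ᶠ y : AK F ⧸ Lat m, f (tri 1 y.out 1 * g)

/-- A function is cuspidal if its constant terms vanish. -/
def IsCuspFun (f : GA F → ℂ) : Prop :=
  ∀ g, ∃ m₀, ∀ m, m₀ ≤ m → constTerm f g m = 0

/-- The representation `ρ` is a quotient of a space `S` of automorphic forms with the property
`P`, i.e. a subquotient of the space of these automorphic forms: `S` is a linear space of
functions stable under right translations and `φ` is (on `S`) a surjective linear map to the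
space of `ρ` compatible with the action. -/
def IsSubquot {V : Type} [AddCommGroup V] [Module ℂ V] (P : (GA F → ℂ) → Prop)
    (ρ : Representation ℂ (GA F) V) : Prop :=
  ∃ (S : Set (GA F → ℂ)) (φ : (GA F → ℂ) → V),
    (fun _ => 0) ∈ S ∧
    (∀ (a b : ℂ), ∀ f ∈ S, ∀ h ∈ S, (fun x => a * f x + b * h x) ∈ S ∧
      φ (fun x => a * f x + b * h x) = a • φ f + b • φ h) ∧
    (∀ g, ∀ f ∈ S, (fun x => f (x * g)) ∈ S ∧ φ (fun x => f (x * g)) = act ρ g (φ f)) ∧
    (∀ f ∈ S, IsAutForm f ∧ P f) ∧ ∀ v, ∃ f ∈ S, φ f = v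

/-- **Automorphic representations**: the irreducible subquotients of the space of automorphic
forms. -/
def IsAutomorphic {V : Type} [AddCommGroup V] [Module ℂ V]
    (ρ : Representation ℂ (GA F) V) : Prop :=
  Irred ρ ∧ IsSubquot (fun _ => True) ρ

/-- **Cuspidal automorphic representations**: the irreducible subquotients of the space of cusp
forms. -/
def IsCuspidal {V : Type} [AddCommGroup V] [Module ℂ V]
    (ρ : Representation ℂ (GA F) V) : Prop :=
  Irred ρ ∧ IsSubquot IsCuspFun ρ

/-- The irreducible representation `A` of `GL_2(K_w)` is the component at `w` of the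
irreducible representation `ρ` of `GL_2(𝔸)`: there is a nonzero `GL_2(K_w)`-equivariant linear
map from `A` to `ρ`. (By Flath's theorem `ρ` is a restricted tensor product `⊗ ρ_w` and its
restriction to `GL_2(K_w)` is a direct sum of copies of `ρ_w`.) -/
def HasComp {V : Type} [AddCommGroup V] [Module ℂ V] (ρ : Representation ℂ (GA F) V)
    (w : Pl F) (A : IrrRep (Kw F w)) : Prop :=
  ∃ T : A.V → V, IsLinearMap ℂ T ∧ (∃ x, T x ≠ 0) ∧
    ∀ g x, T (act A.ρ g x) = act ρ (loc w g) (T x)

/-! ### isobaric representations -/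

/-- The norm of an idele, `∏_w |a_w|_w` with the normalised absolute values
`|a_w|_w = q_w ^ (- ord_w a_w)`. -/
def idNorm (a : IK F) : ℝ :=
  ∏ᶠ w : Pl F, (qn F w : ℝ) ^ (WithZero.log (Valued.v ((a.at w : (Kw F w)ˣ) : Kw F w)))

/-- Quasi-characters of `𝔸^× / K^×`: homomorphisms `χ` to `ℂ^×` which are trivial on `K^×` and
on an open subgroup. -/
def IsHecke (χ : IK F →* ℂˣ) : Prop :=
  (∀ (x : RatFunc F) (a : IK F), (∀ w, ((a.at w : (Kw F w)ˣ) : Kw F w) = emb F w x) →
    χ a = 1) ∧
    ∃ m : Pl F →₀ ℕ, ∀ u : IK F,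
      (∀ w, Valued.v ((u.at w : (Kw F w)ˣ) : Kw F w) = 1 ∧
        Valued.v (((u.at w : (Kw F w)ˣ) : Kw F w) - 1) ≤ exp (-(m w : ℤ))) → χ u = 1

/-- The space of the normalised induced representation `Ind (χ₁ ⊗ χ₂)` of `GL_2(𝔸)`: the
functions invariant under an open subgroup with
`f ((a b; 0 d) g) = χ₁(a) χ₂(d) |a/d|^{1/2} f(g)`. -/
def IsInd (χ₁ χ₂ : IK F →* ℂˣ) (f : GA F → ℂ) : Prop :=
  IsSmooth f ∧ ∀ (a : IK F) (b : AK F) (d : IK F) (g : GA F), f (tri a b d * g)
      = (χ₁ a : ℂ) * (χ₂ d : ℂ) * (((idNorm (a / d)) ^ (1 / 2 : ℝ) : ℝ) : ℂ) * f g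

/-- **The isobaric sum `χ₁ ⊞ χ₂`** of two quasi-characters, ordered such that
`|χ₁ / χ₂| = ‖·‖ ^ s` with `s ≥ 0`: the Langlands quotient of `Ind (χ₁ ⊗ χ₂)`, i.e. the
irreducible subrepresentation of `Ind (χ₂ ⊗ χ₁)` (`T` is a nonzero, linear and equivariant map
from `ρ` to it). -/
def IsIsobaricSum {V : Type} [AddCommGroup V] [Module ℂ V] (χ₁ χ₂ : IK F →* ℂˣ)
    (ρ : Representation ℂ (GA F) V) : Prop :=
  (∃ s : ℝ, 0 ≤ s ∧ ∀ a, ‖((χ₁ a : ℂ) / (χ₂ a : ℂ))‖ = idNorm a ^ s) ∧
    ∃ T : V → GA F → ℂ, (∀ (a : ℂ) (v v' : V) (x : GA F), T (a • v + v') x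
      = a * T v x + T v' x) ∧ (∃ v x, T v x ≠ 0) ∧ (∀ g v x, T (act ρ g v) x = T v (x * g)) ∧
      ∀ v, IsInd χ₂ χ₁ (T v)

/-- **Isobaric automorphic representations of `GL_2(𝔸)`**: the cuspidal ones, and the isobaric
sums of two quasi-characters of `𝔸^× / K^×`. -/
def IsIsobaric {V : Type} [AddCommGroup V] [Module ℂ V]
    (ρ : Representation ℂ (GA F) V) : Prop :=
  IsAutomorphic ρ ∧ (IsCuspidal ρ ∨
    ∃ χ₁ χ₂ : IK F →* ℂˣ, IsHecke χ₁ ∧ IsHecke χ₂ ∧ IsIsobaricSum χ₁ χ₂ ρ)

/-! ### liftings -/

/-- **Global liftings** for `G = GL_2` and `ρ = id : GL_2(ℂ) → GL_2(ℂ)` (so that the unramified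
lifting is the identity map): `σ` is an isobaric automorphic representation, and its component
at every place where the component of `π` is unramified is this component. -/
def IsLift {V V' : Type} [AddCommGroup V] [Module ℂ V] [AddCommGroup V'] [Module ℂ V']
    (π : Representation ℂ (GA F) V) (σ : Representation ℂ (GA F) V') : Prop :=
  IsIsobaric σ ∧ ∀ (w : Pl F) (A : IrrRep (Kw F w)), A.Unram → HasComp π w A →
    HasComp σ w A

/-- **The question for `G = GL_2`, `ρ = id`, the local field `K_w` and the global field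
`K = F(t)`:** `l` assigns to every irreducible representation of `GL_2(K_w)` an irreducible
representation of `GL_2(K_w)`, such that for every automorphic representation `π` and every
global lifting `σ` of `π` the component at `w` of `σ` is the value of `l` at the component of
`π`. (It is not even required that `l` is compatible with isomorphisms.) -/
def IsLocalLifting (w : Pl F) (l : IrrRep (Kw F w) → IrrRep (Kw F w)) : Prop :=
  ∀ (V V' : Type) [AddCommGroup V] [Module ℂ V] [AddCommGroup V'] [Module ℂ V']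
    (π : Representation ℂ (GA F) V) (σ : Representation ℂ (GA F) V'),
    IsAutomorphic π → IsLift π σ →
      ∀ A : IrrRep (Kw F w), HasComp π w A → HasComp σ w (l A)

end Run7.h866.LM
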