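import Mathlib
import Pool.Agent.Run7.h866.AF.Stm
import Pool.Agent.Run7.h866.AF.Defs

/-!
# From the definitions of `Defs` to those of `Stm`
-/

set_option autoImplicit false
noncomputable section
open IsDedekindDomain Polynomial WithZero RestrictedProduct Matrix

namespace Run7.h866.LM

open Run7.h866.AF (Pl vK qn Cong triL Irred IrrRep)

variable {F : Type} [Field F]

theorem isGlob_eq {γ : GL (Fin 2) (RatFunc F)} {d : Run7.h866.AF.GA F}
    (h : IsGlob γ (d : GA F)) : d = Run7.h866.AF.glob F γ := by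
  apply RestrictedProduct.ext
  intro w
  apply Units.ext
  ext i j
  exact h w i j

theorem isSmooth_of {f : Run7.h866.AF.GA F → ℂ}
    (h : ∃ m, ∀ u ∈ Run7.h866.AF.U F m, ∀ g, f (g * u) = f g) : IsSmooth (F := F) f := h

theorem inSpanAt {w : Pl F} {f h : Run7.h866.AF.GA F → ℂ} (H : InSpanAt (F := F) w f h) :
    h ∈ Run7.h866.AF.spanAt F w f := by
  obtain ⟨s, c, hc⟩ := H
  have e : h = ∑ g ∈ s, c g • Run7.h866.AF.rt F (Run7.h866.AF.loc F w g) f := by
    funext x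
    rw [Finset.sum_apply]
    exact hc x
  rw [e]
  exact Submodule.sum_mem _ fun g _ => Submodule.smul_mem _ _ (Submodule.subset_span ⟨g, rfl⟩)

theorem isAdmAt_of {w : Pl F} {f : Run7.h866.AF.GA F → ℂ}
    (H : ∀ n, FiniteDimensional ℂ
      (Run7.h866.AF.spanAt F w f ⊓ Run7.h866.AF.fixedAt F w n : Submodule ℂ _)) :
    IsAdmAt (F := F) w f := by
  intro n
  have := H n
  set S : Submodule ℂ (Run7.h866.AF.GA F → ℂ) :=
    Run7.h866.AF.spanAt F w f ⊓ Run7.h866.AF.fixedAt F w n with hS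
  let B := Module.finBasis ℂ S
  refine ⟨Module.finrank ℂ S, fun i => ((B i : S) : Run7.h866.AF.GA F → ℂ), ?_⟩
  intro h h1 h2
  have hm : h ∈ S := ⟨inSpanAt h1, fun k hk => funext fun x => h2 k hk x⟩
  refine ⟨fun i => B.repr ⟨h, hm⟩ i, fun x => ?_⟩
  have e := congrArg (fun y : S => (y : Run7.h866.AF.GA F → ℂ)) (B.sum_repr ⟨h, hm⟩)
  simp only [Submodule.coe_sum, Submodule.coe_smul] at e
  have e2 := congrFun e x
  rw [Finset.sum_apply] at e2
  exact e2.symm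

theorem isAutForm_of {f : Run7.h866.AF.GA F → ℂ} (h : Run7.h866.AF.IsAutForm F f) :
    IsAutForm (F := F) f := by
  refine ⟨fun γ d hd g => ?_, isSmooth_of h.smooth, ?_⟩
  · have e := isGlob_eq hd
    have := h.left γ g
    rw [← e] at this
    exact this
  · obtain ⟨w, hw⟩ := h.adm
    exact ⟨w, isAdmAt_of hw⟩

theorem lat_eq (m : Pl F →₀ ℕ) : (Lat m : AddSubgroup (Run7.h866.AF.AK F))
    = (Run7.h866.AF.globA F).toAddMonoidHom.range ⊔ Run7.h866.AF.W F m := by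
  apply le_antisymm
  · refine (AddSubgroup.closure_le _).2 ?_
    intro x hx
    obtain ⟨a, ha⟩ := hx
    have key : ∀ x : Run7.h866.AF.AK F, (x - Run7.h866.AF.globA F a) ∈ Run7.h866.AF.W F m →
        x ∈ (Run7.h866.AF.globA F).toAddMonoidHom.range ⊔ Run7.h866.AF.W F m := by
      intro x hx
      have h : x = Run7.h866.AF.globA F a + (x - Run7.h866.AF.globA F a) := by ring
      rw [h]
      exact AddSubgroup.add_mem_sup ⟨a, rfl⟩ hx
    exact key x ha
  · refine sup_le ?_ ?_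
    · rintro _ ⟨a, rfl⟩
      refine AddSubgroup.subset_closure ⟨a, fun w => ?_⟩
      have h : AK.at (F := F) ((Run7.h866.AF.globA F).toAddMonoidHom a) w - emb F w a = 0 :=
        sub_self _
      rw [h, map_zero]
      exact zero_le
    · intro x hx
      refine AddSubgroup.subset_closure ⟨0, fun w => ?_⟩
      have h : emb F w 0 = 0 := map_zero (Run7.h866.AF.emb F w)
      rw [h, sub_zero]
      exact hx w

theorem constTerm_eq (f : Run7.h866.AF.GA F → ℂ) (g : Run7.h866.AF.GA F) (m : Pl F →₀ ℕ) :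
    constTerm (F := F) f g m = Run7.h866.AF.constTerm F f g m := by
  have h := congrArg (fun S : AddSubgroup (Run7.h866.AF.AK F) =>
    ∑ᶠ y : Run7.h866.AF.AK F ⧸ S, f (Run7.h866.AF.tri F 1 y.out 1 * g)) (lat_eq m)
  exact h

theorem isCuspFun_of {f : Run7.h866.AF.GA F → ℂ} (h : Run7.h866.AF.IsCuspFun F f) :
    IsCuspFun (F := F) f := by
  intro g
  obtain ⟨m₀, hm⟩ := h g
  exact ⟨m₀, fun m hmm => (constTerm_eq f g m).trans (hm m hmm)⟩

variable {V V' : Type} [AddCommGroup V] [Module ℂ V] [AddCommGroup V'] [Module ℂ V']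

open Classical in
theorem exists_ext (S : Submodule ℂ (Run7.h866.AF.GA F → ℂ)) (φ : S →ₗ[ℂ] V) :
    ∃ ψ : (Run7.h866.AF.GA F → ℂ) → V, ∀ f (hf : f ∈ S), ψ f = φ ⟨f, hf⟩ :=
  ⟨fun f => if h : f ∈ S then φ ⟨f, h⟩ else 0, fun _ hf => dif_pos hf⟩

theorem isSubquot_of {P : (GA F → ℂ) → Prop} {P' : (Run7.h866.AF.GA F → ℂ) → Prop}
    (hP : ∀ f, P' f → P f) {ρ : Representation ℂ (Run7.h866.AF.GA F) V}
    (H : Run7.h866.AF.IsSubquot F P' ρ) : IsSubquot (F := F) P ρ := by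
  obtain ⟨S, h1, h2, φ, h3, h4⟩ := H
  obtain ⟨ψ, hψ⟩ := exists_ext S φ
  have k1 : ∀ (a b : ℂ), ∀ f ∈ S, ∀ h ∈ S, a • f + b • h ∈ S ∧
      ψ (a • f + b • h) = a • ψ f + b • ψ h := by
    intro a b f hf h hh
    have hm : a • f + b • h ∈ S := S.add_mem (S.smul_mem a hf) (S.smul_mem b hh)
    refine ⟨hm, ?_⟩
    rw [hψ _ hm, hψ _ hf, hψ _ hh, ← map_smul, ← map_smul, ← map_add]
    rfl
  have k2 : ∀ g, ∀ f ∈ S, Run7.h866.AF.rt F g f ∈ S ∧
      ψ (Run7.h866.AF.rt F g f) = ρ g (ψ f) := by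
    intro g f hf
    have hm := h1 g f hf
    refine ⟨hm, ?_⟩
    rw [hψ _ hm, hψ _ hf]
    exact h4 g ⟨f, hf⟩ ⟨_, hm⟩ rfl
  have k3 : ∀ v, ∃ f ∈ S, ψ f = v := by
    intro v
    obtain ⟨⟨f, hf⟩, hv⟩ := h3 v
    exact ⟨f, hf, by rw [hψ _ hf, hv]⟩
  exact ⟨(S : Set (Run7.h866.AF.GA F → ℂ)), ψ, S.zero_mem, k1, k2,
    fun f hf => ⟨isAutForm_of (h2 f hf).1, hP f (h2 f hf).2⟩, k3⟩

theorem isAutomorphic_of {ρ : Representation ℂ (Run7.h866.AF.GA F) V}
    (h : Run7.h866.AF.IsAutomorphic F ρ) : IsAutomorphic (F := F) ρ :=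
  ⟨h.1, isSubquot_of (fun _ _ => trivial) h.2⟩

theorem isCuspidal_of {ρ : Representation ℂ (Run7.h866.AF.GA F) V}
    (h : Run7.h866.AF.IsCuspidal F ρ) : IsCuspidal (F := F) ρ :=
  ⟨h.1, isSubquot_of (fun _ hf => isCuspFun_of hf) h.2⟩

theorem hasComp_iff {ρ : Representation ℂ (Run7.h866.AF.GA F) V} {w : Pl F}
    {A : IrrRep (Run7.h866.AF.Kc F w)} :
    HasComp (F := F) ρ w A ↔ Run7.h866.AF.HasComp F ρ w A := by
  constructor
  · rintro ⟨T, h1, ⟨x, hx⟩, h2⟩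
    refine ⟨IsLinearMap.mk' T h1, ?_, h2⟩
    intro h0
    apply hx
    have := congrArg (fun f : A.V →ₗ[ℂ] V => f x) h0
    exact this
  · rintro ⟨T, h1, h2⟩
    refine ⟨T, ⟨map_add T, map_smul T⟩, ?_, h2⟩
    by_contra hc
    push Not at hc
    apply h1
    exact LinearMap.ext hc

theorem isHecke_of {χ : Run7.h866.AF.IK F →* ℂˣ} (h : Run7.h866.AF.IsHecke F χ) :
    IsHecke (F := F) χ := by
  refine ⟨fun x a ha => ?_, h.2⟩
  have hx : x ≠ 0 := by
    intro h0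
    have h1 := ha none
    have h2 : emb F none 0 = 0 := map_zero (Run7.h866.AF.emb F none)
    rw [h0, h2] at h1
    exact (IK.at a none).ne_zero h1
  have key : ∀ a : Run7.h866.AF.IK F, (∀ w, ((a w : (Run7.h866.AF.Kc F w)ˣ) :
      Run7.h866.AF.Kc F w) = Run7.h866.AF.emb F w x) →
      a = Run7.h866.AF.globI F (Units.mk0 x hx) := by
    intro a ha
    apply RestrictedProduct.ext
    intro w
    apply Units.ext
    exact ha w
  have e := key a ha
  have h3 := h.1 (Units.mk0 x hx)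
  rw [← e] at h3
  exact h3

theorem isInd_of {χ₁ χ₂ : Run7.h866.AF.IK F →* ℂˣ} {f : Run7.h866.AF.GA F → ℂ}
    (h : Run7.h866.AF.IsInd F χ₁ χ₂ f) : IsInd (F := F) χ₁ χ₂ f := h

theorem isIsobaricSum_of {χ₁ χ₂ : Run7.h866.AF.IK F →* ℂˣ}
    {ρ : Representation ℂ (Run7.h866.AF.GA F) V} (h : Run7.h866.AF.IsIsobaricSum F χ₁ χ₂ ρ) :
    IsIsobaricSum (F := F) χ₁ χ₂ ρ := by
  obtain ⟨h1, T, h2, h3, h4⟩ := h
  refine ⟨h1, fun v => T v, ?_, ?_, ?_, fun v => isInd_of (h4 v)⟩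
  · intro a v v' x
    have := congrFun (show T (a • v + v') = a • T v + T v' by rw [map_add, map_smul]) x
    exact this
  · by_contra hc
    push Not at hc
    apply h2
    refine LinearMap.ext fun v => funext fun x => hc v x
  · intro g v x
    exact congrFun (h3 g v) x

theorem isIsobaric_of {ρ : Representation ℂ (Run7.h866.AF.GA F) V}
    (h : Run7.h866.AF.IsIsobaric F ρ) : IsIsobaric (F := F) ρ := by
  refine ⟨isAutomorphic_of h.1, ?_⟩
  rcases h.2 with h | ⟨χ₁, χ₂, h1, h2, h3⟩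
  · exact Or.inl (isCuspidal_of h)
  · exact Or.inr ⟨χ₁, χ₂, isHecke_of h1, isHecke_of h2, isIsobaricSum_of h3⟩

theorem isLift_of {π : Representation ℂ (Run7.h866.AF.GA F) V}
    {σ : Representation ℂ (Run7.h866.AF.GA F) V'} (h : Run7.h866.AF.IsLift F π σ) :
    IsLift (F := F) π σ :=
  ⟨isIsobaric_of h.1, fun w A hA hc => hasComp_iff.2 (h.2 w A hA (hasComp_iff.1 hc))⟩

theorem of_isLocalLifting {w : Pl F} {l : IrrRep (Kw F w) → IrrRep (Kw F w)}
    (H : IsLocalLifting w l) :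
    ∀ (V V' : Type) [AddCommGroup V] [Module ℂ V] [AddCommGroup V'] [Module ℂ V']
      (π : Representation ℂ (Run7.h866.AF.GA F) V) (σ : Representation ℂ (Run7.h866.AF.GA F) V'),
      Run7.h866.AF.IsAutomorphic F π → Run7.h866.AF.IsLift F π σ →
        ∀ A : IrrRep (Run7.h866.AF.Kc F w), Run7.h866.AF.HasComp F π w A →
          Run7.h866.AF.HasComp F σ w (l A) :=
  fun V V' _ _ _ _ π σ hπ hσ A hA =>
    hasComp_iff.1 (H V V' π σ (isAutomorphic_of hπ) (isLift_of hσ) A (hasComp_iff.2 hA))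

end Run7.h866.LM
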